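import Pool.Agent.Work.MP_bde882_al_red.Final

/-!
Content bookkeeping: the operators of the full model are homogeneous for the content, so the big
check is only needed when no content exceeds `(6, 6, 6)`, and only on one target block.
-/

set_option autoImplicit false

namespace Pool.Agent.Work.MP_bde882_al.Fin8

open Finset
open Pool.Agent.Work.MP_bde882_al.Red
open Pool.Agent.Work.MP_bde882_al.H93
open Pool.Agent.Work.MP_bde882_al.H69
open Pool.Agent.Work.MP_bde882_al.H87

/-- the letters of the full model as elements of the ring of endomorphisms -/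
def XO (H : HM) (i : Fin 3) : Module.End (ZMod 7) HV := XH H i

section homog

variable (H : HM)

/-- the vector lives in the block of content `κ` -/
def SuppIn (κ : Fin 3 → ℕ) (y : HV) : Prop :=
  ∀ τ k, y τ k ≠ 0 → τ < 343 ∧ (∀ i, dg i τ = κ i) ∧ k < DH H τ

variable {H}

theorem SuppIn.zero (κ : Fin 3 → ℕ) : SuppIn H κ 0 := fun _ _ h => absurd rfl h

theorem SuppIn.add {κ : Fin 3 → ℕ} {y z : HV} (hy : SuppIn H κ y) (hz : SuppIn H κ z) :
    SuppIn H κ (y + z) := by
  intro τ k h
  by_cases h1 : y τ k = 0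
  · refine hz τ k ?_
    intro h2
    apply h
    rw [Pi.add_apply, Pi.add_apply, h1, h2, add_zero]
  · exact hy τ k h1

theorem SuppIn.sub {κ : Fin 3 → ℕ} {y z : HV} (hy : SuppIn H κ y) (hz : SuppIn H κ z) :
    SuppIn H κ (y - z) := by
  intro τ k h
  by_cases h1 : y τ k = 0
  · refine hz τ k ?_
    intro h2
    apply h
    rw [Pi.sub_apply, Pi.sub_apply, h1, h2, sub_zero]
  · exact hy τ k h1

theorem SuppIn.smul {κ : Fin 3 → ℕ} {y : HV} (c : ZMod 7) (hy : SuppIn H κ y) :
    SuppIn H κ (c • y) := by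
  intro τ k h
  refine hy τ k ?_
  intro h2
  apply h
  rw [Pi.smul_apply, Pi.smul_apply, h2, smul_zero]

theorem SuppIn.sum {ι : Type*} {κ : Fin 3 → ℕ} (s : Finset ι) (y : ι → HV)
    (h : ∀ i, SuppIn H κ (y i)) : SuppIn H κ (∑ i ∈ s, y i) := by
  classical
  induction s using Finset.induction_on with
  | empty =>
    rw [sum_empty]
    exact SuppIn.zero κ
  | insert i s hi ih =>
    rw [sum_insert hi]
    exact (h i).add ih

theorem dg_lt (i : Fin 3) (τ : ℕ) : dg i τ < 7 := Nat.mod_lt _ (by norm_num)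

/-- no vector lives in a block whose content exceeds `6` -/
theorem SuppIn.eq_zero {κ : Fin 3 → ℕ} {y : HV} (hy : SuppIn H κ y) (h : ∃ i, 6 < κ i) : y = 0 := by
  obtain ⟨i, hi⟩ := h
  funext τ k
  by_contra hne
  obtain ⟨-, h1, -⟩ := hy τ k hne
  have := dg_lt i τ
  rw [h1 i] at this
  omega

/-- the block of content `κ` -/
def tgt (κ : Fin 3 → ℕ) : ℕ := 49 * κ 0 + 7 * κ 1 + κ 2

/-- a vector of the block `τ` is zero if its coordinates are -/
theorem SuppIn.eq_zero_of_coord {κ : Fin 3 → ℕ} {y : HV} (hy : SuppIn H κ y)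
    (h : ∀ k < DH H (tgt κ), y (tgt κ) k = 0) : y = 0 := by
  funext τ k
  by_contra hne
  obtain ⟨h1, h2, h3⟩ := hy τ k hne
  have h4 : τ = tgt κ := by
    unfold tgt
    rw [← h2 0, ← h2 1, ← h2 2]
    exact code_of_dg τ h1
  rw [h4] at h3 hne
  exact hne (h k h3)

theorem SuppIn.XH {κ : Fin 3 → ℕ} {y : HV} (i : Fin 3) (hy : SuppIn H κ y) :
    SuppIn H (κ + Pi.single i 1) (H87.XH H i y) := by
  intro τ k h
  rw [XH_apply] at h
  by_cases hc : τ < 343 ∧ 0 < dg i τ ∧ k < DH H τ
  · rw [if_pos hc] at h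
    obtain ⟨m, -, hm⟩ := exists_ne_zero_of_sum_ne_zero h
    obtain ⟨-, h3, -⟩ := hy _ _ (right_ne_zero_of_mul hm)
    obtain ⟨hb, hd, hk⟩ := hc
    obtain ⟨hle, hdg⟩ := dg_facts τ hb i hd
    refine ⟨hb, fun l => ?_, hk⟩
    rw [hdg l, h3 l, Pi.add_apply]
    congr 1
    by_cases hl : l = i
    · subst hl
      rw [if_pos rfl, Pi.single_eq_same]
    · rw [if_neg hl, Pi.single_eq_of_ne hl]
  · exact absurd (if_neg hc) h

/-- the content of a word -/
def ct (w : List (Fin 3)) (i : Fin 3) : ℕ := w.count i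

theorem ct_cons (a : Fin 3) (w : List (Fin 3)) : ct (a :: w) = Pi.single a 1 + ct w := by
  funext i
  unfold ct
  rw [List.count_cons, Pi.add_apply, add_comm]
  congr 1
  by_cases h : a = i
  · subst h
    simp
  · rw [Pi.single_eq_of_ne (fun h' => h h'.symm)]
    simp [h]

/-- an operator is homogeneous of content `κ` -/
def HomOp (H : HM) (κ : Fin 3 → ℕ) (a : Module.End (ZMod 7) HV) : Prop :=
  ∀ (μ : Fin 3 → ℕ) (y : HV), SuppIn H μ y → SuppIn H (μ + κ) (a y)

theorem homOp_rn (w : List (Fin 3)) : HomOp H (ct w) (rn (XO H) w) := by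
  induction w with
  | nil => exact fun μ y _ => SuppIn.zero _
  | cons a w ih =>
    intro μ y hy
    by_cases h : w = []
    · subst h
      rw [ct_cons]
      have e : ct ([] : List (Fin 3)) = 0 := rfl
      rw [e, add_zero]
      exact hy.XH a
    · rw [rn_cons _ a w h, LinearMap.sub_apply, Module.End.mul_apply, Module.End.mul_apply,
        ct_cons]
      refine SuppIn.sub ?_ ?_
      · have := (ih μ y hy).XH a
        rwa [add_assoc, add_comm (ct w)] at this
      · have := ih _ _ (hy.XH a)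
        rwa [add_assoc] at this

/-- the content of the `i`-th basis element -/
def lbCt (i : Fin 504) : Fin 3 → ℕ := ct (lbWord i)

theorem homOp_lb (i : Fin 504) : HomOp H (lbCt i) (lb (XO H) i) := homOp_rn _

theorem homOp_Sy (n : ℕ) (a : Fin n → Module.End (ZMod 7) HV) (κ : Fin n → Fin 3 → ℕ)
    (h : ∀ i, HomOp H (κ i) (a i)) : HomOp H (∑ i, κ i) (Sy n a) := by
  induction n with
  | zero =>
    intro μ y hy
    rw [Finset.univ_eq_empty, Finset.sum_empty, add_zero]
    exact hy
  | succ n ih =>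
    intro μ y hy
    unfold Sy
    rw [LinearMap.sum_apply]
    refine SuppIn.sum _ _ (fun i => ?_)
    rw [Module.End.mul_apply]
    have h1 := ih (fun j => a (i.succAbove j)) (fun j => κ (i.succAbove j)) (fun j => h _) μ y hy
    have h2 := h i _ _ h1
    rw [Fin.sum_univ_succAbove κ i]
    rwa [add_assoc, add_comm (∑ j, κ (i.succAbove j))] at h2

theorem suppIn_bv (β m : ℕ) (hβ : β < 343) (hm : m < DH H β) :
    SuppIn H (fun i => dg i β) (bv β m) := by
  intro τ k h
  have h1 : τ = β ∧ k = m := by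
    by_contra hne
    apply h
    change (if τ = β ∧ k = m then (1 : ZMod 7) else 0) = 0
    rw [if_neg hne]
  rw [h1.1, h1.2]
  exact ⟨hβ, fun _ => rfl, hm⟩

/-- the code of a content -/
def tgtW (w : List (Fin 3)) : ℕ := tgt (ct w)

theorem tgt_add (κ κ' : Fin 3 → ℕ) : tgt (κ + κ') = tgt κ + tgt κ' := by
  unfold tgt
  simp only [Pi.add_apply]
  ring

theorem tgt_single (i : Fin 3) : tgt (Pi.single i 1) = sh i := by
  fin_cases i <;> simp [tgt, sh]

theorem tgt_dg (β : ℕ) (hβ : β < 343) : tgt (fun i => dg i β) = β := (code_of_dg β hβ).symm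

theorem tgtW_nil : tgtW [] = 0 := rfl

theorem tgtW_cons (a : Fin 3) (w : List (Fin 3)) : tgtW (a :: w) = sh a + tgtW w := by
  unfold tgtW
  rw [ct_cons, tgt_add, tgt_single]

theorem tgtW_eq (w : List (Fin 3)) : tgtW w = (w.map sh).sum := by
  induction w with
  | nil => rfl
  | cons a w ih => rw [tgtW_cons, ih, List.map_cons, List.sum_cons]

/-- a vector of the block `κ` is the sum of its coordinates -/
theorem SuppIn.eq_sum {κ : Fin 3 → ℕ} {y : HV} (hy : SuppIn H κ y) :
    y = ∑ k ∈ range (DH H (tgt κ)), y (tgt κ) k • bv (tgt κ) k := by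
  funext τ k
  rw [Finset.sum_apply, Finset.sum_apply]
  by_cases hτ : τ = tgt κ ∧ k < DH H (tgt κ)
  · obtain ⟨rfl, hk⟩ := hτ
    rw [Finset.sum_eq_single k]
    · change _ = y _ k * (if tgt κ = tgt κ ∧ k = k then (1 : ZMod 7) else 0)
      rw [if_pos ⟨rfl, rfl⟩, mul_one]
    · intro l _ hl
      change y _ l * (if tgt κ = tgt κ ∧ k = l then (1 : ZMod 7) else 0) = 0
      rw [if_neg (fun h => hl h.2.symm), mul_zero]
    · intro h
      exact absurd (mem_range.2 hk) h
  · rw [Finset.sum_eq_zero]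
    · by_contra hne
      obtain ⟨h1, h2, h3⟩ := hy τ k hne
      apply hτ
      have h4 : τ = tgt κ := by
        unfold tgt
        rw [← h2 0, ← h2 1, ← h2 2]
        exact code_of_dg τ h1
      rw [h4] at h3
      exact ⟨h4, h3⟩
    · intro l hl
      change y _ l * (if τ = tgt κ ∧ k = l then (1 : ZMod 7) else 0) = 0
      rw [if_neg, mul_zero]
      rintro ⟨h1, rfl⟩
      exact hτ ⟨h1, mem_range.1 hl⟩

/-- coordinates outside the block vanish -/
theorem SuppIn.apply_eq_zero {κ : Fin 3 → ℕ} {y : HV} (hy : SuppIn H κ y) (τ k : ℕ)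
    (h : ¬ (τ = tgt κ ∧ k < DH H (tgt κ))) : y τ k = 0 := by
  by_contra hne
  obtain ⟨h1, h2, h3⟩ := hy τ k hne
  apply h
  have h4 : τ = tgt κ := by
    unfold tgt
    rw [← h2 0, ← h2 1, ← h2 2]
    exact code_of_dg τ h1
  rw [h4] at h3
  exact ⟨h4, h3⟩

/-- an operator applied to a vector of the block `β`, in coordinates -/
theorem SuppIn.map_apply {β : ℕ} (hβ : β < 343) {y : HV} (hy : SuppIn H (fun i => dg i β) y)
    (a : Module.End (ZMod 7) HV) (τ r : ℕ) :
    a y τ r = ∑ t ∈ range (DH H β), a (bv β t) τ r * y β t := by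
  have h := hy.eq_sum
  rw [tgt_dg β hβ] at h
  conv_lhs => rw [h]
  rw [map_sum, Finset.sum_apply, Finset.sum_apply]
  refine Finset.sum_congr rfl (fun t _ => ?_)
  rw [map_smul, Pi.smul_apply, Pi.smul_apply, smul_eq_mul, mul_comm]

/-- the operator of the word `w` maps the block `β` to the block `β + tgtW w`, if the contents fit -/
theorem suppIn_rn_bv (w : List (Fin 3)) (β t : ℕ) (hβ : β < 343) (ht : t < DH H β) :
    SuppIn H ((fun i => dg i β) + ct w) (rn (XO H) w (bv β t)) :=
  homOp_rn w _ _ (suppIn_bv β t hβ ht)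

theorem tgt_fit (w : List (Fin 3)) (β : ℕ) (hβ : β < 343) :
    tgt ((fun i => dg i β) + ct w) = β + tgtW w := by
  rw [tgt_add, tgt_dg β hβ]
  rfl

/-- the operator of the word `w` kills the block `β` if the contents do not fit -/
theorem rn_bv_eq_zero (w : List (Fin 3)) (β t : ℕ) (hβ : β < 343) (ht : t < DH H β)
    (h : ∃ i, 6 < dg i β + ct w i) : rn (XO H) w (bv β t) = 0 :=
  (suppIn_rn_bv w β t hβ ht).eq_zero h

/-- coordinates outside the target block vanish -/
theorem rn_bv_apply_eq_zero (w : List (Fin 3)) (β t : ℕ) (hβ : β < 343) (ht : t < DH H β)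
    (τ k : ℕ) (h : ¬ (τ = β + tgtW w ∧ k < DH H (β + tgtW w))) :
    rn (XO H) w (bv β t) τ k = 0 := by
  refine (suppIn_rn_bv w β t hβ ht).apply_eq_zero τ k ?_
  rw [tgt_fit w β hβ]
  exact h

/-- the image of a basis vector is the sum of its coordinates on the target block -/
theorem rn_bv_eq_sum (w : List (Fin 3)) (β t : ℕ) (hβ : β < 343) (ht : t < DH H β) :
    rn (XO H) w (bv β t)
      = ∑ k ∈ range (DH H (β + tgtW w)), rn (XO H) w (bv β t) (β + tgtW w) k
          • bv (β + tgtW w) k := by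
  have h := (suppIn_rn_bv w β t hβ ht).eq_sum
  rwa [tgt_fit w β hβ] at h

/-- the matrix of the operator of the word `w` on the block `β` -/
def MO (H : HM) (w : List (Fin 3)) (β r t : ℕ) : ZMod 7 :=
  rn (XO H) w (bv β t) (β + tgtW w) r

/-- a vector with coordinates in the block `β` -/
theorem suppIn_of_block (β : ℕ) (hβ : β < 343) (y : HV)
    (h : ∀ τ k, ¬ (τ = β ∧ k < DH H β) → y τ k = 0) : SuppIn H (fun i => dg i β) y := by
  intro τ k hne
  by_cases hc : τ = β ∧ k < DH H β
  · obtain ⟨rfl, hk⟩ := hc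
    exact ⟨hβ, fun _ => rfl, hk⟩
  · exact absurd (h τ k hc) hne

/-- the operator of a word in coordinates -/
theorem rn_apply (w : List (Fin 3)) {β : ℕ} (hβ : β < 343) {y : HV}
    (hy : SuppIn H (fun i => dg i β) y) (r : ℕ) :
    rn (XO H) w y (β + tgtW w) r = ∑ t ∈ range (DH H β), MO H w β r t * y β t :=
  hy.map_apply hβ _ _ _

theorem XO_bv_apply (a : Fin 3) (β t : ℕ) (hβ : β < 343) (ha : dg a β < 6) (ht : t < DH H β)
    (r : ℕ) (hr : r < DH H (β + sh a)) : XO H a (bv β t) (β + sh a) r = xh H a β r t := by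
  obtain ⟨h1, h2⟩ := dg_up β hβ a ha
  change XH H a (bv β t) (β + sh a) r = _
  rw [XH_apply, if_pos ⟨h1, h2, hr⟩, Nat.add_sub_cancel]
  rw [Finset.sum_eq_single t]
  · change _ * (if β = β ∧ t = t then (1 : ZMod 7) else 0) = _
    rw [if_pos ⟨rfl, rfl⟩, mul_one]
  · intro m _ hm
    change _ * (if β = β ∧ m = t then (1 : ZMod 7) else 0) = _
    rw [if_neg (fun h => hm h.2), mul_zero]
  · intro h
    exact absurd (mem_range.2 ht) h

theorem tgtW_single (a : Fin 3) : tgtW [a] = sh a := by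
  rw [tgtW_cons, tgtW_nil, add_zero]

/-- the digits of a sum of blocks without carry -/
theorem dg_of_tgt (κ : Fin 3 → ℕ) (h : ∀ i, κ i ≤ 6) : tgt κ < 343 ∧ ∀ i, dg i (tgt κ) = κ i := by
  have h0 := h 0
  have h1 := h 1
  have h2 := h 2
  refine ⟨by unfold tgt; omega, fun i => ?_⟩
  have key : ∀ i : Fin 3, dg i (tgt κ) = κ i := by
    intro i
    fin_cases i
    · change tgt κ / 49 % 7 = κ 0
      unfold tgt
      omega
    · change tgt κ / 7 % 7 = κ 1
      unfold tgt
      omega
    · change tgt κ / 1 % 7 = κ 2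
      unfold tgt
      omega
  exact key i

theorem blk_fit (w : List (Fin 3)) (β : ℕ) (hβ : β < 343) (hfit : ∀ i, dg i β + ct w i ≤ 6) :
    β + tgtW w < 343 ∧ ∀ i, dg i (β + tgtW w) = dg i β + ct w i := by
  have h := dg_of_tgt ((fun i => dg i β) + ct w) hfit
  rw [tgt_fit w β hβ] at h
  exact h

/-- letters -/
theorem MO_single (a : Fin 3) (β r t : ℕ) (hβ : β < 343) (ha : dg a β < 6) (ht : t < DH H β)
    (hr : r < DH H (β + sh a)) : MO H [a] β r t = xh H a β r t := by
  unfold MO
  rw [tgtW_single]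
  exact XO_bv_apply a β t hβ ha ht r hr

/-- **Recursion for the matrices.** -/
theorem MO_cons (a : Fin 3) (w : List (Fin 3)) (hw : w ≠ []) (β r t : ℕ) (hβ : β < 343)
    (hfit : ∀ i, dg i β + ct (a :: w) i ≤ 6) (ht : t < DH H β)
    (hr : r < DH H (β + tgtW (a :: w))) :
    MO H (a :: w) β r t
      = ∑ s ∈ range (DH H (β + tgtW w)), xh H a (β + tgtW w) r s * MO H w β s t
        - ∑ s ∈ range (DH H (β + sh a)), MO H w (β + sh a) r s * xh H a β s t := by
  have hfit' : ∀ i, dg i β + ct w i + (Pi.single a 1 : Fin 3 → ℕ) i ≤ 6 := by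
    intro i
    have := hfit i
    rw [ct_cons, Pi.add_apply] at this
    omega
  have hda : dg a β + ct w a + 1 ≤ 6 := by
    have := hfit' a
    rwa [Pi.single_eq_same] at this
  -- the blocks
  have hup := dg_up β hβ a (by omega)
  have hdgup : ∀ i, dg i (β + sh a) = dg i β + (Pi.single a 1 : Fin 3 → ℕ) i := by
    intro i
    have := (dg_facts _ hup.1 a hup.2).2 i
    rw [Nat.add_sub_cancel] at this
    rw [this]
    congr 1
    by_cases h : i = a
    · subst h
      rw [if_pos rfl, Pi.single_eq_same]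
    · rw [if_neg h, Pi.single_eq_of_ne h]
  have e1 : β + tgtW w + sh a = β + tgtW (a :: w) := by rw [tgtW_cons]; ring
  have e2 : β + sh a + tgtW w = β + tgtW (a :: w) := by rw [tgtW_cons]; ring
  unfold MO
  rw [rn_cons _ a w hw, LinearMap.sub_apply, Module.End.mul_apply, Module.End.mul_apply,
    Pi.sub_apply, Pi.sub_apply]
  congr 1
  · -- first term
    have hs := suppIn_rn_bv (H := H) w β t hβ ht
    have hlt : β + tgtW w < 343 ∧ ∀ i, dg i (β + tgtW w) = dg i β + ct w i := by
      exact blk_fit w β hβ (fun i => by have := hfit' i; omega)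
    rw [show ((fun i => dg i β) + ct w) = (fun i => dg i (β + tgtW w)) from
      funext fun i => (hlt.2 i).symm] at hs
    rw [hs.map_apply hlt.1]
    refine Finset.sum_congr rfl (fun s hs' => ?_)
    rw [mem_range] at hs'
    congr 1
    rw [← e1]
    refine XO_bv_apply a _ s hlt.1 ?_ hs' r ?_
    · rw [hlt.2 a]
      omega
    · rw [e1]
      exact hr
  · -- second term
    have hs : SuppIn H ((fun i => dg i β) + Pi.single a 1) (XO H a (bv β t)) :=
      (suppIn_bv β t hβ ht).XH a
    rw [show ((fun i => dg i β) + Pi.single a 1) = (fun i => dg i (β + sh a)) from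
      funext fun i => (hdgup i).symm] at hs
    rw [hs.map_apply hup.1]
    refine Finset.sum_congr rfl (fun s hs' => ?_)
    rw [mem_range] at hs'
    rw [← e2]
    congr 1
    exact XO_bv_apply a β t hβ (by omega) ht s hs'

end homog

section big

variable (H : HM)

/-- the content reached from the block `β` -/
def cct (c : Fin 6 → Fin 504) (β : ℕ) : Fin 3 → ℕ := (fun l => dg l β) + ∑ i, lbCt (c i)

/-- **Content form of the big check**: only contents `≤ (6, 6, 6)`, only the coordinates of the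
target block. -/
def BigCheckC : Prop :=
  ∀ c : Fin 6 → Fin 504, Monotone c → ∑ i, lbDeg (c i) ≤ 18 → lbDeg (c 5) ≤ lbDeg (c 4) + 1 →
    ∀ β < 343, 2 * dB β + ∑ i, lbDeg (c i) ≤ 18 →
      (∀ l : Fin 3, cct c β l ≤ 6) → ∀ m < DH H β, ∀ k < DH H (tgt (cct c β)),
        (Sy 6 (fun i => lb (XO H) (c i)) (bv β m)) (tgt (cct c β)) k = 0

set_option maxRecDepth 100000 in
theorem bigCheck_of_default
    (h : ∀ c : Fin 6 → Fin 504, Monotone c → ∑ i, lbDeg (c i) ≤ 18 →
      lbDeg (c 5) ≤ lbDeg (c 4) + 1 → ∀ β < 343, 2 * dB β + ∑ i, lbDeg (c i) ≤ 18 →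
      ∀ m < DH H β, Sy 6 (fun i => lb (XO H) (c i)) (bv β m) = 0) : BigCheck H := h

theorem bigCheck_of_content (h : BigCheckC H) : BigCheck H := by
  refine bigCheck_of_default H (fun c hc h18 h5 β hβ hd m hm => ?_)
  have hs : SuppIn H (cct c β) (Sy 6 (fun i => lb (XO H) (c i)) (bv β m)) :=
    homOp_Sy (H := H) 6 (fun i => lb (XO H) (c i)) (fun i => lbCt (c i))
    (fun i => homOp_lb (c i)) _ _ (suppIn_bv β m hβ hm)
  by_cases h6 : ∀ l : Fin 3, cct c β l ≤ 6
  · exact hs.eq_zero_of_coord (h c hc h18 h5 β hβ hd h6 m hm)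
  · push Not at h6
    exact hs.eq_zero h6

/-- assembly with the content form -/
theorem goal_of_HM' (hd0 : 0 < H.d 0) (hd2 : H.d 2 = 0) (hg : GramSymm H) (hE : DerZero H)
    (hchk : BigCheckC H) (h1 : LongOne H) (h2 : LongTwo H) (hT : TopValue H) : Goal :=
  goal_of_HM H hd0 hd2 hg hE (bigCheck_of_content H hchk) h1 h2 hT

end big

end Pool.Agent.Work.MP_bde882_al.Fin8
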