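import Pool.Agent.Work.MP_bde882_al_red.DerChk

/-!
Kernel checks for the symmetry of the Gram matrices and for the dimensions.
-/

set_option autoImplicit false

namespace Pool.Agent.Work.MP_bde882_al.Fin8

open Pool.Agent.Work.MP_bde882_al
open Pool.Agent.Work.MP_bde882_al.H87

def g_0 : runQ gramQ 0 123 = true := by
  decide +kernel

def g_1 : runQ gramQ 123 48 = true := by
  decide +kernel

def g_2 : gramC 171 = true := by
  decide +kernel

/-- **The Gram matrices are symmetric.** -/
theorem gramSymm_HH : GramSymm HH := by
  refine gramSymm_of (fun β hβ h9 => ?_)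
  by_cases h0 : β < 123
  · exact gramQ_spec β h9 (runQ_spec _ 0 123 g_0 β (by omega) (by omega))
  by_cases h1 : β < 171
  · exact gramQ_spec β h9 (runQ_spec _ 123 48 g_1 β (by omega) (by omega))
  have h2 : β = 171 := by omega
  rw [h2]
  exact g_2

/-- the block of the vacuum has dimension `1` -/
theorem HH_d0 : HH.d 0 = 1 := by
  rw [HH_d]
  decide +kernel

theorem HH_d0_pos : 0 < HH.d 0 := by
  rw [HH_d0]
  exact Nat.one_pos

/-- the block of the square of the last letter is zero -/
theorem HH_d2 : HH.d 2 = 0 := by
  rw [HH_d]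
  decide +kernel

end Pool.Agent.Work.MP_bde882_al.Fin8
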