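import Pool.Agent.Work.MP_bde882_al_red.Letters
import Pool.Agent.Work.MP_bde882_al_red.DerG

/-!
Kernel checks of the tables of the letters on the levels from `9` on.
-/

set_option autoImplicit false

namespace Pool.Agent.Work.MP_bde882_al.Fin8

open Pool.Agent.Work.MP_bde882_al
open Pool.Agent.Work.MP_bde882_al.Pg62 (Tr Op trO find)
open Pool.Agent.Work.MP_bde882_al.H87

def l0_0 : runQ (letQ (trO Tab.T1_0) 49) 0 165 = true := by
  decide +kernel

def l0_1 : runQ (letQ (trO Tab.T1_0) 49) 165 178 = true := by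
  decide +kernel

def l1_0 : runQ (letQ (trO Tab.T1_1) 7) 0 171 = true := by
  decide +kernel

def l1_1 : runQ (letQ (trO Tab.T1_1) 7) 171 172 = true := by
  decide +kernel

def l2_0 : runQ (letQ (trO Tab.T1_2) 1) 0 171 = true := by
  decide +kernel

def l2_1 : runQ (letQ (trO Tab.T1_2) 1) 171 172 = true := by
  decide +kernel

theorem lett0 (β : ℕ) (hβ : β < 343) : letQ (trO Tab.T1_0) 49 β = true := by
  by_cases h : β < 165
  · exact runQ_spec _ 0 165 l0_0 β (by omega) (by omega)
  · exact runQ_spec _ 165 178 l0_1 β (by omega) (by omega)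

theorem lett1 (β : ℕ) (hβ : β < 343) : letQ (trO Tab.T1_1) 7 β = true := by
  by_cases h : β < 171
  · exact runQ_spec _ 0 171 l1_0 β (by omega) (by omega)
  · exact runQ_spec _ 171 172 l1_1 β (by omega) (by omega)

theorem lett2 (β : ℕ) (hβ : β < 343) : letQ (trO Tab.T1_2) 1 β = true := by
  by_cases h : β < 171
  · exact runQ_spec _ 0 171 l2_0 β (by omega) (by omega)
  · exact runQ_spec _ 171 172 l2_1 β (by omega) (by omega)

theorem lettA (a : Fin 3) (β : ℕ) (hβ : β < 343) : letQ (trO (tX a)) (sh a) β = true := by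
  fin_cases a
  · change letQ (trO (tX 0)) (sh 0) β = true
    rw [tX0, sh0]
    exact lett0 β hβ
  · change letQ (trO (tX 1)) (sh 1) β = true
    rw [tX1, sh1]
    exact lett1 β hβ
  · change letQ (trO (tX 2)) (sh 2) β = true
    rw [tX2, sh2]
    exact lett2 β hβ

/-- **The tables of the letters are correct at all levels.** -/
theorem letters_HH (a : Fin 3) : ∀ β < 343, dg a β < 6 → ∀ t < dm β, ∀ r < dm (β + sh a),
    xh HH a β r t = ((TS64.mB (find β (trO (tX a))) r t : ℕ) : ZMod 7) :=
  letQ_mB gramSymm_HH a (fun β hβ => lettA a β hβ)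

end Pool.Agent.Work.MP_bde882_al.Fin8
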