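import Pool.Agent.Work.MP_bde882_al_red.DerChk

/-!
Kernel checks for the derivation with the table `TE01`: commutation relations.
-/

set_option autoImplicit false

namespace Pool.Agent.Work.MP_bde882_al.Fin8

open Pool.Agent.Work.MP_bde882_al
open Pool.Agent.Work.MP_bde882_al.Pg62 (Tr Op trO)
open Pool.Agent.Work.MP_bde882_al.H87

def a01_0 : runQ (c1D Tab.TE01 49 7 (trO Tab.T1_0) false true false) 0 122 = true := by
  decide +kernel

def a01_1 : runQ (c1D Tab.TE01 49 7 (trO Tab.T1_0) false true false) 122 1 = true := by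
  decide +kernel

def a01_2 : runQ (c1D Tab.TE01 49 7 (trO Tab.T1_0) false true false) 123 41 = true := by
  decide +kernel

def a01_3 : runQ (c1D Tab.TE01 49 7 (trO Tab.T1_0) false true false) 164 6 = true := by
  decide +kernel

def a01_4 : runQ (c1D Tab.TE01 49 7 (trO Tab.T1_0) false true false) 170 48 = true := by
  decide +kernel

def a01_5 : runQ (c1D Tab.TE01 49 7 (trO Tab.T1_0) false true false) 218 125 = true := by
  decide +kernel

theorem a01 (β : ℕ) (hβ : β < 343) : (c1D Tab.TE01 49 7 (trO Tab.T1_0) false true false) β = true := by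
  by_cases h0 : β < 122
  · exact runQ_spec _ 0 122 a01_0 β (by omega) (by omega)
  by_cases h1 : β < 123
  · exact runQ_spec _ 122 1 a01_1 β (by omega) (by omega)
  by_cases h2 : β < 164
  · exact runQ_spec _ 123 41 a01_2 β (by omega) (by omega)
  by_cases h3 : β < 170
  · exact runQ_spec _ 164 6 a01_3 β (by omega) (by omega)
  by_cases h4 : β < 218
  · exact runQ_spec _ 170 48 a01_4 β (by omega) (by omega)
  exact runQ_spec _ 218 125 a01_5 β (by omega) (by omega)

end Pool.Agent.Work.MP_bde882_al.Fin8
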