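import Pool.Agent.Work.MP_bde882_al_red.DerChk

/-!
Kernel checks for the derivation with the table `TE12`: invariance of the form.
-/

set_option autoImplicit false

namespace Pool.Agent.Work.MP_bde882_al.Fin8

open Pool.Agent.Work.MP_bde882_al
open Pool.Agent.Work.MP_bde882_al.Pg62 (Tr Op trO)
open Pool.Agent.Work.MP_bde882_al.H87

def b12_0 : runQ (c2C Tab.TE12 7 1) 0 159 = true := by
  decide +kernel

def b12_1 : runQ (c2C Tab.TE12 7 1) 159 6 = true := by
  decide +kernel

def b12_2 : runQ (c2C Tab.TE12 7 1) 165 1 = true := by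
  decide +kernel

def b12_3 : runQ (c2C Tab.TE12 7 1) 166 177 = true := by
  decide +kernel

theorem b12 (β : ℕ) (hβ : β < 343) : (c2C Tab.TE12 7 1) β = true := by
  by_cases h0 : β < 159
  · exact runQ_spec _ 0 159 b12_0 β (by omega) (by omega)
  by_cases h1 : β < 165
  · exact runQ_spec _ 159 6 b12_1 β (by omega) (by omega)
  by_cases h2 : β < 166
  · exact runQ_spec _ 165 1 b12_2 β (by omega) (by omega)
  exact runQ_spec _ 166 177 b12_3 β (by omega) (by omega)

end Pool.Agent.Work.MP_bde882_al.Fin8
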