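import Pool.Agent.Work.MP_bde882_al_red.DerChk

/-!
Kernel checks for the derivation with the table `TE21`: commutation relations.
-/

set_option autoImplicit false

namespace Pool.Agent.Work.MP_bde882_al.Fin8

open Pool.Agent.Work.MP_bde882_al
open Pool.Agent.Work.MP_bde882_al.Pg62 (Tr Op trO)
open Pool.Agent.Work.MP_bde882_al.H87

def a21_0 : runQ (c1D Tab.TE21 1 7 (trO Tab.T1_2) false true false) 0 122 = true := by
  decide +kernel

def a21_1 : runQ (c1D Tab.TE21 1 7 (trO Tab.T1_2) false true false) 122 6 = true := by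
  decide +kernel

def a21_2 : runQ (c1D Tab.TE21 1 7 (trO Tab.T1_2) false true false) 128 36 = true := by
  decide +kernel

def a21_3 : runQ (c1D Tab.TE21 1 7 (trO Tab.T1_2) false true false) 164 6 = true := by
  decide +kernel

def a21_4 : runQ (c1D Tab.TE21 1 7 (trO Tab.T1_2) false true false) 170 1 = true := by
  decide +kernel

def a21_5 : runQ (c1D Tab.TE21 1 7 (trO Tab.T1_2) false true false) 171 172 = true := by
  decide +kernel

theorem a21 (β : ℕ) (hβ : β < 343) : (c1D Tab.TE21 1 7 (trO Tab.T1_2) false true false) β = true := by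
  by_cases h0 : β < 122
  · exact runQ_spec _ 0 122 a21_0 β (by omega) (by omega)
  by_cases h1 : β < 128
  · exact runQ_spec _ 122 6 a21_1 β (by omega) (by omega)
  by_cases h2 : β < 164
  · exact runQ_spec _ 128 36 a21_2 β (by omega) (by omega)
  by_cases h3 : β < 170
  · exact runQ_spec _ 164 6 a21_3 β (by omega) (by omega)
  by_cases h4 : β < 171
  · exact runQ_spec _ 170 1 a21_4 β (by omega) (by omega)
  exact runQ_spec _ 171 172 a21_5 β (by omega) (by omega)

end Pool.Agent.Work.MP_bde882_al.Fin8
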