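import Pool.Agent.Work.MP_bde882_al_red.DerG
import Pool.Agent.Work.MP_bde882_al_red.Der01a
import Pool.Agent.Work.MP_bde882_al_red.Der01b
import Pool.Agent.Work.MP_bde882_al_red.Der12a
import Pool.Agent.Work.MP_bde882_al_red.Der12b
import Pool.Agent.Work.MP_bde882_al_red.Der10a
import Pool.Agent.Work.MP_bde882_al_red.Der10b
import Pool.Agent.Work.MP_bde882_al_red.Der21a
import Pool.Agent.Work.MP_bde882_al_red.Der21b

/-!
The functional of the model is killed by all derivations.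
-/

set_option autoImplicit false

namespace Pool.Agent.Work.MP_bde882_al.Fin8

open Pool.Agent.Work.MP_bde882_al
open Pool.Agent.Work.MP_bde882_al.Pg62 (Tr Op trO)
open Pool.Agent.Work.MP_bde882_al.H87

theorem der01 (hg : GramSymm HH) (hd0 : 0 < HH.d 0) (w : List (Fin 3)) :
    der 0 1 w (fH HH) = 0 := by
  refine der_pair Tab.TE01 0 1 (by decide) hg hd0 ?_ ?_ w
  · intro β hβ h9 k
    refine c1D_spec _ _ _ _ _ β h9 ?_ k
    rw [sh0, sh1, tX0]
    exact a01 β hβ
  · intro β hβ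
    rw [sh0, sh1]
    exact b01 β hβ

theorem der12 (hg : GramSymm HH) (hd0 : 0 < HH.d 0) (w : List (Fin 3)) :
    der 1 2 w (fH HH) = 0 := by
  refine der_pair Tab.TE12 1 2 (by decide) hg hd0 ?_ ?_ w
  · intro β hβ h9 k
    refine c1D_spec _ _ _ _ _ β h9 ?_ k
    rw [sh1, sh2, tX1]
    exact a12 β hβ
  · intro β hβ
    rw [sh1, sh2]
    exact b12 β hβ

theorem der10 (hg : GramSymm HH) (hd0 : 0 < HH.d 0) (w : List (Fin 3)) :
    der 1 0 w (fH HH) = 0 := by
  refine der_pair Tab.TE10 1 0 (by decide) hg hd0 ?_ ?_ w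
  · intro β hβ h9 k
    refine c1D_spec _ _ _ _ _ β h9 ?_ k
    rw [sh1, sh0, tX1]
    exact a10 β hβ
  · intro β hβ
    rw [sh1, sh0]
    exact b10 β hβ

theorem der21 (hg : GramSymm HH) (hd0 : 0 < HH.d 0) (w : List (Fin 3)) :
    der 2 1 w (fH HH) = 0 := by
  refine der_pair Tab.TE21 2 1 (by decide) hg hd0 ?_ ?_ w
  · intro β hβ h9 k
    refine c1D_spec _ _ _ _ _ β h9 ?_ k
    rw [sh2, sh1, tX2]
    exact a21 β hβ
  · intro β hβ
    rw [sh2, sh1]
    exact b21 β hβ

/-- **The functional is killed by all `E_ij`.** -/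
theorem derZero_HH : DerZero HH :=
  derZero_of (der01 gramSymm_HH HH_d0_pos) (der12 gramSymm_HH HH_d0_pos)
    (der10 gramSymm_HH HH_d0_pos) (der21 gramSymm_HH HH_d0_pos)

end Pool.Agent.Work.MP_bde882_al.Fin8
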