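import Pool.Agent.Work.MP_bde882_al_red.Ops

/-!
Module form of the criterion.
-/

set_option autoImplicit false

namespace Pool.Agent.Work.MP_bde882_al.Red

open Finset

section module

theorem splitS_hom {I R R' : Type*} [AddCommMonoid R] [AddCommMonoid R'] (φ : R →+ R')
    (L : List I) (G : List I → List I → R) :
    φ (splitS L G) = splitS L (fun s t => φ (G s t)) := by
  induction L generalizing G with
  | nil => rfl
  | cons a L ih => simp only [splitS, map_add, ih]

theorem arr_hom {I R R' : Type*} [AddCommMonoid R] [AddCommMonoid R'] (φ : R →+ R')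
    (m : ℕ) (t : List I) (Φ : List I → R) :
    φ (arr m t Φ) = arr m t (fun r => φ (Φ r)) := by
  induction m generalizing t Φ with
  | zero =>
    cases t with
    | nil => rfl
    | cons a t => simp [arr]
  | succ m ih =>
    simp only [arr]
    rw [splitS_hom]
    refine splitS_congr' _ _ _ ?_
    intro s t'
    exact ih _ _

theorem csum_hom {I R R' : Type*} [AddCommMonoid R] [AddCommMonoid R'] (φ : R →+ R')
    (p : ℕ) (t : List I) (Φ : List I → R) :
    φ (csum p t Φ) = csum p t (fun r => φ (Φ r)) := by
  unfold csum
  rw [map_sum]
  exact sum_congr rfl (fun m _ => arr_hom φ m t Φ)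

theorem csum_map {I J R : Type*} [AddCommMonoid R] (g : J → I) (p : ℕ) (t : List J)
    (Φ : List I → R) : csum p (t.map g) Φ = csum p t (fun r => Φ (r.map g)) := by
  unfold csum
  exact sum_congr rfl (fun m _ => arr_map g m t Φ)

variable {A W : Type*} [Ring A] [AddCommGroup W] [Module A W] {p : ℕ}

/-- **Module form.** -/
theorem words_of_module (X : Fin 3 → A) (w c : W) (φ : W →+ ZMod p) (S : Finset (Fin 3))
    (hX : ∀ i, X i • c = 0)
    (h : ∀ v : List (Fin 3), cop p w (v.map X)
      = if ∀ i, v.count i = if i ∈ S then p - 1 else 0 then c else 0)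
    (u v : List (Fin 3)) :
    csum p v (fun r => φ (((u ++ r).map X).prod • w))
      = if u = [] ∧ ∀ i, v.count i = if i ∈ S then p - 1 else 0 then φ c else 0 := by
  have h1 : (fun r : List (Fin 3) => φ (((u ++ r).map X).prod • w))
      = fun r => (φ.comp (DistribSMul.toAddMonoidHom W (u.map X).prod)) ((r.map X).prod • w) := by
    funext r
    rw [List.map_append, List.prod_append, mul_smul]
    rfl
  rw [h1, ← csum_hom]
  have h2 : csum p v (fun r => (r.map X).prod • w) = cop p w (v.map X) := by
    unfold cop
    rw [csum_map]
  rw [h2, h v]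
  by_cases hv : ∀ i, v.count i = if i ∈ S then p - 1 else 0
  · rw [if_pos hv]
    cases u with
    | nil =>
      rw [if_pos ⟨rfl, hv⟩]
      simp
    | cons a u =>
      rw [if_neg (by simp)]
      change φ (((a :: u).map X).prod • c) = 0
      have h3 : ∀ u : List (Fin 3), u ≠ [] → (u.map X).prod • c = 0 := by
        intro u
        induction u with
        | nil => intro h; exact absurd rfl h
        | cons b u ih =>
          intro _
          rw [List.map_cons, List.prod_cons, mul_smul]
          by_cases hu : u = []
          · subst hu
            simp [hX]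
          · rw [ih hu, smul_zero]
      rw [h3 _ (by simp), map_zero]
  · rw [if_neg hv, if_neg (fun h => hv h.2), map_zero]

end module

end Pool.Agent.Work.MP_bde882_al.Red
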