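import Pool.Agent.Work.MP_bde882_al_h64.BaseB
import Pool.Agent.Work.MP_bde882_al_h93.RedRev
import Pool.Agent.Work.MP_bde882_al_h69.LieSpan
import Pool.Agent.Work.MP_bde882_al_h87.FullBlock
import Pool.Agent.Work.MP_bde882_al_h87.Sums

/-!
Final assembly: from a half model `H : HM` whose functional satisfies the finitely many checks to the
statement `Goal` (= the frozen statement `S02917`).  All open hypotheses are listed as named
propositions.
-/

set_option autoImplicit false

namespace Pool.Agent.Work.MP_bde882_al.Fin8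

open Finset
open Pool.Agent.Work.MP_bde882_al.Red
open Pool.Agent.Work.MP_bde882_al.H93
open Pool.Agent.Work.MP_bde882_al.H69
open Pool.Agent.Work.MP_bde882_al.H87

local instance : Fact (Nat.Prime 7) := ⟨by norm_num⟩

/-! ### block A, with membership in `IF G` -/

section blockA

variable {p : ℕ} [Fact p.Prime]

/-- `hpow_of_check` with the stronger conclusion `z ^ 6 ∈ IF G`. -/
theorem hpow_mem_of_check (hp7 : 7 ≤ p) (G : Fn p) (hrev : ∀ v, G v.reverse = G v)
    (hlen : ∀ v, v.length ≠ 18 → G v = 0) (hE : ∀ i j, i ≠ j → Eop p i j G = 0)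
    {ι : Type*} [LinearOrder ι] (b : ι → Module.End (ZMod p) (Fn p)) (deg : ι → ℕ)
    (hdeg : Monotone deg) (hb : ∀ i, b i ∈ LieD (ZMod p) (Xop p) (deg i))
    (hspan : ∀ d, 1 ≤ d → d ≤ 7 →
      KD (ZMod p) (Xop p) d ≤ Submodule.span (ZMod p) (b '' {i | deg i = d}))
    (hchk : ∀ c : Fin 6 → ι, Monotone c → (∀ i, 1 ≤ deg (c i)) → ∑ i, deg (c i) ≤ 18 →
      deg (c 5) ≤ deg (c 4) + 1 →
      ∀ v : List (Fin 3), 2 * v.length + ∑ i, deg (c i) ≤ 18 → ∀ u : List (Fin 3),
        u.length + ∑ i, deg (c i) + v.length = 18 →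
        (Sy 6 (fun i => b (c i)) ((v.map (Xop p)).prod G)) u = 0) :
    ∀ z ∈ lieSum (LieD (ZMod p) (Xop p)), z ^ 6 ∈ IF G := by
  intro z hz
  have hn : ∀ m : ℕ, 1 ≤ m → m ≤ 6 → (m : ZMod p) ≠ 0 := by
    intro m h1 h2 h3
    rw [ZMod.natCast_eq_zero_iff] at h3
    have := Nat.le_of_dvd (by omega) h3
    omega
  have hfac : ((Nat.factorial 6 : ℕ) : ZMod p) ≠ 0 := by
    rw [Ne, ZMod.natCast_eq_zero_iff, (Fact.out : p.Prime).dvd_factorial]
    omega
  refine pow_mem_of_Sy (Xop p) (IF G) 6 hfac ?_ z hz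
  refine red_main (Xop p) (fun i j => Dop p i j) (fun i j _ a b => Dop_mul i j a b)
    (fun i j _ k => Dop_X i j k) (IF G) (fun k r hr => IF_ad k hr)
    (fun i j hij r hr => IF_D i j (hE i j hij) hr) 6 (by norm_num) hn 18 ?_ ?_
  · intro d h1 hN hb' l hl
    refine base_of_sorted (Xop p) (IF G) b deg hdeg hspan ?_ d h1 hN hb' l hl
    intro c hc hc1 hc2 hc3
    have h2 : ∀ i, ∃ a ∈ LieD (ZMod p) (FreeAlgebra.ι (ZMod p) : Fin 3 → _) (deg (c i)),
        ev p a = b (c i) :=
      fun i => LieD_map (ev p) _ (Xop p) (fun k => ev_ι k) (deg (c i)) _ (hb (c i))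
    choose a ha hab using h2
    have h3 : ev p (Sy 6 a) = Sy 6 (fun i => b (c i)) := by
      rw [Sy_map]
      congr 1
      funext i
      exact hab i
    rw [← h3]
    refine mem_IF_of_half G 18 hrev hlen (∑ i, deg (c i)) (Sy 6 a)
      (Sy_homog 6 _ a (fun i => LieD_homog _ (ha i))) (∏ i, (-1 : ZMod p) ^ (deg (c i) + 1)) ?_ ?_
    · rw [Sy_star, ← Sy_smul]
      congr 1
      funext i
      exact star_LieD _ _ (ha i)
    · rw [h3]
      exact hchk c hc hc1 hc2 hc3
  · intro d h1 hN l hl
    have h2 : ∀ i, ∃ a ∈ LieD (ZMod p) (FreeAlgebra.ι (ZMod p) : Fin 3 → _) (d i),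
        ev p a = l i :=
      fun i => LieD_map (ev p) _ (Xop p) (fun k => ev_ι k) (d i) _ (hl i)
    choose a ha hab using h2
    have h3 : ev p (Sy 6 a) = Sy 6 l := by
      rw [Sy_map]
      congr 1
      funext i
      exact hab i
    rw [← h3, mem_IF_iff]
    intro u b'
    exact ev_apply_eq_zero G 18 hlen (∑ i, d i) _ (Sy_homog 6 _ a (fun i => LieD_homog _ (ha i)))
      u b' (by omega)

end blockA

/-! ### the basis elements are homogeneous Lie elements -/

section basis

variable {R : Type*} [Ring R] {F : Type*} [Field F] [Algebra F R]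

theorem rn_mem (X : Fin 3 → R) (w : List (Fin 3)) (hw : w ≠ []) :
    rn X w ∈ LieD F X w.length := by
  induction w with
  | nil => exact absurd rfl hw
  | cons a w ih =>
    by_cases h : w = []
    · subst h
      change X a ∈ LieD F X 1
      rw [LieD_one]
      exact Submodule.subset_span ⟨a, rfl⟩
    · rw [rn_cons X a w h, List.length_cons, LieD_succ X w.length
        (List.length_pos_iff.2 h)]
      exact Submodule.subset_span ⟨a, rn X w, ih h, rfl⟩

theorem dec_length (d n : ℕ) : (dec d n).length = d := by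
  induction d generalizing n with
  | zero => rfl
  | succ d ih =>
    unfold dec
    rw [List.length_cons, ih]

theorem lb_pos : ∀ i : Fin 504, 1 ≤ lbDeg i := by
  intro i
  have h : LB.all (fun x => Nat.ble 1 x.1) = true := by decide +kernel
  rw [List.all_eq_true] at h
  have hi : i.val < LB.length := by rw [LB_length]; exact i.isLt
  have := h (LB[i.val]) (List.getElem_mem hi)
  unfold lbDeg
  rw [LB_getD _ hi]
  exact Nat.le_of_ble_eq_true this

theorem lb_mem_LieD (X : Fin 3 → R) (i : Fin 504) : lb X i ∈ LieD F X (lbDeg i) := by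
  have hlen : (lbWord i).length = lbDeg i := dec_length _ _
  have hne : lbWord i ≠ [] := by
    intro h
    have := lb_pos i
    rw [← hlen, h] at this
    simp at this
  have := rn_mem (F := F) X (lbWord i) hne
  rwa [hlen] at this

end basis

/-! ### intertwining of polynomials in the letters -/

section inter

variable (H : HM)

/-- the letters of the full model as elements of the ring of endomorphisms -/
def XE (i : Fin 3) : Module.End (ZMod 7) HV := XH H i

theorem inter_rn (w : List (Fin 3)) : Inter H (rn (XE H) w) (rn (Xop 7) w) := by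
  induction w with
  | nil => exact Inter_zero H
  | cons a w ih =>
    by_cases h : w = []
    · subst h
      exact Inter_X H a
    · rw [rn_cons _ a w h, rn_cons _ a w h]
      exact Inter_sub H (Inter_mul H (Inter_X H a) ih) (Inter_mul H ih (Inter_X H a))

theorem inter_lb (i : Fin 504) : Inter H (lb (XE H) i) (lb (Xop 7) i) := inter_rn H _

theorem inter_sum {ι : Type*} (s : Finset ι) (a : ι → HV →ₗ[ZMod 7] HV)
    (r : ι → Module.End (ZMod 7) (Fn 7)) (h : ∀ i, Inter H (a i) (r i)) :
    Inter H (∑ i ∈ s, a i) (∑ i ∈ s, r i) := by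
  classical
  induction s using Finset.induction_on with
  | empty =>
    rw [sum_empty, sum_empty]
    exact Inter_zero H
  | insert i s hi ih =>
    rw [sum_insert hi, sum_insert hi]
    exact Inter_add H (h i) ih

theorem inter_Sy (n : ℕ) (a : Fin n → Module.End (ZMod 7) HV)
    (r : Fin n → Module.End (ZMod 7) (Fn 7)) (h : ∀ i, Inter H (a i) (r i)) :
    Inter H (Sy n a) (Sy n r) := by
  induction n with
  | zero => exact Inter_one H
  | succ n ih =>
    unfold Sy
    exact inter_sum H _ _ _ (fun i => Inter_mul H (h i) (ih _ _ (fun j => h _)))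

end inter


/-! ### the open hypotheses -/

section final

variable (H : HM)

/-- the Gram matrices are symmetric -/
def GramSymm : Prop :=
  ∀ β < 343, dB β = 9 → ∀ k < H.d (342 - β), ∀ m < H.d β, H.g β k m = H.g (342 - β) m k

/-- the functional is killed by the derivations `E_ij` -/
def DerZero : Prop := ∀ i j : Fin 3, i ≠ j → ∀ w : List (Fin 3), der i j w (fH H) = 0

/-- the big check, on basis vectors of the low blocks of the full model -/
def BigCheck : Prop :=
  ∀ c : Fin 6 → Fin 504, Monotone c → ∑ i, lbDeg (c i) ≤ 18 → lbDeg (c 5) ≤ lbDeg (c 4) + 1 →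
    ∀ β < 343, 2 * dB β + ∑ i, lbDeg (c i) ≤ 18 → ∀ m < DH H β,
      Sy 6 (fun i => lb (XE H) (c i)) (bv β m) = 0

/-- the 30 long lists of the first kind -/
def LongOne : Prop :=
  ∀ as ∈ partsLe (7 - 1) 1 (7 - 1), ∀ i j, i ≤ 1 → j ≤ 1 → i + j + as.sum = 7 - 1 →
    (cop 7 (((List.replicate j (2 : Fin 3)).map (Xop 7)).prod (fH H)) (zs1 7 as))
      (List.replicate i 2) = 0

/-- the long lists of letters -/
def LongTwo : Prop :=
  ∀ s, 1 ≤ s → s < 7 - 1 → ∀ i j, i ≤ 1 → j ≤ 1 → i + j + s = 7 - 1 →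
    (cop 7 (((List.replicate j (2 : Fin 3)).map (Xop 7)).prod (fH H)) (zs2 7 s))
      (List.replicate i 2) = 0

/-- the value on the longest list -/
def TopValue : Prop := cop 7 (fH H) ((top3 7).map (Xop 7)) [] ≠ 0

/-! ### vectors of words in the full model -/

/-- the vector of a word lives in the block of its content -/
theorem vecH_support (hd0 : 0 < H.d 0) (w : List (Fin 3)) (β : ℕ) (k : ℕ)
    (h : vec (XH H) v0 w β k ≠ 0) :
    β < 343 ∧ (∀ i, dg i β = w.count i) ∧ β = code w ∧ k < DH H β := by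
  induction w generalizing β k with
  | nil =>
    have h1 : β = 0 ∧ k = 0 := by
      by_contra hne
      apply h
      change (if β = 0 ∧ k = 0 then (1 : ZMod 7) else 0) = 0
      rw [if_neg hne]
    rw [h1.1, h1.2]
    refine ⟨by norm_num, fun i => by rw [dg_zero]; rfl, rfl, ?_⟩
    unfold DH
    rw [if_pos (by decide)]
    exact hd0
  | cons i w ih =>
    have h1 : XH H i (vec (XH H) v0 w) β k ≠ 0 := h
    rw [XH_apply] at h1
    by_cases hc : β < 343 ∧ 0 < dg i β ∧ k < DH H β
    · rw [if_pos hc] at h1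
      obtain ⟨m, -, hm⟩ := exists_ne_zero_of_sum_ne_zero h1
      have h2 : vec (XH H) v0 w (β - sh i) m ≠ 0 := right_ne_zero_of_mul hm
      obtain ⟨-, h4, h5, -⟩ := ih _ _ h2
      obtain ⟨hb, hd, hk⟩ := hc
      obtain ⟨hle, hdg⟩ := dg_facts β hb i hd
      have hcount : ∀ l, dg l β = (i :: w).count l := by
        intro l
        rw [hdg l, h4 l, List.count_cons]
        congr 1
        by_cases hl : l = i
        · subst hl; simp
        · rw [if_neg hl, if_neg (by simpa using fun h => hl h.symm)]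
      refine ⟨hb, hcount, ?_, hk⟩
      change β = code w + sh i
      rw [← h5]
      omega
    · exact absurd (if_neg hc) h1

theorem vecH_eq_sum (hd0 : 0 < H.d 0) (w : List (Fin 3)) :
    vec (XH H) v0 w = ∑ m ∈ range (DH H (code w)),
      vec (XH H) v0 w (code w) m • bv (code w) m := by
  refine eq_sum_bv _ _ _ (fun τ k h => ?_)
  obtain ⟨-, -, h3, h4⟩ := vecH_support H hd0 w τ k h
  refine ⟨h3, ?_⟩
  rw [← h3]
  exact h4

/-- from basis vectors to words -/
theorem words_of_BigCheck (hd0 : 0 < H.d 0) (hchk : BigCheck H) (c : Fin 6 → Fin 504)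
    (hc : Monotone c) (h18 : ∑ i, lbDeg (c i) ≤ 18) (h5 : lbDeg (c 5) ≤ lbDeg (c 4) + 1)
    (v : List (Fin 3)) (hv : 2 * v.length + ∑ i, lbDeg (c i) ≤ 18) :
    Sy 6 (fun i => lb (XE H) (c i)) (vec (XH H) v0 v) = 0 := by
  by_cases hz : vec (XH H) v0 v = 0
  · rw [hz, map_zero]
  · have : ∃ τ k, vec (XH H) v0 v τ k ≠ 0 := by
      by_contra hne
      push Not at hne
      exact hz (funext fun τ => funext fun k => hne τ k)
    obtain ⟨τ, k, h⟩ := this
    obtain ⟨h1, h2, h3, -⟩ := vecH_support H hd0 v τ k h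
    rw [vecH_eq_sum H hd0 v, map_sum]
    refine sum_eq_zero (fun m hm => ?_)
    rw [map_smul, hchk c hc h18 h5 (code v) (h3 ▸ h1) ?_ m (mem_range.1 hm), smul_zero]
    rw [← h3, ← length_eq_dg v τ h2]
    exact hv

theorem fH_length (v : List (Fin 3)) (hv : v.length ≠ 18) : fH H v = 0 :=
  hf_eq_zero _ _ _ 9 (by omega)

theorem dsum_eq_der (i j : Fin 3) (w : List (Fin 3)) (g : List (Fin 3) → ZMod 7) :
    dsum i j w g = der i j w g := by
  induction w generalizing g with
  | nil => rfl
  | cons a w ih =>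
    unfold dsum der
    rw [ih]

theorem fH_22r (hd0 : 0 < H.d 0) (hd2 : H.d 2 = 0) (w : List (Fin 3)) :
    fH H (w ++ [2, 2]) = 0 := by
  rw [← Phi_v0 H hd0, Phi_apply, vec_append]
  have h1 : vec (XH H) v0 [2, 2] = 0 := by
    funext τ k
    by_contra hne
    obtain ⟨h1, h2, h3, h4⟩ := vecH_support H hd0 [2, 2] τ k hne
    have h5 : code [2, 2] = 2 := by decide
    rw [h3, h5] at h4
    unfold DH at h4
    rw [if_pos (by decide), hd2] at h4
    omega
  rw [h1]
  have h2 : ∀ w : List (Fin 3), vec (XH H) (0 : HV) w = 0 := by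
    intro w
    induction w with
    | nil => rfl
    | cons a w ih =>
      unfold vec
      rw [ih, map_zero]
  rw [h2]
  rfl

/-- **Final assembly.** -/
theorem goal_of_HM (hd0 : 0 < H.d 0) (hd2 : H.d 2 = 0) (hg : GramSymm H) (hE : DerZero H)
    (hchk : BigCheck H) (h1 : LongOne H) (h2 : LongTwo H) (hT : TopValue H) : Goal := by
  have hrev : ∀ v, fH H v.reverse = fH H v := fun v => fH_reverse H hg v
  have hE' : ∀ i j, i ≠ j → Eop 7 i j (fH H) = 0 := by
    intro i j hij
    funext w
    rw [Eop_apply, dsum_eq_der]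
    exact hE i j hij w
  have h7 : (7 : Module.End (ZMod 7) (Fn 7)) = 0 := by
    have : (7 : ZMod 7) = 0 := by decide
    apply LinearMap.ext
    intro g
    funext u
    have e : (7 : Module.End (ZMod 7) (Fn 7)) = (7 : ZMod 7) • (1 : Module.End (ZMod 7) (Fn 7)) := by
      rw [← Algebra.algebraMap_eq_smul_one, map_ofNat]
    rw [e, this, zero_smul]
  refine goal_of_scalars (p := 7) (fH H) ?_ hE' ?_ ?_ (fH_22r H hd0 hd2) h1 h2 hT
  · intro v hv
    refine fH_content H v ?_
    push Not at hv
    exact hv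
  · intro z hz
    refine hpow_mem_of_check (p := 7) le_rfl (fH H) hrev (fun v hv => fH_length H v hv) hE'
      (lb (Xop 7)) lbDeg lbDeg_mono (fun i => lb_mem_LieD (Xop 7) i)
      (fun d hd1 hd2 => KD_le (Xop 7) h7 d hd1 hd2) ?_ z hz
    intro c hc _ h18 h5 v hv u _
    have h3 := words_of_BigCheck H hd0 hchk c hc h18 h5 v hv
    have h4 := inter_Sy H 6 _ _ (fun i => inter_lb H (c i)) (vec (XH H) v0 v)
    rw [Phi_vec, Phi_v0 H hd0] at h4
    rw [← h4, h3, map_zero]
    rfl
  · intro w
    have h5 := hrev (2 :: 2 :: w)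
    rw [← h5]
    have h6 : (2 :: 2 :: w).reverse = w.reverse ++ [2, 2] := by simp
    rw [h6]
    exact fH_22r H hd0 hd2 _

end final

end Pool.Agent.Work.MP_bde882_al.Fin8
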