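import Pool.Agent.Work.MP_bde882_al_red.Ops

/-!
The multilinear parts of `(g - 1) ^ q` of low length: a Baker-Campbell-Hausdorff argument.
-/


set_option autoImplicit false

namespace Pool.Agent.Work.MP_bde882_al.Red

open Finset

universe u

section combi

/-- the binomial identity behind the differential of the exponential -/
theorem alt_choose (N j : ℕ) (hj : j ≤ N) :
    ∑ m ∈ range (N + 1), (-1 : ℤ) ^ (m + j) * (m.choose j) * ((N + 1).choose (m + 1)) = 1 := by
  induction N with
  | zero =>
    have : j = 0 := by omega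
    subst this
    simp
  | succ N ih =>
    have h1 : ∀ m, (((N + 1 + 1).choose (m + 1) : ℕ) : ℤ)
        = ((N + 1).choose m : ℕ) + ((N + 1).choose (m + 1) : ℕ) := by
      intro m
      rw [Nat.choose_succ_succ]
      push_cast
      ring
    have h2 : ∑ m ∈ range (N + 1 + 1), (-1 : ℤ) ^ (m + j) * (m.choose j) * ((N + 1).choose m)
        = if N + 1 = j then 1 else 0 := by
      have h3 : ∀ m ∈ range (N + 1 + 1), (-1 : ℤ) ^ (m + j) * (m.choose j) * ((N + 1).choose m)
          = ((N + 1).choose j : ℤ) * ((-1 : ℤ) ^ (m + j) * ((N + 1 - j).choose (m - j))) * (if j ≤ m then 1 else 0) := by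
        intro m hm
        rw [mem_range] at hm
        split_ifs with h
        · have := Nat.choose_mul (n := N + 1) (k := m) (s := j) h
          have h4 : (((N + 1).choose m : ℕ) : ℤ) * (m.choose j : ℕ)
              = ((N + 1).choose j : ℕ) * ((N + 1 - j).choose (m - j) : ℕ) := by
            exact_mod_cast this
          linear_combination (-1 : ℤ) ^ (m + j) * h4
        · rw [Nat.choose_eq_zero_of_lt (by omega : m < j)]
          simp
      rw [sum_congr rfl h3]
      have h5 : ∑ m ∈ range (N + 1 + 1), ((N + 1).choose j : ℤ) * ((-1 : ℤ) ^ (m + j) * ((N + 1 - j).choose (m - j))) * (if j ≤ m then 1 else 0)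
          = ((N + 1).choose j : ℤ) * ∑ i ∈ range (N + 1 - j + 1), (-1 : ℤ) ^ i * ((N + 1 - j).choose i) := by
        rw [mul_sum]
        symm
        refine sum_bij_ne_zero (fun i _ _ => i + j) ?_ ?_ ?_ ?_
        · intro i hi _
          rw [mem_range] at hi ⊢
          omega
        · intro i _ _ i' _ _ h
          simpa using h
        · intro m hm hne
          rw [mem_range] at hm
          by_cases h : j ≤ m
          · refine ⟨m - j, by rw [mem_range]; omega, ?_, by omega⟩
            rw [if_pos h, mul_one] at hne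
            intro h0
            apply hne
            have h6 : (-1 : ℤ) ^ (m + j) = (-1 : ℤ) ^ (m - j) := by
              have : m + j = (m - j) + 2 * j := by omega
              rw [this, pow_add, pow_mul]
              simp
            rw [h6, h0]
          · rw [if_neg h, mul_zero] at hne
            exact absurd rfl hne
        · intro i _ _
          have h6 : (-1 : ℤ) ^ (i + j + j) = (-1 : ℤ) ^ i := by
            have : i + j + j = i + 2 * j := by omega
            rw [this, pow_add, pow_mul]
            simp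
          rw [h6, if_pos (by omega), Nat.add_sub_cancel]
          ring
      rw [h5, Int.alternating_sum_range_choose]
      by_cases h : N + 1 = j
      · subst h
        simp
      · rw [if_neg (by omega), if_neg h, mul_zero]
    by_cases h : N + 1 = j
    · subst h
      have h7 : ∀ m ∈ range (N + 1 + 1), (-1 : ℤ) ^ (m + (N + 1)) * (m.choose (N + 1)) * ((N + 1 + 1).choose (m + 1))
          = (-1 : ℤ) ^ (m + (N + 1)) * (m.choose (N + 1)) * ((N + 1).choose m) := by
        intro m hm
        rw [mem_range] at hm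
        by_cases hmN : m = N + 1
        · subst hmN
          simp
        · rw [Nat.choose_eq_zero_of_lt (by omega : m < N + 1)]
          simp
      rw [sum_congr rfl h7, h2, if_pos rfl]
    · have h8 : ∑ m ∈ range (N + 1 + 1), (-1 : ℤ) ^ (m + j) * (m.choose j) * ((N + 1 + 1).choose (m + 1))
          = ∑ m ∈ range (N + 1 + 1), (-1 : ℤ) ^ (m + j) * (m.choose j) * ((N + 1).choose m)
            + ∑ m ∈ range (N + 1), (-1 : ℤ) ^ (m + j) * (m.choose j) * ((N + 1).choose (m + 1)) := by
        have h9 : ∑ m ∈ range (N + 1 + 1), (-1 : ℤ) ^ (m + j) * (m.choose j) * ((N + 1).choose (m + 1))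
            = ∑ m ∈ range (N + 1), (-1 : ℤ) ^ (m + j) * (m.choose j) * ((N + 1).choose (m + 1)) := by
          rw [sum_range_succ, Nat.choose_eq_zero_of_lt (by omega : N + 1 < N + 1 + 1)]
          simp
        rw [← h9, ← sum_add_distrib]
        refine sum_congr rfl ?_
        intro m _
        rw [h1]
        ring
      rw [h8, h2, if_neg h, ih (by omega), zero_add]

end combi


section ad

variable {B : Type u} [Ring B]

/-- iterated commutator with `Z` -/
def adp (Z : B) : ℕ → B → B
  | 0, Y => Y
  | m + 1, Y => Z * adp Z m Y - adp Z m Y * Z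

theorem adp_eq (Z Y : B) (m : ℕ) :
    adp Z m Y = ∑ j ∈ range (m + 1), ((-1 : ℤ) ^ j * (m.choose j)) • (Z ^ (m - j) * Y * Z ^ j) := by
  have h1 : ∀ m, adp Z m Y = ((LinearMap.mulLeft ℤ Z + -LinearMap.mulRight ℤ Z) ^ m : Module.End ℤ B) Y := by
    intro m
    induction m with
    | zero => rfl
    | succ m ih =>
      rw [pow_succ', Module.End.mul_apply, ← ih]
      change Z * adp Z m Y - adp Z m Y * Z = _
      rw [LinearMap.add_apply, LinearMap.neg_apply, LinearMap.mulLeft_apply,
        LinearMap.mulRight_apply, sub_eq_add_neg]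
  have hc : Commute (LinearMap.mulLeft ℤ Z) (-LinearMap.mulRight ℤ Z) :=
    (LinearMap.commute_mulLeft_right Z Z).neg_right
  rw [h1, add_comm (LinearMap.mulLeft ℤ Z) _, hc.symm.add_pow, LinearMap.sum_apply]
  refine sum_congr rfl ?_
  intro j _
  have h2 : ((-LinearMap.mulRight ℤ Z) ^ j : Module.End ℤ B) = (-1 : ℤ) ^ j • LinearMap.mulRight ℤ (Z ^ j) := by
    rw [neg_pow, LinearMap.pow_mulRight]
    ext x
    simp
  have h3 : ((LinearMap.mulLeft ℤ Z) ^ (m - j) : Module.End ℤ B) = LinearMap.mulLeft ℤ (Z ^ (m - j)) :=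
    LinearMap.pow_mulLeft _ _ _ _
  rw [h2, h3]
  have h4 : ((m.choose j : Module.End ℤ B)) = ((m.choose j : ℤ) • (1 : Module.End ℤ B)) := by
    ext x
    simp
  rw [h4]
  simp only [Module.End.mul_apply, LinearMap.smul_apply, Module.End.one_apply,
    LinearMap.mulRight_apply, LinearMap.mulLeft_apply, mul_smul, map_smul]
  rw [mul_assoc, smul_comm]

end ad


section trunc

variable {p : ℕ} {B : Type u} [Ring B] [Algebra (ZMod p) B]

/-- inverse factorial -/
def fi (p k : ℕ) : ZMod p := ((k.factorial : ℕ) : ZMod p)⁻¹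

/-- truncated exponential -/
def EE (p : ℕ) {B : Type u} [Ring B] [Algebra (ZMod p) B] (Z : B) : B :=
  ∑ k ∈ range p, fi p k • Z ^ k

/-- differential of the `k`-th power -/
def dP (k : ℕ) (Z Y : B) : B := ∑ i ∈ range k, Z ^ (k - 1 - i) * Y * Z ^ i

theorem fi_ne [Fact p.Prime] {k : ℕ} (hk : k < p) : ((k.factorial : ℕ) : ZMod p) ≠ 0 := by
  intro h
  rw [ZMod.natCast_eq_zero_iff] at h
  have := (Fact.out : p.Prime).dvd_factorial.1 h
  omega

theorem fi_mul [Fact p.Prime] {N m : ℕ} (hN : N + 1 < p) (hm : m ≤ N) :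
    fi p (N - m) * fi p (m + 1) = fi p (N + 1) * ((N + 1).choose (m + 1) : ℕ) := by
  have h1 := fi_ne (p := p) (k := N + 1) hN
  have h2 := fi_ne (p := p) (k := N - m) (by omega)
  have h3 := fi_ne (p := p) (k := m + 1) (by omega)
  have h4 := Nat.choose_mul_factorial_mul_factorial (n := N + 1) (k := m + 1) (by omega)
  have h5 : N + 1 - (m + 1) = N - m := by omega
  rw [h5] at h4
  have h6 : (((N + 1).choose (m + 1) : ℕ) : ZMod p) * ((m + 1).factorial : ℕ) * ((N - m).factorial : ℕ)
      = ((N + 1).factorial : ℕ) := by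
    exact_mod_cast congrArg (Nat.cast : ℕ → ZMod p) h4
  unfold fi
  field_simp
  linear_combination -h6

theorem dP_formula [Fact p.Prime] (Z Y : B) {N : ℕ} (hN : N + 1 < p) :
    fi p (N + 1) • dP (N + 1) Z Y
      = ∑ m ∈ range (N + 1), (fi p (N - m) * fi p (m + 1) * (-1) ^ m) • (Z ^ (N - m) * adp Z m Y) := by
  have h1 : ∀ m ∈ range (N + 1),
      (fi p (N - m) * fi p (m + 1) * (-1) ^ m) • (Z ^ (N - m) * adp Z m Y)
      = ∑ j ∈ range (N + 1), (fi p (N + 1) * ((((-1 : ℤ) ^ (m + j) * (m.choose j) * ((N + 1).choose (m + 1)) : ℤ)) : ZMod p))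
          • (Z ^ (N - j) * Y * Z ^ j) := by
    intro m hm
    rw [mem_range] at hm
    rw [adp_eq, mul_sum, smul_sum]
    rw [← sum_subset (range_subset_range.2 (by omega : m + 1 ≤ N + 1))]
    · refine sum_congr rfl ?_
      intro j hj
      rw [mem_range] at hj
      rw [fi_mul hN (by omega)]
      have h2 : Z ^ (N - j) = Z ^ (N - m) * Z ^ (m - j) := by
        rw [← pow_add]
        congr 1
        omega
      rw [h2, mul_smul_comm, ← Int.cast_smul_eq_zsmul (ZMod p), smul_smul]
      congr 1
      · push_cast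
        ring
      · simp only [mul_assoc]
    · intro j _ hj
      rw [mem_range, not_lt] at hj
      rw [Nat.choose_eq_zero_of_lt (by omega : m < j)]
      simp
  rw [sum_congr rfl h1, sum_comm]
  unfold dP
  rw [smul_sum]
  refine sum_congr rfl ?_
  intro j hj
  rw [mem_range] at hj
  rw [← sum_smul, ← mul_sum, ← Int.cast_sum, alt_choose N j (by omega)]
  simp

end trunc


section filt

/-- A filtered algebra with a filtered Lie subring and a left ideal. -/
structure FD (p q : ℕ) (B : Type u) [Ring B] [Algebra (ZMod p) B] where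
  F : ℕ → Submodule (ZMod p) B
  L : ℕ → Submodule (ZMod p) B
  N : Submodule (ZMod p) B
  F_zero : ∀ x, x ∈ F 0
  F_anti : ∀ {i j : ℕ}, i ≤ j → F j ≤ F i
  F_mul : ∀ {i j : ℕ} {x y : B}, x ∈ F i → y ∈ F j → x * y ∈ F (i + j)
  L_le : ∀ i, L i ≤ F i
  L_anti : ∀ {i j : ℕ}, i ≤ j → L j ≤ L i
  L_br : ∀ {i j : ℕ} {x y : B}, x ∈ L i → y ∈ L j → x * y - y * x ∈ L (i + j)
  N_mul : ∀ (b : B) {x : B}, x ∈ N → b * x ∈ N
  N_pow : ∀ {z : B}, z ∈ L 0 → z ^ q ∈ N

variable {p q : ℕ} {B : Type u} [Ring B] [Algebra (ZMod p) B]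

theorem FD.F_pow (D : FD p q B) {Z : B} (hZ : Z ∈ D.F 1) (n : ℕ) : Z ^ n ∈ D.F n := by
  induction n with
  | zero => exact D.F_zero _
  | succ n ih =>
    rw [pow_succ]
    exact D.F_mul ih hZ

theorem FD.adp_mem (D : FD p q B) {Z Y : B} {i : ℕ} (hZ : Z ∈ D.L 1) (hY : Y ∈ D.L i) (m : ℕ) :
    adp Z m Y ∈ D.L (i + m) := by
  induction m with
  | zero => exact hY
  | succ m ih =>
    have := D.L_br hZ ih
    rw [show 1 + (i + m) = i + (m + 1) by omega] at this
    exact this

/-- the operator `(1 - exp (-ad Z)) / ad Z`, truncated -/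
def Psi (p : ℕ) {B : Type u} [Ring B] [Algebra (ZMod p) B] (Z Y : B) : B :=
  ∑ m ∈ range (p - 1), (fi p (m + 1) * (-1) ^ m) • adp Z m Y

theorem FD.diff_mem [Fact p.Prime] (D : FD p q B) {Z Y : B} (hZ : Z ∈ D.L 1) (hY : Y ∈ D.L 0) :
    ∑ k ∈ range p, fi p k • dP k Z Y - EE p Z * Psi p Z Y ∈ D.F (p - 1) := by
  have hp := (Fact.out : p.Prime).two_le
  set G : ℕ → ℕ → B := fun m a => (fi p a * fi p (m + 1) * (-1) ^ m) • (Z ^ a * adp Z m Y) with hG
  have h1 : ∑ k ∈ range p, fi p k • dP k Z Y
      = ∑ N ∈ range (p - 1), ∑ m ∈ range (N + 1), G m (N - m) := by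
    have h2 : ∑ k ∈ range p, fi p k • dP k Z Y = ∑ N ∈ range (p - 1), fi p (N + 1) • dP (N + 1) Z Y := by
      have hr : range p = range ((p - 1) + 1) := by
        congr 1
        omega
      rw [hr, sum_range_succ']
      simp [dP]
    rw [h2]
    refine sum_congr rfl ?_
    intro N hN
    rw [mem_range] at hN
    rw [dP_formula Z Y (by omega)]
  have h3 : ∑ N ∈ range (p - 1), ∑ m ∈ range (N + 1), G m (N - m)
      = ∑ m ∈ range (p - 1), ∑ a ∈ range (p - 1 - m), G m a := by
    rw [sum_sigma', sum_sigma']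
    refine sum_bij' (fun x _ => ⟨x.2, x.1 - x.2⟩) (fun x _ => ⟨x.1 + x.2, x.1⟩) ?_ ?_ ?_ ?_ ?_
    · rintro ⟨N, m⟩ h
      simp only [mem_sigma, mem_range] at h ⊢
      omega
    · rintro ⟨m, a⟩ h
      simp only [mem_sigma, mem_range] at h ⊢
      omega
    · rintro ⟨N, m⟩ h
      simp only [mem_sigma, mem_range] at h
      simp only [Sigma.mk.injEq, heq_eq_eq, and_true]
      omega
    · rintro ⟨m, a⟩ h
      simp only [mem_sigma, mem_range] at h
      simp only [Sigma.mk.injEq, heq_eq_eq, true_and]
      omega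
    · rintro ⟨N, m⟩ _
      rfl
  have h4 : EE p Z * Psi p Z Y = ∑ m ∈ range (p - 1), ∑ a ∈ range p, G m a := by
    unfold EE Psi
    rw [mul_sum]
    refine sum_congr rfl ?_
    intro m _
    rw [sum_mul]
    refine sum_congr rfl ?_
    intro a _
    rw [hG]
    simp only [smul_mul_smul_comm]
    congr 1
    ring
  rw [h1, h3, h4, ← sum_sub_distrib]
  refine Submodule.sum_mem _ ?_
  intro m hm
  rw [mem_range] at hm
  have h5 : ∑ a ∈ range p, G m a = ∑ a ∈ range (p - 1 - m), G m a
      + ∑ a ∈ Finset.Ico (p - 1 - m) p, G m a := by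
    rw [Finset.sum_range_add_sum_Ico _ (by omega)]
  rw [h5, sub_add_cancel_left]
  refine Submodule.neg_mem _ (Submodule.sum_mem _ ?_)
  intro a ha
  rw [Finset.mem_Ico] at ha
  refine Submodule.smul_mem _ _ ?_
  have h6 : Z ^ a ∈ D.F a := D.F_pow (D.L_le 1 hZ) a
  have h7 : adp Z m Y ∈ D.F (0 + m) := D.L_le _ (D.adp_mem hZ hY m)
  exact D.F_anti (by omega) (D.F_mul h6 h7)

theorem adp_add (Z Y Y' : B) (m : ℕ) : adp Z m (Y + Y') = adp Z m Y + adp Z m Y' := by
  induction m with
  | zero => rfl
  | succ m ih =>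
    simp only [adp, ih]
    noncomm_ring

theorem Psi_add (Z Y Y' : B) : Psi p Z (Y + Y') = Psi p Z Y + Psi p Z Y' := by
  unfold Psi
  rw [← sum_add_distrib]
  refine sum_congr rfl ?_
  intro m _
  rw [adp_add, smul_add]

/-- solving for the logarithm -/
theorem FD.solve [Fact p.Prime] (D : FD p q B) {Z z : B} (hZ : Z ∈ D.L 1) (hz : z ∈ D.L 0) (k : ℕ) :
    ∃ Y ∈ D.L 0, z - Psi p Z Y ∈ D.L k := by
  have hp := (Fact.out : p.Prime).two_le
  induction k with
  | zero =>
    refine ⟨0, Submodule.zero_mem _, ?_⟩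
    have : Psi p Z (0 : B) = 0 := by
      have := Psi_add (p := p) Z (0 : B) 0
      simpa using this
    rw [this, sub_zero]
    exact hz
  | succ k ih =>
    obtain ⟨Y, hY, h⟩ := ih
    refine ⟨Y + (z - Psi p Z Y), Submodule.add_mem _ hY (D.L_anti (Nat.zero_le k) h), ?_⟩
    set r := z - Psi p Z Y with hr
    have h1 : z - Psi p Z (Y + r) = r - Psi p Z r := by
      rw [Psi_add, hr]
      abel
    rw [h1]
    have h2 : Psi p Z r = r + ∑ m ∈ range (p - 2), (fi p (m + 2) * (-1) ^ (m + 1)) • adp Z (m + 1) r := by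
      unfold Psi
      have hr : range (p - 1) = range ((p - 2) + 1) := by
        congr 1
        omega
      rw [hr, sum_range_succ', add_comm]
      congr 1
      simp [fi, adp]
    rw [h2, sub_add_cancel_left]
    refine Submodule.neg_mem _ (Submodule.sum_mem _ ?_)
    intro m _
    refine Submodule.smul_mem _ _ ?_
    exact D.L_anti (by omega) (D.adp_mem hZ h (m + 1))

end filt


section dualN

variable {p q : ℕ} {B : Type u} [Ring B] [Algebra (ZMod p) B]

theorem dP_succ (n : ℕ) (Z Y : B) : dP (n + 1) Z Y = Z * dP n Z Y + Y * Z ^ n := by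
  unfold dP
  rw [sum_range_succ, mul_sum]
  congr 1
  · refine sum_congr rfl ?_
    intro i hi
    rw [mem_range] at hi
    rw [← mul_assoc, ← mul_assoc, ← pow_succ']
    congr 3
    omega
  · simp

theorem pow_expand (Z Y : B) (n : ℕ) : ∃ c : ℕ → B, c 0 = Z ^ n ∧ c 1 = dP n Z Y ∧
    (∀ k, n < k → c k = 0) ∧
    ∀ t : ZMod p, (Z + t • Y) ^ n = ∑ k ∈ range (n + 1), t ^ k • c k := by
  induction n with
  | zero =>
    refine ⟨fun k => if k = 0 then 1 else 0, by simp, by simp [dP], ?_, by simp⟩
    intro k hk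
    simp only [ite_eq_right_iff]
    omega
  | succ n ih =>
    obtain ⟨c, h0, h1, h2, h3⟩ := ih
    refine ⟨fun k => Z * c k + (if k = 0 then 0 else Y * c (k - 1)), ?_, ?_, ?_, ?_⟩
    · simp only [if_true, add_zero]
      rw [h0, pow_succ']
    · simp only [one_ne_zero, if_false, Nat.sub_self]
      rw [h0, h1, dP_succ]
    · intro k hk
      simp only
      rw [h2 k (by omega), if_neg (by omega), h2 (k - 1) (by omega)]
      simp
    · intro t
      rw [pow_succ', h3 t]
      simp only [smul_add, sum_add_distrib]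
      rw [add_mul, mul_sum, mul_sum]
      congr 1
      · rw [sum_range_succ _ (n + 1), h2 (n + 1) (by omega)]
        simp only [mul_zero, smul_zero, add_zero]
        refine sum_congr rfl ?_
        intro k _
        rw [mul_smul_comm]
      · rw [sum_range_succ' _ (n + 1)]
        simp only [if_true, smul_zero, add_zero]
        refine sum_congr rfl ?_
        intro k _
        rw [if_neg (by omega), Nat.add_sub_cancel, mul_smul_comm, smul_mul_assoc, smul_smul, pow_succ]

theorem FD.dP_mem [Fact p.Prime] (D : FD p q B) (hq : q < p) {Z Y : B} (hZ : Z ∈ D.L 0)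
    (hY : Y ∈ D.L 0) : dP q Z Y ∈ D.N := by
  have hp := (Fact.out : p.Prime).two_le
  obtain ⟨c, h0, h1, h2, h3⟩ := pow_expand (p := p) Z Y q
  have h4 : ∑ t : ZMod p, t ^ (p - 2) • (Z + t • Y) ^ q = - c 1 := by
    have h5 : ∀ t : ZMod p, t ^ (p - 2) • (Z + t • Y) ^ q
        = ∑ k ∈ range (q + 1), t ^ (p - 2 + k) • c k := by
      intro t
      rw [h3 t, smul_sum]
      refine sum_congr rfl ?_
      intro k _
      rw [smul_smul, pow_add]
    rw [sum_congr rfl (fun t _ => h5 t), sum_comm]
    have h6 : ∀ k ∈ range (q + 1), ∑ t : ZMod p, t ^ (p - 2 + k) • c k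
        = if k = 1 then - c 1 else 0 := by
      intro k hk
      rw [mem_range] at hk
      rw [← sum_smul]
      by_cases hk1 : k = 1
      · subst hk1
        rw [if_pos rfl]
        have h7 : ∑ t : ZMod p, t ^ (p - 2 + 1) = -1 := by
          have h8 : p - 2 + 1 = p - 1 := by omega
          rw [h8]
          have h9 := FiniteField.sum_pow_units (ZMod p) (p - 1)
          have h10 : ∀ t : ZMod p, t ^ (p - 1) = if t = 0 then 0 else 1 := by
            intro t
            split_ifs with h
            · subst h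
              exact zero_pow (by omega)
            · exact ZMod.pow_card_sub_one_eq_one h
          rw [sum_congr rfl (fun t _ => h10 t)]
          rw [Finset.sum_ite, sum_const_zero, zero_add, sum_const, nsmul_eq_mul, mul_one]
          have h11 : #(Finset.univ.filter fun t : ZMod p => ¬ t = 0) = p - 1 := by
            rw [Finset.filter_not, Finset.filter_eq' univ (0 : ZMod p)]
            simp [Finset.card_sdiff, ZMod.card]
          rw [h11, Nat.cast_sub (by omega)]
          simp
        rw [h7, neg_one_smul]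
      · rw [if_neg hk1]
        have h7 : ∑ t : ZMod p, t ^ (p - 2 + k) = 0 := by
          by_cases hk0 : k = 0
          · subst hk0
            exact FiniteField.sum_pow_lt_card_sub_one (ZMod p) _ (by rw [ZMod.card]; omega)
          · have h8 : ∀ t : ZMod p, t ^ (p - 2 + k) = t ^ (k - 1) := by
              intro t
              have h9 : p - 2 + k = p + (k - 2) := by omega
              rw [h9, pow_add, ZMod.pow_card, ← pow_succ']
              congr 1
              omega
            rw [sum_congr rfl (fun t _ => h8 t)]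
            exact FiniteField.sum_pow_lt_card_sub_one (ZMod p) _ (by rw [ZMod.card]; omega)
        rw [h7, zero_smul]
    rw [sum_congr rfl h6]
    by_cases hq0 : q = 0
    · subst hq0
      have : c 1 = 0 := h2 1 (by omega)
      simp [this]
    · rw [sum_ite_eq' _ 1, if_pos (by rw [mem_range]; omega)]
  have h5 : - c 1 ∈ D.N := by
    rw [← h4]
    refine Submodule.sum_mem _ ?_
    intro t _
    refine Submodule.smul_mem _ _ (D.N_pow ?_)
    exact Submodule.add_mem _ hZ (Submodule.smul_mem _ _ hY)
  rw [← h1]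
  simpa using Submodule.neg_mem _ h5

/-- pairs with first component in `S` and second in `T` -/
def dualSub (S T : Submodule (ZMod p) B) : Submodule (ZMod p) (DualNumber B) where
  carrier := {x | x.fst ∈ S ∧ x.snd ∈ T}
  add_mem' := by
    rintro x y ⟨h1, h2⟩ ⟨h3, h4⟩
    exact ⟨S.add_mem h1 h3, T.add_mem h2 h4⟩
  zero_mem' := ⟨S.zero_mem, T.zero_mem⟩
  smul_mem' := by
    rintro c x ⟨h1, h2⟩
    exact ⟨S.smul_mem c h1, T.smul_mem c h2⟩

theorem mem_dualSub {S T : Submodule (ZMod p) B} {x : DualNumber B} :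
    x ∈ dualSub S T ↔ x.fst ∈ S ∧ x.snd ∈ T := Iff.rfl

theorem dual_snd_mul (x y : DualNumber B) : (x * y).snd = x.fst * y.snd + x.snd * y.fst := by
  rw [TrivSqZeroExt.snd_mul, smul_eq_mul, op_smul_eq_mul]

theorem dual_fst_mul (x y : DualNumber B) : (x * y).fst = x.fst * y.fst := rfl

theorem dual_pow (x : DualNumber B) (n : ℕ) : (x ^ n).snd = dP n x.fst x.snd := by
  induction n with
  | zero => simp [dP]
  | succ n ih =>
    rw [pow_succ', dual_snd_mul, ih, dP_succ, TrivSqZeroExt.fst_pow]

/-- the filtered data on the dual numbers, the infinitesimal having degree one -/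
def FD.dual [Fact p.Prime] (D : FD p q B) (hq : q < p) : FD p q (DualNumber B) where
  F i := dualSub (D.F i) (D.F (i - 1))
  L i := dualSub (D.L i) (D.L (i - 1))
  N := dualSub D.N D.N
  F_zero x := ⟨D.F_zero _, D.F_zero _⟩
  F_anti := by
    rintro i j hij x ⟨h1, h2⟩
    exact ⟨D.F_anti hij h1, D.F_anti (by omega) h2⟩
  F_mul := by
    rintro i j x y ⟨h1, h2⟩ ⟨h3, h4⟩
    refine ⟨D.F_mul h1 h3, ?_⟩
    rw [dual_snd_mul]
    exact Submodule.add_mem _ (D.F_anti (by omega) (D.F_mul h1 h4))
      (D.F_anti (by omega) (D.F_mul h2 h3))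
  L_le := by
    rintro i x ⟨h1, h2⟩
    exact ⟨D.L_le _ h1, D.L_le _ h2⟩
  L_anti := by
    rintro i j hij x ⟨h1, h2⟩
    exact ⟨D.L_anti hij h1, D.L_anti (by omega) h2⟩
  L_br := by
    rintro i j x y ⟨h1, h2⟩ ⟨h3, h4⟩
    refine ⟨D.L_br h1 h3, ?_⟩
    rw [TrivSqZeroExt.snd_sub, dual_snd_mul, dual_snd_mul]
    have e : x.fst * y.snd + x.snd * y.fst - (y.fst * x.snd + y.snd * x.fst)
        = (x.fst * y.snd - y.snd * x.fst) + (x.snd * y.fst - y.fst * x.snd) := by abel
    rw [e]
    exact Submodule.add_mem _ (D.L_anti (by omega) (D.L_br h1 h4))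
      (D.L_anti (by omega) (D.L_br h2 h3))
  N_mul := by
    rintro b x ⟨h1, h2⟩
    refine ⟨D.N_mul _ h1, ?_⟩
    rw [dual_snd_mul]
    exact Submodule.add_mem _ (D.N_mul _ h2) (D.N_mul _ h1)
  N_pow := by
    rintro z ⟨h1, h2⟩
    refine ⟨?_, ?_⟩
    · rw [TrivSqZeroExt.fst_pow]
      exact D.N_pow h1
    · rw [dual_pow]
      exact D.dP_mem hq h1 h2

end dualN


section main

variable {p q : ℕ} {B : Type u} [Ring B] [Algebra (ZMod p) B]

theorem splitS_hom' {I R R' : Type*} [AddCommMonoid R] [AddCommMonoid R'] (φ : R →+ R')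
    (L : List I) (G : List I → List I → R) :
    φ (splitS L G) = splitS L (fun s t => φ (G s t)) := by
  induction L generalizing G with
  | nil => rfl
  | cons a L ih => simp only [splitS, map_add, ih]

theorem sumUpd_smul {A W : Type*} [Ring A] [AddCommGroup W] [Module A W] (as : List A) (z : A)
    (F : List A → W) (c : A) : c • sumUpd as z F = sumUpd as z (fun l => c • F l) := by
  induction as generalizing F with
  | nil => simp [sumUpd]
  | cons b as ih2 => simp only [sumUpd, smul_add, ih2]

theorem splitS_sumUpd {A W : Type*} [Ring A] [AddCommGroup W] [Module A W] (as : List A) (z : A)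
    (zs : List A) (F : List A → List A → List A → W) :
    splitS zs (fun s t => sumUpd as z (fun as' => F as' s t))
      = sumUpd as z (fun as' => splitS zs (fun s t => F as' s t)) := by
  induction as generalizing zs F with
  | nil => simp [sumUpd, splitS_zero]
  | cons b as ih3 =>
    simp only [sumUpd, splitS_add]
    rw [ih3 zs (fun as' => F (b :: as'))]

/-- `a (1 + ε z)` -/
def dmul (z a : B) : DualNumber B := TrivSqZeroExt.inl a + TrivSqZeroExt.inr (a * z)

theorem dmul_fst (z a : B) : (dmul z a).fst = a := by simp [dmul]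
theorem dmul_snd (z a : B) : (dmul z a).snd = a * z := by simp [dmul]

theorem inl_prod (s : List B) :
    (s.map (TrivSqZeroExt.inl : B → DualNumber B)).prod = TrivSqZeroExt.inl s.prod := by
  induction s with
  | nil => simp
  | cons a s ih => rw [List.map_cons, List.prod_cons, List.prod_cons, ih, TrivSqZeroExt.inl_mul]

def fstA (B : Type u) [Ring B] : DualNumber B →+ B where
  toFun x := x.fst
  map_zero' := rfl
  map_add' _ _ := rfl

def sndA (B : Type u) [Ring B] : DualNumber B →+ B where
  toFun x := x.snd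
  map_zero' := rfl
  map_add' _ _ := rfl

theorem arrB_dual_fst (z : B) (as : List B) (zs : List B) :
    (arrB (1 : DualNumber B) (as.map (dmul z)) (zs.map TrivSqZeroExt.inl)).fst
      = arrB (1 : B) as zs := by
  induction as generalizing zs with
  | nil =>
    cases zs with
    | nil => rfl
    | cons a zs => rfl
  | cons a as ih =>
    rw [List.map_cons, arrB, arrB, splitS_map]
    change fstA B _ = _
    rw [splitS_hom']
    refine splitS_congr' _ _ _ ?_
    intro s t
    change ((dmul z a * (s.map TrivSqZeroExt.inl).prod) * _).fst = _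
    rw [dual_fst_mul, dual_fst_mul, ih, inl_prod, dmul_fst, TrivSqZeroExt.fst_inl, smul_eq_mul]

theorem arrB_dual_snd (z : B) (as : List B) (zs : List B) :
    (arrB (1 : DualNumber B) (as.map (dmul z)) (zs.map TrivSqZeroExt.inl)).snd
      = sumUpd as z (fun as' => arrB (1 : B) as' zs) := by
  induction as generalizing zs with
  | nil =>
    cases zs with
    | nil => rfl
    | cons a zs => rfl
  | cons a as ih =>
    rw [List.map_cons, arrB, sumUpd, splitS_map]
    change sndA B _ = _
    rw [splitS_hom']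
    have h1 : ∀ s t : List B, sndA B ((dmul z a * (s.map TrivSqZeroExt.inl).prod) •
        arrB (1 : DualNumber B) (as.map (dmul z)) (t.map TrivSqZeroExt.inl))
        = (a * z * s.prod) • arrB (1 : B) as t
          + (a * s.prod) • sumUpd as z (fun as' => arrB (1 : B) as' t) := by
      intro s t
      change ((dmul z a * (s.map TrivSqZeroExt.inl).prod) * _).snd = _
      rw [dual_snd_mul, dual_snd_mul, dual_fst_mul, ih, arrB_dual_fst, inl_prod, dmul_fst,
        dmul_snd, TrivSqZeroExt.fst_inl, TrivSqZeroExt.snd_inl, mul_zero, zero_add, add_comm]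
      rfl
    rw [splitS_congr' _ _ _ h1, splitS_add]
    congr 1
    have h2 : ∀ s t : List B, (a * s.prod) • sumUpd as z (fun as' => arrB (1 : B) as' t)
        = sumUpd as z (fun as' => (a * s.prod) • arrB (1 : B) as' t) := by
      intro s t
      rw [sumUpd_smul]
    rw [splitS_congr' _ _ _ h2, splitS_sumUpd]
    rfl

/-- the multilinear part of `(g (1 + z₁) ⋯ (1 + z_n) - 1) ^ q` -/
def DG (q : ℕ) (g : B) (zs : List B) : B :=
  ∑ m ∈ range (q + 1), ((-1 : ℤ) ^ (q - m) * (q.choose m)) • arrB (1 : B) (List.replicate m g) zs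

theorem DG_step (q : ℕ) (g z : B) (zs : List B) :
    (DG q (dmul z g) (zs.map TrivSqZeroExt.inl)).snd = DG q g (z :: zs) := by
  unfold DG
  change sndA B _ = _
  rw [map_sum]
  refine sum_congr rfl ?_
  intro m _
  rw [map_zsmul]
  congr 1
  change (arrB (1 : DualNumber B) (List.replicate m (dmul z g)) (zs.map TrivSqZeroExt.inl)).snd = _
  rw [← List.map_replicate, arrB_dual_snd, arrB_cons]

theorem arrB_nil_right (w : B) (m : ℕ) (g : B) : arrB w (List.replicate m g) [] = g ^ m * w := by
  induction m with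
  | zero => simp [arrB]
  | succ m ih =>
    rw [List.replicate_succ, arrB, splitS, ih, List.prod_nil, mul_one, smul_eq_mul, pow_succ',
      mul_assoc]

theorem DG_nil (q : ℕ) (g : B) : DG q g [] = (g - 1) ^ q := by
  unfold DG
  have hc : Commute g (-1) := (Commute.one_right g).neg_right
  rw [sub_eq_add_neg, hc.add_pow]
  refine sum_congr rfl ?_
  intro m _
  rw [arrB_nil_right, mul_one, mul_smul]
  have h1 : ((-1 : ℤ) ^ (q - m)) • ((q.choose m : ℤ) • g ^ m) = g ^ m * (-1) ^ (q - m) * (q.choose m) := by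
    rcases neg_one_pow_eq_or ℤ (q - m) with h | h
    · have h' : (-1 : B) ^ (q - m) = 1 := by
        have := congrArg (Int.cast : ℤ → B) h
        push_cast at this
        exact this
      rw [h, h', one_smul, mul_one, natCast_zsmul, nsmul_eq_mul, (Nat.cast_commute _ _).eq]
    · have h' : (-1 : B) ^ (q - m) = -1 := by
        have := congrArg (Int.cast : ℤ → B) h
        push_cast at this
        exact this
      rw [h, h', neg_one_smul, natCast_zsmul, nsmul_eq_mul, (Nat.cast_commute _ _).eq]
      simp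
  exact h1

theorem EE_fst (x : DualNumber B) : (EE p x).fst = EE p x.fst := by
  unfold EE
  change fstA B _ = _
  rw [map_sum]
  rfl

theorem EE_snd (x : DualNumber B) : (EE p x).snd = ∑ k ∈ range p, fi p k • dP k x.fst x.snd := by
  unfold EE
  change sndA B _ = _
  rw [map_sum]
  refine sum_congr rfl ?_
  intro k _
  change (fi p k • x ^ k).snd = _
  rw [TrivSqZeroExt.snd_smul, dual_pow]

theorem FD.pow_sub (D : FD p q B) {a b : B} (ha : a ∈ D.F 1) (hb : b ∈ D.F 1) (h : b - a ∈ D.F p)
    (n : ℕ) : b ^ n - a ^ n ∈ D.F (p + n - 1) := by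
  induction n with
  | zero => simp
  | succ n ih =>
    have e : b ^ (n + 1) - a ^ (n + 1) = b * (b ^ n - a ^ n) + (b - a) * a ^ n := by
      rw [pow_succ', pow_succ']
      noncomm_ring
    rw [e]
    refine Submodule.add_mem _ ?_ ?_
    · exact D.F_anti (by omega) (D.F_mul hb ih)
    · exact D.F_anti (by omega) (D.F_mul h (D.F_pow ha n))

theorem FD.EE_mem [Fact p.Prime] (D : FD p q B) {Z : B} (hZ : Z ∈ D.L 1) :
    EE p Z - 1 ∈ D.F 1 ∧ (EE p Z - 1) ^ q ∈ D.N := by
  have hp := (Fact.out : p.Prime).two_le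
  set U : B := ∑ k ∈ range (p - 1), fi p (k + 1) • Z ^ k with hU
  have h1 : EE p Z - 1 = U * Z := by
    unfold EE
    have hr : range p = range ((p - 1) + 1) := by
      congr 1
      omega
    rw [hr, sum_range_succ']
    simp only [fi, Nat.factorial_zero, Nat.cast_one, inv_one, pow_zero, one_smul,
      add_sub_cancel_right]
    rw [hU, sum_mul]
    refine sum_congr rfl ?_
    intro k _
    rw [smul_mul_assoc, ← pow_succ]
    rfl
  have hc : Commute U Z := by
    rw [hU]
    refine Commute.sum_left _ _ _ ?_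
    intro k _
    exact (Commute.refl Z).pow_left k |>.smul_left _
  rw [h1]
  refine ⟨D.F_anti (by omega) (D.F_mul (D.F_zero U) (D.L_le 1 hZ)), ?_⟩
  rw [hc.mul_pow]
  exact D.N_mul _ (D.N_pow (D.L_anti (Nat.zero_le 1) hZ))

end main

theorem DG_mem {p q : ℕ} [Fact p.Prime] (hq : q < p) (n : ℕ) :
    ∀ (B : Type u) [Ring B] [Algebra (ZMod p) B] (D : FD p q B) (g Z : B), Z ∈ D.L 1 →
      g - EE p Z ∈ D.F p → ∀ zs : List B, (∀ z ∈ zs, z ∈ D.L 0) → zs.length = n →
      DG q g zs ∈ D.N ⊔ D.F (p + q - 1 - n) := by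
  have hp := (Fact.out : p.Prime).two_le
  induction n with
  | zero =>
    intro B _ _ D g Z hZ hg zs _ hlen
    rw [List.length_eq_zero_iff] at hlen
    subst hlen
    rw [DG_nil]
    obtain ⟨h1, h2⟩ := D.EE_mem hZ
    have h3 : (g - 1) - (EE p Z - 1) ∈ D.F p := by
      have e : (g - 1) - (EE p Z - 1) = g - EE p Z := by abel
      rw [e]
      exact hg
    have h4 : g - 1 ∈ D.F 1 := by
      have e : g - 1 = (EE p Z - 1) + ((g - 1) - (EE p Z - 1)) := by abel
      rw [e]
      exact Submodule.add_mem _ h1 (D.F_anti (by omega) h3)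
    have h5 := D.pow_sub h1 h4 h3 q
    refine Submodule.mem_sup.2 ⟨_, h2, _, h5, ?_⟩
    abel
  | succ n ih =>
    intro B _ _ D g Z hZ hg zs hzs hlen
    cases zs with
    | nil => simp at hlen
    | cons z zs =>
      have hz : z ∈ D.L 0 := hzs z (by simp)
      obtain ⟨Y, hY, hYz⟩ := D.solve hZ hz (p - 1)
      have hlen' : zs.length = n := by simpa using hlen
      set Z' : DualNumber B := TrivSqZeroExt.inl Z + TrivSqZeroExt.inr Y with hZ'
      have f1 : Z'.fst = Z := by simp [hZ']
      have f2 : Z'.snd = Y := by simp [hZ']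
      have h1 := ih (DualNumber B) (D.dual hq) (dmul z g) Z' ?_ ?_ (zs.map TrivSqZeroExt.inl) ?_ ?_
      · rw [← DG_step]
        obtain ⟨a, ha, b, hb, hab⟩ := Submodule.mem_sup.1 h1
        refine Submodule.mem_sup.2 ⟨a.snd, ha.2, b.snd, ?_, ?_⟩
        · have := hb.2
          rw [show p + q - 1 - n - 1 = p + q - 1 - (n + 1) by omega] at this
          exact this
        · rw [← hab]
          rfl
      · exact ⟨by rw [f1]; exact hZ, by rw [f2]; exact hY⟩
      · refine ⟨?_, ?_⟩
        · rw [TrivSqZeroExt.fst_sub, EE_fst, f1, dmul_fst]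
          exact hg
        · rw [TrivSqZeroExt.snd_sub, EE_snd, f1, f2, dmul_snd]
          have e : g * z - ∑ k ∈ range p, fi p k • dP k Z Y
              = (g - EE p Z) * z + EE p Z * (z - Psi p Z Y)
                - (∑ k ∈ range p, fi p k • dP k Z Y - EE p Z * Psi p Z Y) := by
            noncomm_ring
          rw [e]
          refine Submodule.sub_mem _ (Submodule.add_mem _ ?_ ?_) (D.diff_mem hZ hY)
          · exact D.F_anti (by omega) (D.F_mul hg (D.F_zero z))
          · exact D.F_anti (by omega) (D.F_mul (D.F_zero (EE p Z)) (D.L_le _ hYz))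
      · intro x hx
        rw [List.mem_map] at hx
        obtain ⟨y, hy, rfl⟩ := hx
        exact ⟨hzs y (by simp [hy]), by rw [TrivSqZeroExt.snd_inl]; exact Submodule.zero_mem _⟩
      · rw [List.length_map]
        exact hlen'


/-- the trivial filtration -/
def FD.triv {p q : ℕ} {B : Type u} [Ring B] [Algebra (ZMod p) B] (L N : Submodule (ZMod p) B)
    (hL : ∀ x ∈ L, ∀ y ∈ L, x * y - y * x ∈ L) (hN : ∀ b : B, ∀ x ∈ N, b * x ∈ N)
    (hpow : ∀ z ∈ L, z ^ q ∈ N) : FD p q B where
  F i := if i = 0 then ⊤ else ⊥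
  L i := if i = 0 then L else ⊥
  N := N
  F_zero x := by simp
  F_anti := by
    intro i j hij
    by_cases hj : j = 0
    · have hi : i = 0 := by omega
      simp [hi, hj]
    · simp [hj]
  F_mul := by
    intro i j x y hx hy
    by_cases hi : i = 0
    · by_cases hj : j = 0
      · simp [hi, hj]
      · rw [if_neg hj, Submodule.mem_bot] at hy
        rw [hy, mul_zero]
        exact Submodule.zero_mem _
    · rw [if_neg hi, Submodule.mem_bot] at hx
      rw [hx, zero_mul]
      exact Submodule.zero_mem _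
  L_le := by
    intro i
    by_cases hi : i = 0
    · simp [hi]
    · simp [hi]
  L_anti := by
    intro i j hij
    by_cases hj : j = 0
    · have hi : i = 0 := by omega
      simp [hi, hj]
    · simp [hj]
  L_br := by
    intro i j x y hx hy
    by_cases hi : i = 0
    · by_cases hj : j = 0
      · rw [if_pos hi] at hx
        rw [if_pos hj] at hy
        rw [if_pos (by omega)]
        exact hL x hx y hy
      · rw [if_neg hj, Submodule.mem_bot] at hy
        rw [hy, mul_zero, zero_mul, sub_zero]
        exact Submodule.zero_mem _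
    · rw [if_neg hi, Submodule.mem_bot] at hx
      rw [hx, zero_mul, mul_zero, sub_zero]
      exact Submodule.zero_mem _
  N_mul := fun b _ hx => hN b _ hx
  N_pow := by
    intro z hz
    rw [if_pos rfl] at hz
    exact hpow z hz

theorem DG_one_mem {p q : ℕ} [Fact p.Prime] (hq : q < p) {B : Type u} [Ring B]
    [Algebra (ZMod p) B] (L N : Submodule (ZMod p) B)
    (hL : ∀ x ∈ L, ∀ y ∈ L, x * y - y * x ∈ L) (hN : ∀ b : B, ∀ x ∈ N, b * x ∈ N)
    (hpow : ∀ z ∈ L, z ^ q ∈ N) (zs : List B) (hzs : ∀ z ∈ zs, z ∈ L)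
    (hlen : zs.length < p + q - 1) : DG q (1 : B) zs ∈ N := by
  have hp := (Fact.out : p.Prime).two_le
  have h1 := DG_mem hq zs.length B (FD.triv L N hL hN hpow) 1 0 (Submodule.zero_mem _) ?_ zs ?_ rfl
  · obtain ⟨a, ha, b, hb, hab⟩ := Submodule.mem_sup.1 h1
    have hb' : b = 0 := by
      change b ∈ (if p + q - 1 - zs.length = 0 then (⊤ : Submodule (ZMod p) B) else ⊥) at hb
      rw [if_neg (by omega), Submodule.mem_bot] at hb
      exact hb
    rw [hb', add_zero] at hab
    rw [← hab]
    exact ha
  · have h2 : EE p (0 : B) = 1 := by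
      unfold EE
      rw [sum_eq_single_of_mem 0 (by rw [mem_range]; omega)]
      · simp [fi]
      · intro k _ hk
        rw [zero_pow hk, smul_zero]
    rw [h2, sub_self]
    exact Submodule.zero_mem _
  · intro z hz
    change z ∈ (if 0 = 0 then L else ⊥)
    rw [if_pos rfl]
    exact hzs z hz

section final

variable {A W : Type*} [Ring A] [AddCommGroup W] [Module A W]

/-- `a ↦ a • w` -/
def smulA (A : Type*) {W : Type*} [Ring A] [AddCommGroup W] [Module A W] (w : W) : A →+ W where
  toFun a := a • w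
  map_zero' := zero_smul _ _
  map_add' a b := add_smul a b w

theorem arrB_one_smul (w : W) (as zs : List A) : arrB (1 : A) as zs • w = arrB w as zs := by
  induction as generalizing zs with
  | nil =>
    cases zs with
    | nil => simp [arrB]
    | cons a zs => simp [arrB]
  | cons a as ih =>
    simp only [arrB]
    have h1 : ∀ x : A, x • w = smulA A w x := fun x => rfl
    rw [h1, splitS_hom']
    refine splitS_congr' _ _ _ ?_
    intro s t
    rw [← h1, smul_eq_mul, mul_smul, ih]

/-- **Low lengths.**  If the `(p-1)`-st power of every element of a Lie ring of operators kills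
`w`, then so do the multilinear parts of `(g - 1) ^ (p - 1)` of length less than `2 (p - 1)`. -/
theorem cop_eq_zero_of_pow {p : ℕ} [Fact p.Prime] [Algebra (ZMod p) A] (w : W)
    (L : Submodule (ZMod p) A) (hL : ∀ x ∈ L, ∀ y ∈ L, x * y - y * x ∈ L)
    (hpow : ∀ z ∈ L, z ^ (p - 1) • w = 0) (zs : List A) (hzs : ∀ z ∈ zs, z ∈ L)
    (hlen : zs.length < 2 * (p - 1)) : cop p w zs = 0 := by
  have hp := (Fact.out : p.Prime).two_le
  let N : Submodule (ZMod p) A :=
    { carrier := {b | b • w = 0}
      add_mem' := by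
        intro x y hx hy
        change (x + y) • w = 0
        rw [add_smul, hx, hy, add_zero]
      zero_mem' := zero_smul _ _
      smul_mem' := by
        intro c x hx
        change (c • x) • w = 0
        rw [Algebra.smul_def, mul_smul, hx, smul_zero] }
  have h1 : DG (p - 1) (1 : A) zs ∈ N := by
    refine DG_one_mem (by omega) L N hL ?_ hpow zs hzs (by omega)
    intro b x hx
    change (b * x) • w = 0
    rw [mul_smul, hx, smul_zero]
  have h2 : DG (p - 1) (1 : A) zs • w = 0 := h1
  rw [← h2, cop_eq]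
  unfold DG
  have h3 : ∀ x : A, x • w = smulA A w x := fun x => rfl
  rw [h3, map_sum]
  have hr : range p = range (p - 1 + 1) := by
    congr 1
    omega
  rw [hr]
  refine sum_congr rfl ?_
  intro m hm
  rw [mem_range] at hm
  rw [← h3]
  have h4 : (((-1 : ℤ) ^ (p - 1 - m) * ((p - 1).choose m : ℕ) : ℤ) : ZMod p) = 1 := by
    have h5 : ∀ m : ℕ, m ≤ p - 1 → (((p - 1).choose m : ℕ) : ZMod p) = (-1) ^ m := by
      intro m
      induction m with
      | zero => simp
      | succ m ih =>
        intro hm
        have h6 : (p - 1).choose m + (p - 1).choose (m + 1) = p.choose (m + 1) := by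
          have := Nat.choose_succ_succ (p - 1) m
          rw [show (p - 1).succ = p by omega] at this
          exact this.symm
        have h7 : ((p.choose (m + 1) : ℕ) : ZMod p) = 0 := by
          rw [ZMod.natCast_eq_zero_iff]
          exact (Fact.out : p.Prime).dvd_choose_self (by omega) (by omega)
        have h8 := congrArg (Nat.cast : ℕ → ZMod p) h6
        push_cast at h8
        rw [h7, ih (by omega)] at h8
        rw [pow_succ]
        linear_combination h8
    push_cast
    rw [h5 m (by omega), ← pow_add, show p - 1 - m + m = p - 1 by omega]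
    rcases Nat.Prime.eq_two_or_odd (Fact.out : p.Prime) with h9 | h9
    · have h10 : (-1 : ZMod p) = 1 := by
        have : ((2 : ℕ) : ZMod p) = 0 := by
          rw [← h9]
          exact ZMod.natCast_self p
        push_cast at this
        linear_combination -this
      rw [h10, one_pow]
    · exact Even.neg_one_pow (by rw [Nat.even_iff]; omega)
  have h6 : ((-1 : ℤ) ^ (p - 1 - m) * ((p - 1).choose m : ℕ)) • arrB (1 : A) (List.replicate m 1) zs
      = arrB (1 : A) (List.replicate m 1) zs := by
    rw [← Int.cast_smul_eq_zsmul (ZMod p), h4, one_smul]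
  rw [h6, arrB_one_smul]

end final

end Pool.Agent.Work.MP_bde882_al.Red
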