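import Mathlib

/-!
Sums over sublists and over splittings of a list.
-/

set_option autoImplicit false

namespace Pool.Agent.Work.MP_bde882_al.Red

section defs

variable {I R : Type*} [AddCommMonoid R]

/-- Sum of `Φ` over all sublists (indexed by sets of positions) of a list. -/
def subS : List I → (List I → R) → R
  | [], Φ => Φ []
  | a :: L, Φ => subS L Φ + subS L (fun s => Φ (a :: s))

/-- Sum of `G s t` over all ways to split a list into a subsequence `s` and its complement `t`. -/
def splitS : List I → (List I → List I → R) → R
  | [], G => G [] []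
  | a :: L, G => splitS L (fun s t => G (a :: s) t) + splitS L (fun s t => G s (a :: t))

/-- Sum of `Φ` over all `m`-fold rearrangements `s₁ ++ ⋯ ++ s_m` of the list, one term for every
distribution of the positions among `m` (possibly empty) blocks. -/
def arr : ℕ → List I → (List I → R) → R
  | 0, [], Φ => Φ []
  | 0, _ :: _, _ => 0
  | m + 1, t, Φ => splitS t (fun s t' => arr m t' (fun r => Φ (s ++ r)))

end defs

section lemmas

variable {I R : Type*} [AddCommMonoid R]

theorem subS_add (L : List I) (Φ Ψ : List I → R) :
    subS L (fun s => Φ s + Ψ s) = subS L Φ + subS L Ψ := by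
  induction L generalizing Φ Ψ with
  | nil => rfl
  | cons a L ih =>
    simp only [subS, ih]
    abel

theorem subS_zero (L : List I) : subS L (fun _ => (0 : R)) = 0 := by
  induction L with
  | nil => rfl
  | cons a L ih => simp only [subS, ih, add_zero]

theorem subS_congr (L : List I) (Φ Ψ : List I → R) (h : ∀ s, Φ s = Ψ s) :
    subS L Φ = subS L Ψ := by
  have : Φ = Ψ := funext h
  rw [this]

theorem subS_sum {ι : Type*} (T : Finset ι) (L : List I) (Φ : ι → List I → R) :
    subS L (fun s => ∑ i ∈ T, Φ i s) = ∑ i ∈ T, subS L (Φ i) := by
  classical
  induction T using Finset.induction_on with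
  | empty => simp [subS_zero]
  | insert i T hi ih =>
    simp only [Finset.sum_insert hi, subS_add, ih]

theorem subS_append (L L' : List I) (Φ : List I → R) :
    subS (L ++ L') Φ = subS L (fun s => subS L' (fun t => Φ (s ++ t))) := by
  induction L generalizing Φ with
  | nil => rfl
  | cons a L ih => simp only [List.cons_append, subS, ih]

theorem subS_nil (L : List I) (c : R) [DecidableEq I] :
    subS L (fun s => if s = [] then c else 0) = c := by
  induction L with
  | nil => simp [subS]
  | cons a L ih => simp [subS, ih, subS_zero]

theorem splitS_add (L : List I) (G H : List I → List I → R) :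
    splitS L (fun s t => G s t + H s t) = splitS L G + splitS L H := by
  induction L generalizing G H with
  | nil => rfl
  | cons a L ih =>
    simp only [splitS, ih]
    abel

theorem splitS_zero (L : List I) : splitS L (fun _ _ => (0 : R)) = 0 := by
  induction L with
  | nil => rfl
  | cons a L ih => simp only [splitS, ih, add_zero]

theorem splitS_congr (L : List I) (G H : List I → List I → R)
    (h : ∀ s t, (s ++ t).Perm L → G s t = H s t) : splitS L G = splitS L H := by
  induction L generalizing G H with
  | nil => exact h [] [] (List.Perm.refl _)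
  | cons a L ih =>
    simp only [splitS]
    congr 1
    · exact ih _ _ (fun s t hst => h _ _ (by simpa using hst))
    · refine ih _ _ (fun s t hst => h _ _ ?_)
      exact List.perm_middle.trans (hst.cons a)

theorem splitS_map {J : Type*} (g : J → I) (L : List J) (G : List I → List I → R) :
    splitS (L.map g) G = splitS L (fun s t => G (s.map g) (t.map g)) := by
  induction L generalizing G with
  | nil => rfl
  | cons a L ih => simp only [List.map_cons, splitS, ih]

theorem splitS_smul {S : Type*} [Semiring S] [Module S R] (c : S) (L : List I)
    (G : List I → List I → R) :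
    splitS L (fun s t => c • G s t) = c • splitS L G := by
  induction L generalizing G with
  | nil => rfl
  | cons a L ih => simp only [splitS, ih, smul_add]

theorem subS_subS (L : List I) (G : List I → List I → R)
    (h : ∀ s t, (∃ a, a ∈ s ∧ a ∈ t) → G s t = 0) :
    subS L (fun s => subS L (fun t => G s t)) = subS L (fun t => splitS t G) := by
  induction L generalizing G with
  | nil => rfl
  | cons a L ih =>
    simp only [subS, splitS, subS_add]
    rw [ih G h, ih (fun s t => G (a :: s) t), ih (fun s t => G s (a :: t))]
    · have h0 : subS L (fun s => subS L (fun t => G (a :: s) (a :: t))) = 0 := by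
        have h1 : ∀ s, subS L (fun t => G (a :: s) (a :: t)) = 0 := by
          intro s
          rw [subS_congr L _ (fun _ => 0) (fun t => h _ _ ⟨a, by simp, by simp⟩), subS_zero]
        rw [subS_congr L _ (fun _ => 0) h1, subS_zero]
      rw [h0]
      abel
    · intro s t ⟨b, hb, hb'⟩
      exact h _ _ ⟨b, hb, by simp [hb']⟩
    · intro s t ⟨b, hb, hb'⟩
      exact h _ _ ⟨b, by simp [hb], hb'⟩

theorem arr_congr (m : ℕ) (t : List I) (Φ Ψ : List I → R) (h : ∀ r, r.Perm t → Φ r = Ψ r) :
    arr m t Φ = arr m t Ψ := by
  induction m generalizing t Φ Ψ with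
  | zero =>
    cases t with
    | nil => exact h [] (List.Perm.refl _)
    | cons a t => rfl
  | succ m ih =>
    simp only [arr]
    refine splitS_congr _ _ _ ?_
    intro s t' hst
    refine ih _ _ _ ?_
    intro r hr
    exact h _ ((hr.append_left s).trans hst)

theorem arr_zero' (m : ℕ) (t : List I) : arr m t (fun _ => (0 : R)) = 0 := by
  induction m generalizing t with
  | zero =>
    cases t with
    | nil => rfl
    | cons a t => rfl
  | succ m ih =>
    simp only [arr, ih, splitS_zero]

theorem arr_eq_zero (m : ℕ) (t : List I) (Φ : List I → R) (h : ∀ r, r.Perm t → Φ r = 0) :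
    arr m t Φ = 0 := by
  rw [arr_congr m t Φ (fun _ => 0) h, arr_zero']

theorem arr_add (m : ℕ) (t : List I) (Φ Ψ : List I → R) :
    arr m t (fun r => Φ r + Ψ r) = arr m t Φ + arr m t Ψ := by
  induction m generalizing t Φ Ψ with
  | zero =>
    cases t with
    | nil => rfl
    | cons a t => simp [arr]
  | succ m ih =>
    simp only [arr, ih, splitS_add]

theorem arr_sum {ι : Type*} (T : Finset ι) (m : ℕ) (t : List I) (Φ : ι → List I → R) :
    arr m t (fun r => ∑ i ∈ T, Φ i r) = ∑ i ∈ T, arr m t (Φ i) := by
  classical
  induction T using Finset.induction_on with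
  | empty => simp [arr_zero']
  | insert i T hi ih => simp only [Finset.sum_insert hi, arr_add, ih]

theorem arr_smul {S : Type*} [Semiring S] [Module S R] (c : S) (m : ℕ) (t : List I)
    (Φ : List I → R) : arr m t (fun r => c • Φ r) = c • arr m t Φ := by
  induction m generalizing t Φ with
  | zero =>
    cases t with
    | nil => rfl
    | cons a t => simp [arr]
  | succ m ih =>
    simp only [arr, ih, splitS_smul]

theorem arr_map {J : Type*} (g : J → I) (m : ℕ) (t : List J) (Φ : List I → R) :
    arr m (t.map g) Φ = arr m t (fun r => Φ (r.map g)) := by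
  induction m generalizing t Φ with
  | zero =>
    cases t with
    | nil => rfl
    | cons a t => rfl
  | succ m ih =>
    simp only [arr, splitS_map, ih, List.map_append]

theorem subS_pow (L : List I) (m : ℕ) (Φ : List I → R) (h : ∀ s, ¬ s.Nodup → Φ s = 0) :
    subS (List.replicate m L).flatten Φ = subS L (fun t => arr m t Φ) := by
  classical
  induction m generalizing Φ with
  | zero =>
    have h1 : (fun t : List I => arr 0 t Φ) = fun t => if t = [] then Φ [] else 0 := by
      funext t
      cases t with
      | nil => simp [arr]
      | cons a t => simp [arr]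
    rw [h1, subS_nil]
    rfl
  | succ m ih =>
    rw [List.replicate_succ, List.flatten_cons, subS_append]
    have h1 : ∀ s, subS (List.replicate m L).flatten (fun t => Φ (s ++ t))
        = subS L (fun t => arr m t (fun r => Φ (s ++ r))) := by
      intro s
      refine ih (fun r => Φ (s ++ r)) ?_
      intro r hr
      refine h _ (fun hn => hr ?_)
      exact (List.nodup_append.1 hn).2.1
    rw [subS_congr L _ _ h1, subS_subS L (fun s t => arr m t (fun r => Φ (s ++ r)))]
    · rfl
    · rintro s t ⟨a, ha, ha'⟩
      refine arr_eq_zero _ _ _ ?_
      intro r hr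
      refine h _ (fun hn => ?_)
      exact (List.nodup_append.1 hn).2.2 a ha a (hr.symm.subset ha') rfl

open scoped Classical in
/-- Counting the sublists of `L` which list every element of `U` exactly once. -/
theorem subS_count [BEq I] [LawfulBEq I] {R : Type*} [CommSemiring R] (L : List I) (U : Finset I)
    (c : R) :
    subS L (fun t => if t.Nodup ∧ (∀ x, x ∈ t ↔ x ∈ U) then c else 0)
      = (∏ x ∈ U, (L.count x : R)) * c := by
  induction L generalizing U with
  | nil =>
    simp only [subS, List.nodup_nil, List.not_mem_nil, false_iff, true_and, List.count_nil,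
      Nat.cast_zero]
    by_cases hU : U = ∅
    · simp [hU]
    · obtain ⟨x, hx⟩ := Finset.nonempty_iff_ne_empty.2 hU
      rw [if_neg (fun h => h x hx), Finset.prod_eq_zero hx rfl, zero_mul]
  | cons a L ih =>
    simp only [subS]
    rw [ih U]
    by_cases ha : a ∈ U
    · have h1 : ∀ s : List I, (if (a :: s).Nodup ∧ (∀ x, x ∈ a :: s ↔ x ∈ U) then c else 0)
          = if s.Nodup ∧ (∀ x, x ∈ s ↔ x ∈ U.erase a) then c else 0 := by
        intro s
        congr 1
        apply propext
        constructor
        · rintro ⟨h1, h2⟩
          refine ⟨(List.nodup_cons.1 h1).2, fun x => ?_⟩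
          have h3 := (List.nodup_cons.1 h1).1
          rw [Finset.mem_erase, ← h2 x, List.mem_cons]
          constructor
          · intro hx
            exact ⟨fun hxa => h3 (hxa ▸ hx), Or.inr hx⟩
          · rintro ⟨h4, h5⟩
            exact h5.resolve_left h4
        · rintro ⟨h1, h2⟩
          refine ⟨List.nodup_cons.2 ⟨fun has => ?_, h1⟩, fun x => ?_⟩
          · exact (Finset.mem_erase.1 ((h2 a).1 has)).1 rfl
          · rw [List.mem_cons, h2 x, Finset.mem_erase]
            constructor
            · rintro (rfl | h3)
              · exact ha
              · exact h3.2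
            · intro hx
              by_cases hxa : x = a
              · exact Or.inl hxa
              · exact Or.inr ⟨hxa, hx⟩
      rw [subS_congr L _ _ h1, ih (U.erase a), ← Finset.mul_prod_erase U _ ha,
        ← Finset.mul_prod_erase U _ ha]
      have h2 : ∏ x ∈ U.erase a, (((a :: L).count x : ℕ) : R) = ∏ x ∈ U.erase a, (L.count x : R) := by
        refine Finset.prod_congr rfl ?_
        intro x hx
        rw [List.count_cons_of_ne (Finset.mem_erase.1 hx).1.symm]
      rw [h2, List.count_cons_self]
      push_cast
      ring
    · have h1 : ∀ s : List I, (if (a :: s).Nodup ∧ (∀ x, x ∈ a :: s ↔ x ∈ U) then c else 0)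
          = 0 := by
        intro s
        rw [if_neg]
        rintro ⟨_, h2⟩
        exact ha ((h2 a).1 (by simp))
      rw [subS_congr L _ _ h1, subS_zero, add_zero]
      have h2 : ∏ x ∈ U, (((a :: L).count x : ℕ) : R) = ∏ x ∈ U, (L.count x : R) := by
        refine Finset.prod_congr rfl ?_
        intro x hx
        rw [List.count_cons_of_ne]
        rintro rfl
        exact ha hx
      rw [h2]

end lemmas

end Pool.Agent.Work.MP_bde882_al.Red
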