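import Pool.Agent.Work.MP_bde882_al_red.Hughes
import Pool.Agent.Work.MP_bde882_al_red.Words

/-!
The criterion in terms of functions on words in three letters.
-/

set_option autoImplicit false

namespace Pool.Agent.Work.MP_bde882_al.Red

open Finset

/-- `∑_{i < p}` of the sums over all `i`-fold rearrangements: modulo `p` this is the multilinear
part of `(g - 1) ^ (p - 1)`. -/
def csum {I R : Type*} [AddCommMonoid R] (p : ℕ) (t : List I) (Φ : List I → R) : R :=
  ∑ i ∈ range p, arr i t Φ

section letters

variable {p q : ℕ}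

/-- the letters above `i` -/
def blk (q : ℕ) (i : Fin 3) : List (Fin 3 × Fin q) := (List.finRange q).map (fun s => (i, s))

theorem count_blk (i : Fin 3) (x : Fin 3 × Fin q) :
    (blk q i).count x = if x.1 = i then 1 else 0 := by
  unfold blk
  obtain ⟨j, s⟩ := x
  by_cases h : j = i
  · subst h
    rw [if_pos rfl, List.count_map_of_injective _ (fun s => (j, s)) (fun a b hab => by
      simpa using hab)]
    exact List.count_eq_one_of_mem (List.nodup_finRange q) (List.mem_finRange s)
  · rw [if_neg h, List.count_eq_zero]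
    simp only [List.mem_map, Prod.mk.injEq, not_exists, not_and]
    intro y _ h1
    exact absurd h1.symm h

theorem count_flat (J : List (Fin 3)) (x : Fin 3 × Fin q) :
    ((J.map (blk q)).flatten).count x = J.count x.1 := by
  induction J with
  | nil => simp
  | cons a J ih =>
    rw [List.map_cons, List.flatten_cons, List.count_append, ih, count_blk, List.count_cons]
    by_cases h : x.1 = a
    · subst h
      simp [add_comm]
    · have h' : ¬ a = x.1 := fun h2 => h h2.symm
      simp [h, h']

/-- the set of letters above `S` -/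
def US (q : ℕ) (S : Finset (Fin 3)) : Finset (Fin 3 × Fin q) := S ×ˢ univ

theorem mem_US (S : Finset (Fin 3)) (x : Fin 3 × Fin q) : x ∈ US q S ↔ x.1 ∈ S := by
  simp [US]

theorem prod_US (S : Finset (Fin 3)) (c : Fin 3 → ZMod p) :
    ∏ x ∈ US q S, c x.1 = ∏ i ∈ S, c i ^ q := by
  unfold US
  rw [prod_product]
  simp

theorem count_fst (S : Finset (Fin 3)) (t : List (Fin 3 × Fin q)) (h1 : t.Nodup)
    (h2 : ∀ x, x ∈ t ↔ x ∈ US q S) (i : Fin 3) :
    (t.map Prod.fst).count i = if i ∈ S then q else 0 := by
  have h4 : (t.map Prod.fst).count i = (t.filter (fun x => decide (x.1 = i))).length := by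
    rw [List.count_eq_countP, List.countP_map, List.countP_eq_length_filter]
    congr 1
  have h5 : (t.filter (fun x => decide (x.1 = i))).toFinset
      = (US q S).filter (fun x : Fin 3 × Fin q => x.1 = i) := by
    ext x
    rw [List.mem_toFinset, List.mem_filter, mem_filter, h2]
    simp
  rw [h4, ← List.toFinset_card_of_nodup (h1.filter _), h5]
  by_cases hi : i ∈ S
  · rw [if_pos hi]
    have h6 : (US q S).filter (fun x : Fin 3 × Fin q => x.1 = i) = {i} ×ˢ (univ : Finset (Fin q)) := by
      ext x
      rw [mem_filter, mem_US, mem_product, mem_singleton]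
      constructor
      · rintro ⟨_, h⟩
        exact ⟨h, mem_univ _⟩
      · rintro ⟨h, _⟩
        exact ⟨h ▸ hi, h⟩
    rw [h6, card_product]
    simp
  · rw [if_neg hi, card_eq_zero, filter_eq_empty_iff]
    intro x hx hxi
    rw [mem_US, hxi] at hx
    exact hi hx

open scoped Classical in
/-- the polarised function -/
noncomputable def PhiS (q : ℕ) (f : List (Fin 3) → ZMod p) (S : Finset (Fin 3))
    (s : List (Fin 3 × Fin q)) : ZMod p :=
  if s.Nodup ∧ (∀ x, x ∈ s ↔ x ∈ US q S) then f (s.map Prod.fst) else 0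

theorem csum_PhiS (f : List (Fin 3) → ZMod p) (κ : ZMod p) (S : Finset (Fin 3))
    (hf : ∀ u v : List (Fin 3), csum p v (fun r => f (u ++ r))
      = if u = [] ∧ (∀ i, v.count i = if i ∈ S then q else 0) then κ else 0)
    (s0 t : List (Fin 3 × Fin q)) :
    csum p t (fun r => PhiS q f S (s0 ++ r))
      = if s0 = [] then PhiS q (fun _ => κ) S t else 0 := by
  classical
  by_cases hc : (s0 ++ t).Nodup ∧ (∀ x, x ∈ s0 ++ t ↔ x ∈ US q S)
  · have h1 : csum p t (fun r => PhiS q f S (s0 ++ r))
        = csum p (t.map Prod.fst) (fun r => f (s0.map Prod.fst ++ r)) := by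
      unfold csum
      refine sum_congr rfl ?_
      intro i _
      rw [arr_map]
      refine arr_congr _ _ _ _ ?_
      intro r hr
      unfold PhiS
      have hp' : (s0 ++ r).Perm (s0 ++ t) := hr.append_left s0
      rw [if_pos ⟨hp'.nodup_iff.2 hc.1, fun x => (hp'.mem_iff).trans (hc.2 x)⟩, List.map_append]
    rw [h1, hf]
    by_cases h0 : s0 = []
    · subst h0
      have hc' : t.Nodup ∧ (∀ x, x ∈ t ↔ x ∈ US q S) := by simpa using hc
      rw [if_pos rfl, if_pos ⟨rfl, count_fst S t hc'.1 hc'.2⟩]
      unfold PhiS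
      rw [if_pos hc']
    · rw [if_neg h0, if_neg]
      rintro ⟨h, _⟩
      exact h0 (List.map_eq_nil_iff.1 h)
  · have h1 : csum p t (fun r => PhiS q f S (s0 ++ r)) = 0 := by
      unfold csum
      refine sum_eq_zero ?_
      intro i _
      refine arr_eq_zero _ _ _ ?_
      intro r hr
      unfold PhiS
      rw [if_neg]
      rintro ⟨h2, h3⟩
      apply hc
      have hp' : (s0 ++ r).Perm (s0 ++ t) := hr.append_left s0
      exact ⟨hp'.nodup_iff.1 h2, fun x => (hp'.mem_iff).symm.trans (h3 x)⟩
    rw [h1]
    by_cases h0 : s0 = []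
    · subst h0
      rw [if_pos rfl]
      unfold PhiS
      rw [if_neg]
      simpa using hc
    · rw [if_neg h0]

theorem PhiS_not_nodup (f : List (Fin 3) → ZMod p) (S : Finset (Fin 3))
    (s : List (Fin 3 × Fin q)) (h : ¬ s.Nodup) : PhiS q f S s = 0 := by
  unfold PhiS
  rw [if_neg (fun h1 => h h1.1)]

theorem sum_PhiS (f : List (Fin 3) → ZMod p) (κ : ZMod p) (S : Finset (Fin 3))
    (hf : ∀ u v : List (Fin 3), csum p v (fun r => f (u ++ r))
      = if u = [] ∧ (∀ i, v.count i = if i ∈ S then q else 0) then κ else 0)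
    (Lu Lg : List (Fin 3 × Fin q)) :
    ∑ i ∈ range p, subS (Lu ++ (List.replicate i Lg).flatten) (PhiS q f S)
      = (∏ x ∈ US q S, (Lg.count x : ZMod p)) * κ := by
  have h1 : ∀ i, subS (Lu ++ (List.replicate i Lg).flatten) (PhiS q f S)
      = subS Lu (fun s0 => subS Lg (fun t => arr i t (fun r => PhiS q f S (s0 ++ r)))) := by
    intro i
    rw [subS_append]
    refine subS_congr _ _ _ ?_
    intro s0
    refine subS_pow Lg i _ ?_
    intro r hr
    refine PhiS_not_nodup _ _ _ (fun hn => hr ?_)
    exact (List.nodup_append.1 hn).2.1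
  rw [sum_congr rfl (fun i _ => h1 i), ← subS_sum]
  have h2 : ∀ s0, ∑ i ∈ range p, subS Lg (fun t => arr i t (fun r => PhiS q f S (s0 ++ r)))
      = if s0 = [] then (∏ x ∈ US q S, (Lg.count x : ZMod p)) * κ else 0 := by
    intro s0
    rw [← subS_sum]
    have h3 : ∀ t, ∑ i ∈ range p, arr i t (fun r => PhiS q f S (s0 ++ r))
        = if s0 = [] then PhiS q (fun _ => κ) S t else 0 := fun t => csum_PhiS f κ S hf s0 t
    rw [subS_congr Lg _ _ h3]
    by_cases h0 : s0 = []
    · simp only [if_pos h0]
      have h4 := subS_count (R := ZMod p) Lg (US q S) κ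
      rw [← h4]
      refine subS_congr _ _ _ ?_
      intro t
      unfold PhiS
      congr 1
    · simp only [if_neg h0, subS_zero]
  rw [subS_congr Lu _ _ h2, subS_nil]

/-- the combined function -/
noncomputable def Phi (q : ℕ) (f : Finset (Fin 3) → List (Fin 3) → ZMod p)
    (κ : Finset (Fin 3) → ZMod p) (s : List (Fin 3 × Fin q)) : ZMod p :=
  ∑ S ∈ univ.filter (fun S : Finset (Fin 3) => S.Nonempty),
    ((-1) ^ S.card * (κ S)⁻¹) • PhiS q (f S) S s

theorem subS_smul' {I : Type*} (L : List I) (c : ZMod p) (Φ : List I → ZMod p) :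
    subS L (fun s => c • Φ s) = c • subS L Φ := by
  induction L generalizing Φ with
  | nil => rfl
  | cons a L ih => simp only [subS, ih, smul_add]

theorem sum_Phi (hp : p.Prime) (hq : q = p - 1) (f : Finset (Fin 3) → List (Fin 3) → ZMod p)
    (κ : Finset (Fin 3) → ZMod p) (hκ : ∀ S, S.Nonempty → κ S ≠ 0)
    (hf : ∀ S : Finset (Fin 3), S.Nonempty → ∀ u v : List (Fin 3),
      csum p v (fun r => f S (u ++ r))
        = if u = [] ∧ (∀ i, v.count i = if i ∈ S then q else 0) then κ S else 0)
    (Lu : List (Fin 3 × Fin q)) (J : List (Fin 3)) (hJ : ∃ i, ((J.count i : ℕ) : ZMod p) ≠ 0) :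
    ∑ i ∈ range p, subS (Lu ++ (List.replicate i (J.map (blk q)).flatten).flatten) (Phi q f κ)
      = -1 := by
  have hfact := Fact.mk hp
  have h1 : ∀ i, subS (Lu ++ (List.replicate i (J.map (blk q)).flatten).flatten) (Phi q f κ)
      = ∑ S ∈ univ.filter (fun S : Finset (Fin 3) => S.Nonempty), ((-1) ^ S.card * (κ S)⁻¹) •
        subS (Lu ++ (List.replicate i (J.map (blk q)).flatten).flatten) (PhiS q (f S) S) := by
    intro i
    have h2 : (Phi q f κ) = fun s => ∑ S ∈ univ.filter (fun S : Finset (Fin 3) => S.Nonempty),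
      ((-1) ^ S.card * (κ S)⁻¹) • PhiS q (f S) S s := rfl
    rw [h2, subS_sum]
    refine sum_congr rfl ?_
    intro S _
    rw [subS_smul']
  rw [sum_congr rfl (fun i _ => h1 i), sum_comm]
  have h3 : ∀ S ∈ univ.filter (fun S : Finset (Fin 3) => S.Nonempty),
      ∑ i ∈ range p, ((-1) ^ S.card * (κ S)⁻¹) •
        subS (Lu ++ (List.replicate i (J.map (blk q)).flatten).flatten) (PhiS q (f S) S)
      = ∏ i ∈ S, (-(((J.count i : ℕ) : ZMod p) ^ q)) := by
    intro S hS
    rw [mem_filter] at hS
    rw [← smul_sum, sum_PhiS (f S) (κ S) S (hf S hS.2)]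
    simp only [count_flat]
    rw [prod_US (q := q) S (fun i => ((J.count i : ℕ) : ZMod p)), smul_eq_mul]
    have h4 : ∏ i ∈ S, (-(((J.count i : ℕ) : ZMod p) ^ q))
        = (-1) ^ S.card * ∏ i ∈ S, (((J.count i : ℕ) : ZMod p) ^ q) := by
      rw [prod_neg]
    rw [h4]
    have h5 := hκ S hS.2
    field_simp
  rw [sum_congr rfl h3]
  have h6 : ∑ S ∈ (univ : Finset (Fin 3)).powerset, ∏ i ∈ S, (-(((J.count i : ℕ) : ZMod p) ^ q))
      = 0 := by
    rw [← prod_one_add]
    obtain ⟨i, hi⟩ := hJ
    refine prod_eq_zero (mem_univ i) ?_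
    rw [hq, ZMod.pow_card_sub_one_eq_one hi]
    ring
  have h7 : (univ : Finset (Fin 3)).powerset
      = insert ∅ (univ.filter (fun S : Finset (Fin 3) => S.Nonempty)) := by
    decide
  rw [h7, sum_insert (by simp), prod_empty] at h6
  linear_combination h6

end letters

section group

variable {p q : ℕ}

/-- functions on words without repetition -/
abbrev V (p q : ℕ) : Type := {l : List (Fin 3 × Fin q) // l.Nodup} → ZMod p

/-- extension by zero -/
def ext0 (F : V p q) (l : List (Fin 3 × Fin q)) : ZMod p :=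
  if h : l.Nodup then F ⟨l, h⟩ else 0

/-- the nilpotent operator of a letter -/
def nil1 (a : Fin 3 × Fin q) (F : V p q) : V p q := fun l => ext0 F (l.1 ++ [a])

theorem ext0_nil1 (a : Fin 3 × Fin q) (F : V p q) (l : List (Fin 3 × Fin q)) :
    ext0 (nil1 a F) l = ext0 F (l ++ [a]) := by
  by_cases h : l.Nodup
  · rw [ext0, dif_pos h]
    rfl
  · rw [ext0, dif_neg h, ext0, dif_neg]
    intro h1
    exact h (List.nodup_append.1 h1).1

theorem ext0_add (F G : V p q) (l : List (Fin 3 × Fin q)) :
    ext0 (F + G) l = ext0 F l + ext0 G l := by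
  unfold ext0
  split_ifs
  · rfl
  · simp

theorem ext0_sub (F G : V p q) (l : List (Fin 3 × Fin q)) :
    ext0 (F - G) l = ext0 F l - ext0 G l := by
  unfold ext0
  split_ifs
  · rfl
  · simp

theorem ext0_inj (F G : V p q) (h : ∀ l, ext0 F l = ext0 G l) : F = G := by
  funext l
  have h1 := h l.1
  rw [ext0, dif_pos l.2, ext0, dif_pos l.2] at h1
  exact h1

theorem ext0_two (a : Fin 3 × Fin q) (F : V p q) (l : List (Fin 3 × Fin q)) :
    ext0 F (l ++ [a] ++ [a]) = 0 := by
  rw [ext0, dif_neg]
  intro h
  exact (List.nodup_append.1 h).2.2 a (by simp) a (by simp) rfl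

/-- the operator `1 + x_a` as a permutation -/
def rho (a : Fin 3 × Fin q) : Equiv.Perm (V p q) where
  toFun F := F + nil1 a F
  invFun F := F - nil1 a F
  left_inv F := by
    apply ext0_inj
    intro l
    simp only [ext0_sub, ext0_add, ext0_nil1, ext0_two]
    ring
  right_inv F := by
    apply ext0_inj
    intro l
    simp only [ext0_sub, ext0_add, ext0_nil1, ext0_two]
    ring

theorem ext0_rho (a : Fin 3 × Fin q) (F : V p q) (l : List (Fin 3 × Fin q)) :
    ext0 (rho a F) l = ext0 F l + ext0 F (l ++ [a]) := by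
  change ext0 (F + nil1 a F) l = _
  rw [ext0_add, ext0_nil1]

theorem ext0_prod (L : List (Fin 3 × Fin q)) (F : V p q) (l : List (Fin 3 × Fin q)) :
    ext0 ((L.map rho).prod F) l = subS L (fun t => ext0 F (l ++ t)) := by
  induction L generalizing l with
  | nil => simp [subS]
  | cons a L ih =>
    rw [List.map_cons, List.prod_cons, Equiv.Perm.mul_apply, ext0_rho, ih, ih]
    simp only [subS, List.append_assoc, List.singleton_append]

/-- the generators -/
def gen (p q : ℕ) (i : Fin 3) : Equiv.Perm (V p q) × Multiplicative (Fin 3 → ZMod p) :=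
  (((blk q i).map rho).prod, Multiplicative.ofAdd (Pi.single i 1))

theorem rho_pow (L : List (Fin 3 × Fin q)) (i : ℕ) :
    ((L.map (rho (p := p))).prod) ^ i = (((List.replicate i L).flatten).map rho).prod := by
  induction i with
  | zero => simp
  | succ i ih =>
    rw [pow_succ', ih, List.replicate_succ, List.flatten_cons, List.map_append, List.prod_append]

theorem gen_prod_fst (J : List (Fin 3)) :
    ((J.map (gen p q)).prod).1 = (((J.map (blk q)).flatten).map rho).prod := by
  induction J with
  | nil => rfl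
  | cons a J ih =>
    rw [List.map_cons, List.prod_cons, Prod.fst_mul, ih, List.map_cons, List.flatten_cons,
      List.map_append, List.prod_append]
    rfl

theorem gen_prod_snd (J : List (Fin 3)) :
    ((J.map (gen p q)).prod).2 = Multiplicative.ofAdd (fun i => ((J.count i : ℕ) : ZMod p)) := by
  induction J with
  | nil =>
    apply Multiplicative.toAdd.injective
    funext i
    simp
  | cons a J ih =>
    rw [List.map_cons, List.prod_cons, Prod.snd_mul, ih]
    apply Multiplicative.toAdd.injective
    funext i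
    rw [toAdd_mul, Pi.add_apply]
    simp only [gen, toAdd_ofAdd, List.count_cons]
    by_cases h : i = a
    · subst h
      simp [add_comm]
    · have h' : ¬ a = i := fun h2 => h h2.symm
      simp [h']

/-- **Criterion in terms of words.** -/
theorem goal_of_words (hp : p.Prime) (f : Finset (Fin 3) → List (Fin 3) → ZMod p)
    (κ : Finset (Fin 3) → ZMod p) (hκ : ∀ S, S.Nonempty → κ S ≠ 0)
    (hf : ∀ S : Finset (Fin 3), S.Nonempty → ∀ u v : List (Fin 3),
      csum p v (fun r => f S (u ++ r))
        = if u = [] ∧ (∀ i, v.count i = if i ∈ S then p - 1 else 0) then κ S else 0) : Goal := by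
  have hfact := Fact.mk hp
  have hV : Finite (V p (p - 1)) := Pi.finite
  let P : Subgroup (Equiv.Perm (V p (p - 1)) × Multiplicative (Fin 3 → ZMod p)) :=
    Subgroup.closure (Set.range (gen p (p - 1)))
  have hlist : ∀ g : P, ∃ J : List (Fin 3), g.1 = (J.map (gen p (p - 1))).prod := by
    intro g
    have h1 : g.1 ∈ Submonoid.closure (Set.range (gen p (p - 1))) := by
      rw [← Subgroup.closure_toSubmonoid_of_finite]
      exact g.2
    obtain ⟨l, hl, hl'⟩ := Submonoid.exists_list_of_mem_closure h1
    have h2 : l ∈ Set.range (List.map (gen p (p - 1))) := by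
      rw [Set.range_list_map]
      exact hl
    obtain ⟨J, rfl⟩ := h2
    exact ⟨J, hl'.symm⟩
  let F : V p (p - 1) := fun l => Phi (p - 1) f κ l.1
  have hPhi0 : ∀ l : List (Fin 3 × Fin (p - 1)), ¬ l.Nodup → Phi (p - 1) f κ l = 0 := by
    intro l hl
    unfold Phi
    refine sum_eq_zero ?_
    intro S _
    rw [PhiS_not_nodup _ _ _ hl, smul_zero]
  have hF : ∀ l, ext0 F l = Phi (p - 1) f κ l := by
    intro l
    by_cases h : l.Nodup
    · rw [ext0, dif_pos h]
    · rw [ext0, dif_neg h, hPhi0 l h]
  let π : P →* Multiplicative (Fin 3 → ZMod p) :=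
    (MonoidHom.snd _ _).comp P.subtype
  have hA : Nat.card (Multiplicative (Fin 3 → ZMod p)) = p ^ 3 := by
    rw [Nat.card_congr Multiplicative.toAdd, Nat.card_fun, Nat.card_zmod]
    simp
  refine goal_of_fun (P := P) π hp hA ?_ (fun g => ext0 (g.1.1 F) []) ?_
  · intro a
    let J : List (Fin 3) :=
      List.replicate (Multiplicative.toAdd a 0).val 0 ++
        (List.replicate (Multiplicative.toAdd a 1).val 1 ++
          List.replicate (Multiplicative.toAdd a 2).val 2)
    have hJ : (J.map (gen p (p - 1))).prod ∈ P := by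
      refine Subgroup.list_prod_mem _ ?_
      intro x hx
      obtain ⟨i, -, rfl⟩ := List.mem_map.1 hx
      exact Subgroup.subset_closure ⟨i, rfl⟩
    refine ⟨⟨_, hJ⟩, ?_⟩
    change ((J.map (gen p (p - 1))).prod).2 = a
    rw [gen_prod_snd]
    apply Multiplicative.toAdd.injective
    funext i
    rw [toAdd_ofAdd]
    fin_cases i <;> simp [J, List.count_replicate]
  · intro u g hg
    obtain ⟨Ju, hJu⟩ := hlist u
    obtain ⟨Jg, hJg⟩ := hlist g
    have h1 : ∀ i : ℕ, ext0 ((u * g ^ i).1.1 F) []
        = subS ((Ju.map (blk (p - 1))).flatten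
            ++ (List.replicate i (Jg.map (blk (p - 1))).flatten).flatten) (Phi (p - 1) f κ) := by
      intro i
      have h2 : (u * g ^ i).1.1
          = (((Ju.map (blk (p - 1))).flatten
            ++ (List.replicate i (Jg.map (blk (p - 1))).flatten).flatten).map rho).prod := by
        have h3 : (u * g ^ i).1.1 = u.1.1 * (g.1.1) ^ i := by
          simp
        rw [h3, hJu, hJg, gen_prod_fst, gen_prod_fst, List.map_append, List.prod_append]
        rw [rho_pow]
      rw [h2, ext0_prod]
      refine subS_congr _ _ _ ?_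
      intro s
      rw [List.nil_append, hF]
    rw [sum_congr rfl (fun i _ => h1 i)]
    refine sum_Phi hp rfl f κ hκ hf _ Jg ?_
    by_contra hcon
    push Not at hcon
    apply hg
    change (g.1).2 = 1
    rw [hJg, gen_prod_snd]
    apply Multiplicative.toAdd.injective
    funext i
    rw [toAdd_ofAdd, hcon i]
    rfl

end group

end Pool.Agent.Work.MP_bde882_al.Red
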