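import Pool.Agent.Work.MP_bde882_al_red.Trans
import Pool.Agent.Work.MP_bde882_al_red.Final

/-!
The symmetry of the Gram matrices and the invariance of the functional under the derivations, from
Boolean tests on the tables.
-/

set_option autoImplicit false

namespace Pool.Agent.Work.MP_bde882_al.Fin8

open Finset
open Pool.Agent.Work.MP_bde882_al.Pk
open Pool.Agent.Work.MP_bde882_al.Pg62 (Tr Op Blk find tmask mdl frc frc_eq trO)
open Pool.Agent.Work.MP_bde882_al.H87

theorem slot_surj {K N : ℕ} (h : Nat.Coprime K N) (p : ℕ) (hp : p < N) :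
    ∃ i < N, slot K N i = p := by
  have : p ∈ (range N).image (slot K N) := by
    rw [slot_image h]
    exact mem_range.2 hp
  obtain ⟨i, hi, e⟩ := mem_image.1 this
  exact ⟨i, mem_range.1 hi, e⟩

/-! ### bounded conjunctions -/

/-- all numbers below `n` pass the test `q` -/
def allN (q : ℕ → Bool) (n : ℕ) : Bool :=
  Nat.rec (motive := fun _ => Bool) true
    (fun m ih => Bool.rec (motive := fun _ => Bool) false ih (q m)) n

theorem allN_spec (q : ℕ → Bool) (n : ℕ) (h : allN q n = true) : ∀ m < n, q m = true := by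
  induction n with
  | zero => intro m hm; omega
  | succ n ih =>
    have h' : Bool.rec (motive := fun _ => Bool) false (allN q n) (q n) = true := h
    cases hq : q n with
    | false =>
      rw [hq] at h'
      exact absurd h' (by simp)
    | true =>
      rw [hq] at h'
      intro m hm
      rcases Nat.lt_succ_iff_lt_or_eq.1 hm with h1 | h1
      · exact ih h' m h1
      · rw [h1]
        exact hq

/-! ### Gram matrices -/

/-- test: `b` is the transpose of `bb`; `bb` has `r` rows and `n` columns -/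
noncomputable def gramB (bb b : Blk) (n r : ℕ) : Bool :=
  Bool.and (Bool.and (gdB bb n r) (gdB b r n))
    (Blk.rec (motive := fun _ => Bool) (Nat.beq (Nat.mul n r) 0)
      (fun K N off ch => ttest 18 K N r n 6 (fun m => scol 18 (Blk.mk K N off ch) m)
        (fun s => colB 18 b n s)) bb)

theorem six_eq (x y : ZMod 7) (h : x + ((6 : ℕ) : ZMod 7) * y = 0) : x = y := by
  have h6 : ((6 : ℕ) : ZMod 7) = -1 := by decide
  rw [h6] at h
  linear_combination h

theorem gramB_spec (bb b : Blk) (n r : ℕ) (h : gramB bb b n r = true) :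
    ∀ k < n, ∀ m < r, ent b k m = ent bb m k := by
  unfold gramB at h
  rw [Bool.and_eq_true, Bool.and_eq_true] at h
  obtain ⟨⟨h1, h2⟩, h3⟩ := h
  have g1 := gdB_spec _ _ _ h1
  have g2 := gdB_spec _ _ _ h2
  intro k hk m hm
  cases bb with
  | no =>
    have h4 : Nat.beq (Nat.mul n r) 0 = true := h3
    have h5 : n * r = 0 := Nat.eq_of_beq_eq_true h4
    rcases Nat.mul_eq_zero.1 h5 with h6 | h6 <;> omega
  | mk K N off ch =>
    have h4 : ttest 18 K N r n 6 (fun m => scol 18 (Blk.mk K N off ch) m)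
        (fun s => colB 18 b n s) = true := h3
    have g1' := g1
    obtain ⟨q1, q2, q3, q4, q5⟩ := g1'
    have g2' : r ≤ 430 ∨ b = Blk.no := by
      cases b with
      | no => exact Or.inr rfl
      | mk K' N' off' ch' => exact Or.inl g2.2.2.2.2
    have key := transp (W := 18) (K := K) (N := N) (r := r) (n := n) (c := 6) (c1 := 7) (c2 := 7)
      (a := fun m i => ent (Blk.mk K N off ch) (slot K N i) m) (b := fun s i => ent b i s)
      (by norm_num) q1 q2
      (fun m hm => scol_spec (by norm_num) g1 hm (by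
        have : n * 7 ≤ 430 * 7 := Nat.mul_le_mul_right _ q5
        norm_num
        omega))
      (fun s hs => by
        rcases g2' with g | g
        · exact colB_spec (by norm_num) g2 hs (by norm_num; omega)
        · subst g
          exact (Rep.zero 18 n _ (fun t _ => rfl)).mono (Nat.zero_le _))
      (by norm_num) h4
    obtain ⟨i, hi, hs⟩ := slot_surj q4 m (by omega)
    have h5 := key i hi (by rw [hs]; exact hm) k hk
    rw [hs] at h5
    exact (six_eq _ _ h5).symm

/-- the test for the block `β` of degree `9`, `β ≤ 171` -/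
noncomputable def gramC (β : ℕ) : Bool :=
  gramB (find (Nat.sub 342 β) Tab.TG) (find β Tab.TG) (dm (Nat.sub 342 β)) (dm β)

theorem gramC_spec (β : ℕ) (h : gramC β = true) :
    ∀ k < HH.d (342 - β), ∀ m < HH.d β, HH.g β k m = HH.g (342 - β) m k :=
  gramB_spec _ _ _ _ h

/-- the symmetry of the Gram matrices -/
theorem gramSymm_of (h : ∀ β ≤ 171, dB β = 9 → gramC β = true) : GramSymm HH := by
  intro β hβ h9 k hk m hm
  by_cases h1 : β ≤ 171
  · exact gramC_spec β (h β h1 h9) k hk m hm
  · have h2 := dB_compl β hβ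
    have h3 := gramC_spec (342 - β) (h (342 - β) (by omega) (by omega))
    have h4 : 342 - (342 - β) = β := by omega
    rw [h4] at h3
    exact (h3 m hm k hk).symm

/-! ### the commutation relation -/

/-- guarded number -/
def gd (q : Bool) (x : ℕ) : ℕ := Bool.rec (motive := fun _ => ℕ) 0 x q

theorem gd_true (x : ℕ) : gd true x = x := rfl
theorem gd_false (x : ℕ) : gd false x = 0 := rfl

/-- guarded test -/
def gt (q x : Bool) : Bool := Bool.rec (motive := fun _ => Bool) true x q

theorem gt_spec {q x : Bool} (h : gt q x = true) (hq : q = true) : x = true := by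
  subst hq
  exact h

/-- the test for one pair of blocks -/
noncomputable def c1B (b1 b2 b3 b4 b5 : Blk) (q1 q2 q3 : Bool) (n d1 d3 r : ℕ) : Bool :=
  Bool.and (Bool.and (gt q1 (Bool.and (gdB b2 n d1) (gdB b1 d1 r)))
    (Bool.and (gt q2 (Bool.and (gdB b4 n d3) (gdB b3 d3 r))) (gt q3 (gdB b5 n r))))
    (allN (fun m => ztW 18 r (Nat.add (gd q1 (mulB 18 b1 r (colB 18 b2 d1 m)))
      (Nat.mul 6 (Nat.add (gd q2 (mulB 18 b3 r (colB 18 b4 d3 m))) (gd q3 (colB 18 b5 r m)))))) n)

/-- the bound `k ≤ 430` for all blocks except the missing ones -/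
theorem Good.le_or {b : Blk} {k r : ℕ} (h : Good b k r) : k ≤ 430 ∨ b = Blk.no := by
  cases b with
  | no => exact Or.inr rfl
  | mk K N off ch => exact Or.inl h.2.2.2.2

theorem colB_spec' {b : Blk} {k r m : ℕ} (hg : Good b k r) (hm : m < k) :
    Rep 18 r 7 (colB 18 b r m) (fun i => ent b i m) := by
  rcases hg.le_or with h | h
  · exact colB_spec (by norm_num) hg hm (by norm_num; omega)
  · subst h
    exact (Rep.zero 18 r _ (fun t _ => rfl)).mono (Nat.zero_le _)

theorem mulB_spec' {b : Blk} {k r y : ℕ} {v : ℕ → ZMod 7} (hg : Good b k r)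
    (hy : Rep 18 k 7 y v) :
    Rep 18 r 21070 (mulB 18 b r y) (fun i => ∑ t ∈ range k, ent b i t * v t) := by
  rcases hg.le_or with h | h
  · refine (mulB_spec (by norm_num) hg hy ?_).mono ?_
    · have : k * (7 * 7) ≤ 430 * (7 * 7) := Nat.mul_le_mul_right _ h
      norm_num at this ⊢
      omega
    · have : k * (7 * 7) ≤ 430 * (7 * 7) := Nat.mul_le_mul_right _ h
      omega
  · subst h
    refine (Rep.zero 18 r _ (fun t _ => ?_)).mono (Nat.zero_le _)
    exact Finset.sum_eq_zero (fun s _ => zero_mul _)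

theorem c1B_spec (b1 b2 b3 b4 b5 : Blk) (q1 q2 q3 : Bool) (n d1 d3 r : ℕ)
    (h : c1B b1 b2 b3 b4 b5 q1 q2 q3 n d1 d3 r = true) :
    ∀ m < n, ∀ ρ < r,
      (if q1 = true then ∑ l ∈ range d1, ent b1 ρ l * ent b2 l m else 0)
      = (if q2 = true then ∑ l ∈ range d3, ent b3 ρ l * ent b4 l m else 0)
        + if q3 = true then ent b5 ρ m else 0 := by
  unfold c1B at h
  rw [Bool.and_eq_true, Bool.and_eq_true, Bool.and_eq_true] at h
  obtain ⟨⟨h1, h2, h3⟩, h4⟩ := h
  intro m hm
  have h5 := allN_spec _ _ h4 m hm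
  beta_reduce at h5
  have R1 : Rep 18 r 21070 (gd q1 (mulB 18 b1 r (colB 18 b2 d1 m)))
      (fun ρ => if q1 = true then ∑ l ∈ range d1, ent b1 ρ l * ent b2 l m else 0) := by
    cases q1 with
    | false => exact (Rep.zero 18 r _ (fun t _ => rfl)).mono (Nat.zero_le _)
    | true =>
      have h6 := gt_spec h1 rfl
      rw [Bool.and_eq_true] at h6
      exact mulB_spec' (gdB_spec _ _ _ h6.2) (colB_spec' (gdB_spec _ _ _ h6.1) hm)
  have R2 : Rep 18 r 21070 (gd q2 (mulB 18 b3 r (colB 18 b4 d3 m)))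
      (fun ρ => if q2 = true then ∑ l ∈ range d3, ent b3 ρ l * ent b4 l m else 0) := by
    cases q2 with
    | false => exact (Rep.zero 18 r _ (fun t _ => rfl)).mono (Nat.zero_le _)
    | true =>
      have h6 := gt_spec h2 rfl
      rw [Bool.and_eq_true] at h6
      exact mulB_spec' (gdB_spec _ _ _ h6.2) (colB_spec' (gdB_spec _ _ _ h6.1) hm)
  have R3 : Rep 18 r 7 (gd q3 (colB 18 b5 r m))
      (fun ρ => if q3 = true then ent b5 ρ m else 0) := by
    cases q3 with
    | false => exact (Rep.zero 18 r _ (fun t _ => rfl)).mono (Nat.zero_le _)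
    | true => exact colB_spec' (gdB_spec _ _ _ (gt_spec h3 rfl)) hm
  have R := R1.add ((R2.add R3).smul 6)
  have hz := ztW_spec R (by norm_num) (by norm_num) h5
  intro ρ hρ
  exact six_eq _ _ (hz ρ hρ)

/-! ### the invariance of the form -/

/-- the test for one block -/
noncomputable def c2B (bg be bg2 be2 : Blk) (n d1 d2 r : ℕ) : Bool :=
  Bool.and (Bool.and (Bool.and (gdB be n d1) (gdB bg d1 r)) (Bool.and (gdB be2 r d2) (gdB bg2 d2 n)))
    (Blk.rec (motive := fun _ => Bool) (Nat.beq (Nat.mul n r) 0)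
      (fun K N off ch => Bool.and (Nat.ble n K)
        (ttest 18 K N r n 1 (fun m => sprod 18 (Blk.mk K N off ch) (colB 18 be d1 m))
        (fun s => mulB 18 bg2 n (colB 18 be2 d2 s)))) bg)

theorem c2B_spec (bg be bg2 be2 : Blk) (n d1 d2 r : ℕ) (h : c2B bg be bg2 be2 n d1 d2 r = true) :
    ∀ p < r, ∀ m < n, ∑ l ∈ range d1, ent bg p l * ent be l m
      + ∑ l ∈ range d2, ent bg2 m l * ent be2 l p = 0 := by
  unfold c2B at h
  rw [Bool.and_eq_true, Bool.and_eq_true, Bool.and_eq_true, Bool.and_eq_true] at h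
  obtain ⟨⟨⟨h1, h2⟩, h3, h4⟩, h5⟩ := h
  have g1 := gdB_spec _ _ _ h1
  have g2 := gdB_spec _ _ _ h2
  have g3 := gdB_spec _ _ _ h3
  have g4 := gdB_spec _ _ _ h4
  intro p hp m hm
  cases bg with
  | no =>
    have h6 : Nat.beq (Nat.mul n r) 0 = true := h5
    have h7 : n * r = 0 := Nat.eq_of_beq_eq_true h6
    rcases Nat.mul_eq_zero.1 h7 with h8 | h8 <;> omega
  | mk K N off ch =>
    have h6 : Bool.and (Nat.ble n K)
        (ttest 18 K N r n 1 (fun m => sprod 18 (Blk.mk K N off ch) (colB 18 be d1 m))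
        (fun s => mulB 18 bg2 n (colB 18 be2 d2 s))) = true := h5
    rw [Bool.and_eq_true] at h6
    obtain ⟨h7, h8⟩ := h6
    have g2' := g2
    obtain ⟨q1, q2, q3, q4, q5⟩ := g2'
    have key := transp (W := 18) (K := K) (N := N) (r := r) (n := n) (c := 1) (c1 := 21070)
      (c2 := 21070)
      (a := fun m i => ∑ l ∈ range d1, ent (Blk.mk K N off ch) (slot K N i) l * ent be l m)
      (b := fun s i => ∑ l ∈ range d2, ent bg2 i l * ent be2 l s)
      (by norm_num) q1 (Nat.le_of_ble_eq_true h7)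
      (fun m hm => by
        have hk : d1 * (7 * 7) ≤ 430 * (7 * 7) := Nat.mul_le_mul_right _ q5
        obtain ⟨A, e, hA⟩ := sprod_spec (W := 18) (by norm_num) g2 (colB_spec' g1 hm) (by
          norm_num at hk ⊢
          omega)
        exact ⟨A, e, fun i hi => ⟨(hA i hi).1.trans hk, (hA i hi).2⟩⟩)
      (fun s hs => mulB_spec' g4 (colB_spec' g3 hs))
      (by norm_num) h8
    obtain ⟨i, hi, hs⟩ := slot_surj q4 p (by omega)
    have h9 := key i hi (by rw [hs]; exact hp) m hm
    rw [hs] at h9
    simpa using h9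

/-! ### the tests at a block -/

/-- forced argument -/
def frcB (g : ℕ → Bool) (n : ℕ) : Bool :=
  Nat.rec (motive := fun _ => Bool) (g Nat.zero) (fun m _ => g (Nat.succ m)) n

theorem frcB_eq (g : ℕ → Bool) (n : ℕ) : frcB g n = g n := by
  cases n <;> rfl

/-- digit of a code -/
def dgN (s β : ℕ) : ℕ := Nat.mod (Nat.div β s) 7

theorem dgN_eq (i : Fin 3) (β : ℕ) : dgN (sh i) β = dg i β := rfl

/-- degree of a block -/
def dBN (β : ℕ) : ℕ := Nat.add (Nat.add (dgN 49 β) (dgN 7 β)) (dgN 1 β)

theorem dBN_eq (β : ℕ) : dBN β = dB β := rfl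

theorem ble_iff (a b : ℕ) : Nat.ble a b = true ↔ a ≤ b :=
  ⟨Nat.le_of_ble_eq_true, Nat.ble_eq_true_of_le⟩

/-- the commutation relation for the letter `k` on the block `β` -/
noncomputable def c1C (te : Tr) (si sj : ℕ) (xi : Tr) (isj : Bool) (sk : ℕ) (xk : Tr) (β : ℕ) :
    Bool :=
  frcB (fun bk => frcB (fun bE => frcB (fun bT =>
    c1B (find bk te) (find β xk) (find bE xk) (find β te) (find β xi)
      (Bool.and (Nat.ble (Nat.succ (dgN sk β)) 6)
        (Bool.and (Nat.ble 1 (dgN sj bk)) (Nat.ble (Nat.succ (dgN si bk)) 6)))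
      (Bool.and (Nat.ble 1 (dgN sj β))
        (Bool.and (Nat.ble (Nat.succ (dgN si β)) 6) (Nat.ble (Nat.succ (dgN sk bE)) 6)))
      (Bool.and isj (Nat.ble (Nat.succ (dgN si β)) 6))
      (dm β) (dm bk) (dm bE) (dm bT))
    (Nat.sub (Nat.add bk si) sj)) (Nat.sub (Nat.add β si) sj)) (Nat.add β sk)

theorem c1C_spec (te : Tr) (i j k : Fin 3) (β : ℕ)
    (h : c1C te (sh i) (sh j) (trO (tX i)) (decide (k = j)) (sh k) (trO (tX k)) β = true) :
    ∀ m < HH.d β, ∀ r < HH.d (β + sh k + sh i - sh j),
      (if dg k β < 6 ∧ 0 < dg j (β + sh k) ∧ dg i (β + sh k) < 6 then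
        ∑ l ∈ range (HH.d (β + sh k)), ent (find (β + sh k) te) r l * HH.x k β l m else 0)
      = (if 0 < dg j β ∧ dg i β < 6 ∧ dg k (β + sh i - sh j) < 6 then
        ∑ l ∈ range (HH.d (β + sh i - sh j)), HH.x k (β + sh i - sh j) r l * ent (find β te) l m
        else 0)
        + if k = j ∧ dg i β < 6 then HH.x i β r m else 0 := by
  unfold c1C at h
  rw [frcB_eq, frcB_eq, frcB_eq] at h
  intro m hm r hr
  have h1 := c1B_spec _ _ _ _ _ _ _ _ _ _ _ _ h m hm r hr
  simp only [Bool.and_eq_true, ble_iff, decide_eq_true_eq] at h1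
  exact h1

/-- all three letters, degree `< 9` -/
noncomputable def c1D (te : Tr) (si sj : ℕ) (xi : Tr) (j0 j1 j2 : Bool) (β : ℕ) : Bool :=
  gt (Nat.ble (Nat.succ (dBN β)) 9) (Bool.and (c1C te si sj xi j0 49 (trO Tab.T1_0) β)
    (Bool.and (c1C te si sj xi j1 7 (trO Tab.T1_1) β) (c1C te si sj xi j2 1 (trO Tab.T1_2) β)))

/-- the invariance of the form on the block `β` of degree `9` -/
noncomputable def c2C (te : Tr) (si sj : ℕ) (β : ℕ) : Bool :=
  gt (Nat.beq (dBN β) 9) (gt (Nat.ble 1 (dgN sj β)) (gt (Nat.ble (Nat.succ (dgN si β)) 6)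
    (frcB (fun bE => frcB (fun mu => gt (Nat.ble (dm β) (dm mu))
      (c2B (find bE Tab.TG) (find β te) (find (Nat.sub 342 β) Tab.TG) (find mu te)
        (dm β) (dm bE) (dm (Nat.sub 342 β)) (dm mu))) (Nat.sub 342 bE))
      (Nat.sub (Nat.add β si) sj))))

theorem c2C_spec (te : Tr) (i j : Fin 3) (β : ℕ) (h : c2C te (sh i) (sh j) β = true)
    (h9 : dB β = 9) (hj : 0 < dg j β) (hi : dg i β < 6)
    (hle : dm β ≤ dm (342 - (β + sh i - sh j))) :
    ∀ p < dm (342 - (β + sh i - sh j)), ∀ m < dm β,
      ∑ l ∈ range (dm (β + sh i - sh j)), ent (find (β + sh i - sh j) Tab.TG) p l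
        * ent (find β te) l m
      + ∑ l ∈ range (dm (342 - β)), ent (find (342 - β) Tab.TG) m l
        * ent (find (342 - (β + sh i - sh j)) te) l p = 0 := by
  unfold c2C at h
  have h1 := gt_spec h (by
    rw [dBN_eq, h9]
    rfl)
  have h2 := gt_spec h1 ((ble_iff _ _).2 hj)
  have h3 := gt_spec h2 ((ble_iff _ _).2 hi)
  rw [frcB_eq, frcB_eq] at h3
  have h4 := gt_spec h3 ((ble_iff _ _).2 hle)
  exact c2B_spec _ _ _ _ _ _ _ _ h4

/-! ### the derivations -/

/-- the functional is killed by `E_ij` -/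
theorem der_pair (te : Tr) (i j : Fin 3) (hij : i ≠ j) (hg : GramSymm HH) (hd0 : 0 < HH.d 0)
    (hc1 : ∀ β < 343, dB β < 9 → ∀ k : Fin 3,
      c1C te (sh i) (sh j) (trO (tX i)) (decide (k = j)) (sh k) (trO (tX k)) β = true)
    (hc2 : ∀ β < 343, c2C te (sh i) (sh j) β = true) (w : List (Fin 3)) :
    der i j w (fH HH) = 0 := by
  refine fH_der_of_sums HH hd0 (fun _ _ β r t => ent (find β te) r t) i j hij hg ?_ ?_ w
  · intro β hβ h9 m hm k r hr
    exact c1C_spec te i j k β (hc1 β hβ h9 k) m hm r hr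
  · intro β hβ h9 hj hi p hp m hm
    obtain ⟨g1, g2, g3, g4, g5⟩ := E_facts j i hij.symm β hβ ⟨hj, hi⟩
    have hcj := dg_compl _ g1 j
    have hci := dg_compl _ g1 i
    have hμ : 342 - (β + sh i - sh j) < 343 := by omega
    have hback : 342 - (β + sh i - sh j) + sh i - sh j = 342 - β := by omega
    unfold GE
    rw [hback]
    change ∑ l ∈ range (dm (β + sh i - sh j)), ent (find (β + sh i - sh j) Tab.TG) p l
        * ent (find β te) l m + ∑ l ∈ range (dm (342 - β)), ent (find (342 - β) Tab.TG) m l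
        * ent (find (342 - (β + sh i - sh j)) te) l p = 0
    by_cases hle : dm β ≤ dm (342 - (β + sh i - sh j))
    · exact c2C_spec te i j β (hc2 β hβ) h9 hj hi hle p hp m hm
    · have hB := dB_compl _ g1
      have key := c2C_spec te i j (342 - (β + sh i - sh j)) (hc2 _ hμ) (by omega) (by omega)
        (by omega)
      rw [hback] at key
      have e1 : 342 - (342 - β) = β := by omega
      have e2 : 342 - (342 - (β + sh i - sh j)) = β + sh i - sh j := by omega
      rw [e1, e2] at key
      have key2 := key (by omega) m hm p hp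
      rw [add_comm]
      exact key2

/-- the commutator of two derivations -/
theorem der_comm {R : Type*} [CommRing R] (i j k : Fin 3) (hij : i ≠ j) (hjk : j ≠ k) (hik : i ≠ k)
    (w : List (Fin 3)) (g : List (Fin 3) → R) :
    der i k w g = der j k w (fun r => der i j r g) - der i j w (fun r => der j k r g) := by
  have hadd : ∀ (a b : Fin 3) (w : List (Fin 3)) (g h : List (Fin 3) → R),
      der a b w (fun r => g r + h r) = der a b w g + der a b w h := by
    intro a b w
    induction w with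
    | nil => intro g h; simp [der]
    | cons x w ih =>
      intro g h
      simp only [der]
      rw [ih (fun r => g (x :: r)) (fun r => h (x :: r))]
      split_ifs
      · ring
      · ring
  have hite : ∀ (a b : Fin 3) (w : List (Fin 3)) (c : Prop) [Decidable c]
      (g : List (Fin 3) → R), der a b w (fun r => if c then g r else 0)
        = if c then der a b w g else 0 := by
    intro a b w c _ g
    by_cases hc : c
    · simp only [if_pos hc]
    · simp only [if_neg hc]
      exact der_zero a b w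
  induction w generalizing g with
  | nil => simp [der]
  | cons a w ih =>
    simp only [der]
    rw [hadd j k w, hadd i j w, hite, hite, ih (fun r => g (a :: r))]
    by_cases h1 : a = k
    · subst h1
      simp only [if_true, if_neg hjk.symm, if_neg hik]
      ring
    · by_cases h2 : a = j
      · subst h2
        simp only [if_true, if_neg h1, if_neg hik]
        ring
      · simp only [if_neg h1, if_neg h2]
        ring

/-- **All derivations from four of them.** -/
theorem derZero_of (h01 : ∀ w, der 0 1 w (fH HH) = 0) (h12 : ∀ w, der 1 2 w (fH HH) = 0)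
    (h10 : ∀ w, der 1 0 w (fH HH) = 0) (h21 : ∀ w, der 2 1 w (fH HH) = 0) : DerZero HH := by
  have hz : ∀ (a b : Fin 3) (w : List (Fin 3)), der a b w (fun _ => (0 : ZMod 7)) = 0 :=
    fun a b w => der_zero a b w
  have h02 : ∀ w, der 0 2 w (fH HH) = 0 := by
    intro w
    rw [der_comm 0 1 2 (by decide) (by decide) (by decide)]
    simp only [h01, h12, hz, sub_zero]
  have h20 : ∀ w, der 2 0 w (fH HH) = 0 := by
    intro w
    rw [der_comm 2 1 0 (by decide) (by decide) (by decide)]
    simp only [h21, h10, hz, sub_zero]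
  intro i j hij w
  fin_cases i <;> fin_cases j
  · exact absurd rfl hij
  · exact h01 w
  · exact h02 w
  · exact h10 w
  · exact absurd rfl hij
  · exact h12 w
  · exact h20 w
  · exact h21 w
  · exact absurd rfl hij

/-! ### runs -/

/-- the test `q` for `len` blocks from `lo` on -/
def runQ (q : ℕ → Bool) (lo len : ℕ) : Bool := allN (fun i => frcB q (Nat.add lo i)) len

theorem runQ_spec (q : ℕ → Bool) (lo len : ℕ) (h : runQ q lo len = true) (β : ℕ) (h1 : lo ≤ β)
    (h2 : β < lo + len) : q β = true := by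
  have h3 := allN_spec _ _ h (β - lo) (by omega)
  rw [frcB_eq] at h3
  have h4 : Nat.add lo (β - lo) = β := by
    change lo + (β - lo) = β
    omega
  rwa [h4] at h3

theorem sh0 : sh 0 = 49 := rfl
theorem sh1 : sh 1 = 7 := rfl
theorem sh2 : sh 2 = 1 := rfl

theorem tX0 : tX 0 = Tab.T1_0 := if_pos rfl

theorem tX1 : tX 1 = Tab.T1_1 := by
  unfold tX
  rw [if_neg (by decide), if_pos rfl]

theorem tX2 : tX 2 = Tab.T1_2 := by
  unfold tX
  rw [if_neg (by decide), if_neg (by decide)]

/-- the three letters -/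
theorem c1D_spec (te : Tr) (si sj : ℕ) (xi : Tr) (j : Fin 3) (β : ℕ) (h9 : dB β < 9)
    (h : c1D te si sj xi (decide ((0 : Fin 3) = j)) (decide ((1 : Fin 3) = j))
      (decide ((2 : Fin 3) = j)) β = true) (k : Fin 3) :
    c1C te si sj xi (decide (k = j)) (sh k) (trO (tX k)) β = true := by
  unfold c1D at h
  have h1 := gt_spec h (by
    rw [ble_iff, dBN_eq]
    exact h9)
  rw [Bool.and_eq_true, Bool.and_eq_true] at h1
  obtain ⟨k0, k1, k2⟩ := h1
  fin_cases k
  · change c1C te si sj xi (decide ((0 : Fin 3) = j)) (sh 0) (trO (tX 0)) β = true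
    rw [sh0, tX0]
    exact k0
  · change c1C te si sj xi (decide ((1 : Fin 3) = j)) (sh 1) (trO (tX 1)) β = true
    rw [sh1, tX1]
    exact k1
  · change c1C te si sj xi (decide ((2 : Fin 3) = j)) (sh 2) (trO (tX 2)) β = true
    rw [sh2, tX2]
    exact k2

/-- the test for the Gram matrices on all blocks -/
noncomputable def gramQ (β : ℕ) : Bool := gt (Nat.beq (dBN β) 9) (gramC β)

theorem gramQ_spec (β : ℕ) (h9 : dB β = 9) (h : gramQ β = true) : gramC β = true :=
  gt_spec h (by
    rw [dBN_eq, h9]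
    rfl)

end Pool.Agent.Work.MP_bde882_al.Fin8
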