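import Mathlib

/-!
Reduction of the existence of a finite `p`-group with a non-trivial Hughes subgroup of index
`p ^ 3` to the existence of a function `ψ : P → ZMod p` on a finite group `P` whose sum over every
coset of every cyclic group `⟨g⟩`, `g` outside the kernel of a surjection to a group of order
`p ^ 3`, is `-1`.
-/

set_option autoImplicit false

namespace Pool.Agent.Work.MP_bde882_al.Red

open Finset

/-- The statement to be proved (the frozen statement `S02917`). -/
def Goal : Prop :=
    ∃ (p : ℕ) (G : Type) (_ : Group G) (_ : Finite G),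
      p.Prime ∧ IsPGroup p G ∧
      Subgroup.closure {x : G | orderOf x ≠ p} ≠ ⊥ ∧
      (Subgroup.closure {x : G | orderOf x ≠ p}).index = p ^ 3

theorem goal_of_dvd {p : ℕ} (hp : p.Prime) (G : Type) [Group G] [Finite G] (hG : IsPGroup p G)
    (hne : Subgroup.closure {x : G | orderOf x ≠ p} ≠ ⊥)
    (hdvd : p ^ 3 ∣ (Subgroup.closure {x : G | orderOf x ≠ p}).index) : Goal := by
  have hfact := Fact.mk hp
  set H := Subgroup.closure {x : G | orderOf x ≠ p} with hH
  obtain ⟨n, hn⟩ := IsPGroup.iff_card.1 (hG.to_subgroup H)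
  have hcard : Nat.card H * H.index = Nat.card G := Subgroup.card_mul_index H
  have h1 : p ^ (n + 3) ∣ Nat.card G := by
    rw [← hcard, hn, pow_add]
    exact mul_dvd_mul_left _ hdvd
  obtain ⟨K, hK, hHK⟩ := Sylow.exists_subgroup_card_pow_prime_le p h1 H hn (by omega)
  have himg : (K.subtype '' {x : K | orderOf x ≠ p}) = {x : G | orderOf x ≠ p} := by
    ext x
    constructor
    · rintro ⟨y, hy, rfl⟩
      simpa using hy
    · intro hx
      have hxH : x ∈ H := Subgroup.subset_closure hx
      refine ⟨⟨x, hHK hxH⟩, ?_, rfl⟩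
      simpa [Subgroup.orderOf_mk] using hx
  have hmap : (Subgroup.closure {x : K | orderOf x ≠ p}).map K.subtype = H := by
    rw [MonoidHom.map_closure, himg]
  have heq : Subgroup.closure {x : K | orderOf x ≠ p} = H.subgroupOf K := by
    rw [← hmap]
    exact (Subgroup.comap_map_eq_self_of_injective K.subtype_injective _).symm
  refine ⟨p, K, inferInstance, inferInstance, hp, hG.to_subgroup K, ?_, ?_⟩
  · intro hbot
    apply hne
    rw [← hmap, hbot, Subgroup.map_bot]
  · rw [heq]
    have h2 : Nat.card (H.subgroupOf K) * (H.subgroupOf K).index = Nat.card K :=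
      Subgroup.card_mul_index _
    have h3 : Nat.card (H.subgroupOf K) = p ^ n := by
      rw [← hn]
      exact Nat.card_congr (Subgroup.subgroupOfEquivOfLe hHK).toEquiv
    rw [h3, hK, pow_add] at h2
    exact Nat.eq_of_mul_eq_mul_left (pow_pos hp.pos n) h2

section semidirect

variable {N Γ : Type} [CommGroup N] [Group Γ] (φ : Γ →* MulAut N)

theorem semi_pow (v : N) (x : Γ) (n : ℕ) :
    ((⟨v, x⟩ : N ⋊[φ] Γ)) ^ n = ⟨∏ i ∈ range n, φ (x ^ i) v, x ^ n⟩ := by
  induction n with
  | zero =>
    rw [pow_zero, pow_zero, prod_range_zero]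
    rfl
  | succ n ih =>
    rw [pow_succ, ih]
    refine SemidirectProduct.ext ?_ ?_
    · rw [SemidirectProduct.mul_left, prod_range_succ]
    · rw [SemidirectProduct.mul_right, pow_succ]

theorem goal_of_semidirect {p : ℕ} (hp : p.Prime) [Finite N] [Finite Γ]
    (hΓ : IsPGroup p Γ) (hN : IsPGroup p N) (K : Subgroup Γ) (hK : p ^ 3 ∣ K.index)
    (hpow : ∀ x : Γ, x ∉ K → x ^ p = 1)
    (hnorm : ∀ x : Γ, x ∉ K → ∀ v : N, ∏ i ∈ range p, φ (x ^ i) v = 1)
    (v₀ : N) (hv₀ : v₀ ^ p ≠ 1) : Goal := by
  have hfact := Fact.mk hp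
  have hfinN : Finite (N ⋊[φ] Γ) := Finite.of_equiv (N × Γ) SemidirectProduct.equivProd.symm
  have hord : ∀ z : N ⋊[φ] Γ, z.right ∉ K → orderOf z = p := by
    intro z hz
    have hz' : z = ⟨z.left, z.right⟩ := rfl
    refine orderOf_eq_prime ?_ ?_
    · rw [hz', semi_pow]
      ext
      · simpa using hnorm _ hz z.left
      · simpa using hpow _ hz
    · intro h1
      apply hz
      rw [h1]
      exact K.one_mem
  have hle : Subgroup.closure {z : N ⋊[φ] Γ | orderOf z ≠ p} ≤
      K.comap (SemidirectProduct.rightHom (φ := φ)) := by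
    rw [Subgroup.closure_le]
    intro z hz
    by_contra hcon
    exact hz (hord z hcon)
  refine goal_of_dvd hp (N ⋊[φ] Γ) ?_ ?_ ?_
  · obtain ⟨a, ha⟩ := IsPGroup.iff_card.1 hN
    obtain ⟨b, hb⟩ := IsPGroup.iff_card.1 hΓ
    refine IsPGroup.iff_card.2 ⟨a + b, ?_⟩
    rw [Nat.card_congr (SemidirectProduct.equivProd (φ := φ)), Nat.card_prod, ha, hb, pow_add]
  · intro hbot
    have hmem : (⟨v₀, 1⟩ : N ⋊[φ] Γ) ∈ Subgroup.closure {z : N ⋊[φ] Γ | orderOf z ≠ p} := by
      apply Subgroup.subset_closure
      intro ho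
      have h1 : ((⟨v₀, 1⟩ : N ⋊[φ] Γ)) ^ p = 1 := by
        rw [← ho]
        exact pow_orderOf_eq_one _
      rw [semi_pow] at h1
      have h2 := congrArg SemidirectProduct.left h1
      simp at h2
      exact hv₀ h2
    rw [hbot, Subgroup.mem_bot] at hmem
    have h3 := congrArg SemidirectProduct.left hmem
    simp at h3
    apply hv₀
    rw [h3, one_pow]
  · have h1 : (K.comap (SemidirectProduct.rightHom (φ := φ))).index = K.index :=
      Subgroup.index_comap_of_surjective _ SemidirectProduct.rightHom_surjective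
    rw [← h1] at hK
    exact hK.trans (Subgroup.index_dvd_of_le hle)

end semidirect

section functions

variable {p : ℕ} {P A : Type} [Group P] [Group A] (π : P →* A)

/-- Functions on `P` with values in `ZMod (p ^ 2)` whose sums over the cosets of cyclic subgroups
generated by elements outside `ker π` vanish. -/
def modM (p : ℕ) : AddSubgroup (P → ZMod (p ^ 2)) where
  carrier := {F | ∀ g : P, π g ≠ 1 → ∀ u : P, ∑ i ∈ range p, F (u * g ^ i) = 0}
  zero_mem' := by
    intro g _ u
    simp
  add_mem' := by
    intro F F' hF hF' g hg u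
    simp only [Pi.add_apply, sum_add_distrib]
    rw [hF g hg u, hF' g hg u, add_zero]
  neg_mem' := by
    intro F hF g hg u
    simp only [Pi.neg_apply, sum_neg_distrib]
    rw [hF g hg u, neg_zero]

/-- translation -/
def transl (h : P) (F : modM π p) : modM π p :=
  ⟨fun u => F.1 (u * h), by
    intro g hg u
    have h1 := F.2 (h⁻¹ * g * h) (by
      intro h2
      apply hg
      rw [map_mul, map_mul, map_inv] at h2
      have h3 : π g = π h * ((π h)⁻¹ * π g * π h) * (π h)⁻¹ := by group
      rw [h3, h2]
      group) (u * h)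
    rw [← h1]
    refine sum_congr rfl ?_
    intro i _
    have h4 : (h⁻¹ * g * h) ^ i = h⁻¹ * g ^ i * h := by
      have := conj_pow (i := i) (a := h⁻¹) (b := g)
      simpa using this
    rw [h4]
    group⟩

theorem transl_apply (h : P) (F : modM π p) (u : P) : (transl π h F).1 u = F.1 (u * h) := rfl

/-- translation as an automorphism -/
def translAut (h : P) : MulAut (Multiplicative (modM π p)) :=
  { toFun := fun F => Multiplicative.ofAdd (transl π h (Multiplicative.toAdd F))
    invFun := fun F => Multiplicative.ofAdd (transl π h⁻¹ (Multiplicative.toAdd F))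
    left_inv := by
      intro F
      apply Multiplicative.toAdd.injective
      apply Subtype.ext
      funext u
      simp [transl_apply]
    right_inv := by
      intro F
      apply Multiplicative.toAdd.injective
      apply Subtype.ext
      funext u
      simp [transl_apply]
    map_mul' := by
      intro F F'
      apply Multiplicative.toAdd.injective
      apply Subtype.ext
      funext u
      simp [transl_apply] }

theorem translAut_apply (h : P) (F : Multiplicative (modM π p)) (u : P) :
    (Multiplicative.toAdd (translAut π h F)).1 u = (Multiplicative.toAdd F).1 (u * h) := rfl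

/-- translation as a homomorphism -/
def translHom : P →* MulAut (Multiplicative (modM π p)) where
  toFun := translAut π
  map_one' := by
    apply MulEquiv.ext
    intro F
    apply Multiplicative.toAdd.injective
    apply Subtype.ext
    funext u
    rw [translAut_apply, mul_one]
    rfl
  map_mul' := by
    intro g h
    apply MulEquiv.ext
    intro F
    apply Multiplicative.toAdd.injective
    apply Subtype.ext
    funext u
    rw [MulAut.mul_apply, translAut_apply, translAut_apply, translAut_apply, mul_assoc]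

theorem translHom_apply (h : P) (F : Multiplicative (modM π p)) (u : P) :
    (Multiplicative.toAdd (translHom π h F)).1 u = (Multiplicative.toAdd F).1 (u * h) := rfl

theorem prod_val (s : Finset ℕ) (f : ℕ → Multiplicative (modM π p)) (u : P) :
    (Multiplicative.toAdd (∏ i ∈ s, f i)).1 u = ∑ i ∈ s, (Multiplicative.toAdd (f i)).1 u := by
  classical
  induction s using Finset.induction_on with
  | empty => simp
  | insert a s ha ih =>
    rw [prod_insert ha, sum_insert ha, ← ih]
    rfl

theorem goal_of_fun_pgroup (hp : p.Prime) [Finite P] [Finite A] (hP : IsPGroup p P)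
    (hA : Nat.card A = p ^ 3) (hπ : Function.Surjective π) (ψ : P → ZMod p)
    (h : ∀ u g : P, π g ≠ 1 → ∑ i ∈ range p, ψ (u * g ^ i) = -1) : Goal := by
  have hfact := Fact.mk hp
  have hnz : NeZero (p ^ 2) := ⟨pow_ne_zero 2 hp.ne_zero⟩
  -- the function χ
  let χ₀ : P → ZMod (p ^ 2) := fun u => 1 + (p : ZMod (p ^ 2)) * ((ψ u).val : ZMod (p ^ 2))
  have hχ₀ : χ₀ ∈ modM π p := by
    intro g hg u
    have h1 := h u g hg
    have h2 : ((1 + ∑ i ∈ range p, (ψ (u * g ^ i)).val : ℕ) : ZMod p) = 0 := by
      push_cast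
      simp only [ZMod.natCast_val, ZMod.cast_id', id_eq]
      rw [h1]
      ring
    rw [ZMod.natCast_eq_zero_iff] at h2
    obtain ⟨k, hk⟩ := h2
    have h3 : ∑ i ∈ range p, χ₀ (u * g ^ i)
        = ((p * (1 + ∑ i ∈ range p, (ψ (u * g ^ i)).val) : ℕ) : ZMod (p ^ 2)) := by
      push_cast
      simp only [χ₀, sum_add_distrib, ← mul_sum, sum_const, card_range, nsmul_eq_mul, mul_one]
      ring
    rw [h3, hk, ZMod.natCast_eq_zero_iff]
    exact ⟨k, by ring⟩
  let χ : Multiplicative (modM π p) := Multiplicative.ofAdd ⟨χ₀, hχ₀⟩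
  have hp2 : ((p : ℕ) : ZMod (p ^ 2)) ≠ 0 := by
    rw [Ne, ZMod.natCast_eq_zero_iff]
    intro hd
    have := Nat.le_of_dvd hp.pos hd
    have h2 := hp.two_le
    nlinarith
  have hpχ : ∀ u : P, (p : ZMod (p ^ 2)) * χ₀ u = (p : ℕ) := by
    intro u
    simp only [χ₀]
    have h4 : (p : ZMod (p ^ 2)) * (p : ZMod (p ^ 2)) = 0 := by
      rw [← Nat.cast_mul, ZMod.natCast_eq_zero_iff]
      exact ⟨1, by ring⟩
    linear_combination ((ψ u).val : ZMod (p ^ 2)) * h4
  -- kernel of the action
  have hker : ∀ g : P, translHom (p := p) π g = 1 → π g = 1 := by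
    intro g hg
    by_contra hne
    have h1 : ∀ u : P, χ₀ (u * g) = χ₀ u := by
      intro u
      have h2 := translHom_apply π g χ u
      rw [hg] at h2
      exact h2.symm
    have h3 : ∀ i : ℕ, χ₀ (1 * g ^ i) = χ₀ 1 := by
      intro i
      induction i with
      | zero => simp
      | succ i ih => rw [pow_succ g i, ← mul_assoc, h1, ih]
    have h4 := hχ₀ g hne 1
    rw [sum_congr rfl (fun i _ => h3 i), sum_const, card_range, nsmul_eq_mul, hpχ] at h4
    exact hp2 h4
  have hpowp : ∀ g : P, π g ≠ 1 → translHom (p := p) π (g ^ p) = 1 := by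
    intro g hg
    apply MulEquiv.ext
    intro F
    apply Multiplicative.toAdd.injective
    apply Subtype.ext
    funext u
    rw [translHom_apply]
    have h1 := (Multiplicative.toAdd F).2 g hg u
    have h2 := (Multiplicative.toAdd F).2 g hg (u * g)
    have h3 : ∑ i ∈ range p, (Multiplicative.toAdd F).1 (u * g ^ (i + 1)) = 0 := by
      rw [← h2]
      refine sum_congr rfl ?_
      intro i _
      rw [pow_succ' g i, ← mul_assoc]
    have h4 := sum_range_succ' (fun i => (Multiplicative.toAdd F).1 (u * g ^ i)) p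
    have h5 := sum_range_succ (fun i => (Multiplicative.toAdd F).1 (u * g ^ i)) p
    rw [h4] at h5
    rw [h3, h1, zero_add, zero_add, pow_zero g, mul_one] at h5
    exact h5.symm
  have hfin : Finite (modM π p) := inferInstance
  have hNp : IsPGroup p (Multiplicative (modM π p)) := by
    have hdvd : Nat.card (modM π p) ∣ Nat.card (P → ZMod (p ^ 2)) :=
      AddSubgroup.card_addSubgroup_dvd_card _
    have hc : Nat.card (P → ZMod (p ^ 2)) = p ^ (2 * Nat.card P) := by
      rw [Nat.card_fun, Nat.card_zmod, ← pow_mul]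
    rw [hc] at hdvd
    obtain ⟨n, -, hn⟩ := (Nat.dvd_prime_pow hp).1 hdvd
    exact IsPGroup.iff_card.2 ⟨n, hn⟩
  let ρ := translHom (p := p) π
  let Γ := ρ.range
  let K : Subgroup Γ := π.ker.map ρ.rangeRestrict
  have hsurj : Function.Surjective ρ.rangeRestrict := ρ.rangeRestrict_surjective
  have hKmem : ∀ g : P, ρ.rangeRestrict g ∉ K → π g ≠ 1 := by
    intro g hg h1
    exact hg ⟨g, h1, rfl⟩
  have hΓp : IsPGroup p Γ := hP.of_surjective _ hsurj
  refine goal_of_semidirect (N := Multiplicative (modM π p)) (Γ := Γ) Γ.subtype hp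
    hΓp hNp K ?_ ?_ ?_ χ ?_
  · have h1 : K.index = π.ker.index := by
      have h2 : (π.ker ⊔ ρ.rangeRestrict.ker) = π.ker := by
        apply sup_eq_left.2
        intro g hg
        rw [MonoidHom.mem_ker] at hg ⊢
        apply hker
        have := congrArg Subtype.val hg
        simpa using this
      have h3 := Subgroup.index_map π.ker ρ.rangeRestrict
      rw [h2] at h3
      have h4 : ρ.rangeRestrict.range = ⊤ := MonoidHom.range_eq_top.2 hsurj
      rw [h4, Subgroup.index_top, mul_one] at h3
      exact h3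
    rw [h1]
    have h5 : π.ker.index = Nat.card A := by
      rw [Subgroup.index_ker]
      rw [MonoidHom.range_eq_top.2 hπ]
      exact Nat.card_congr Subgroup.topEquiv.toEquiv
    rw [h5, hA]
  · intro x hx
    obtain ⟨g, rfl⟩ := hsurj x
    rw [← map_pow]
    apply Subtype.ext
    exact hpowp g (hKmem g hx)
  · intro x hx v
    obtain ⟨g, rfl⟩ := hsurj x
    apply Multiplicative.toAdd.injective
    apply Subtype.ext
    funext u
    rw [prod_val]
    have h1 := (Multiplicative.toAdd v).2 g (hKmem g hx) u
    have h2 : ∀ i : ℕ, (Multiplicative.toAdd (Γ.subtype (ρ.rangeRestrict g ^ i) v)).1 u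
        = (Multiplicative.toAdd v).1 (u * g ^ i) := by
      intro i
      have h3 : Γ.subtype (ρ.rangeRestrict g ^ i) = translHom (p := p) π (g ^ i) := by
        rw [map_pow, map_pow]
        rfl
      rw [h3]
      exact translHom_apply π (g ^ i) v u
    rw [sum_congr rfl (fun i _ => h2 i), h1]
    rfl
  · intro h1
    have h2 : (Multiplicative.toAdd (χ ^ p)).1 1 = 0 := by
      rw [h1]
      rfl
    have h3 : (Multiplicative.toAdd (χ ^ p)).1 1 = (p : ZMod (p ^ 2)) * χ₀ 1 := by
      rw [toAdd_pow, ← nsmul_eq_mul]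
      rfl
    rw [h3, hpχ] at h2
    exact hp2 h2

/-- **Combinatorial criterion.** -/
theorem goal_of_fun (hp : p.Prime) [Finite P] [Finite A]
    (hA : Nat.card A = p ^ 3) (hπ : Function.Surjective π) (ψ : P → ZMod p)
    (h : ∀ u g : P, π g ≠ 1 → ∑ i ∈ range p, ψ (u * g ^ i) = -1) : Goal := by
  have hfact := Fact.mk hp
  obtain ⟨Q⟩ : Nonempty (Sylow p P) := inferInstance
  have hAp : IsPGroup p A := IsPGroup.iff_card.2 ⟨3, hA⟩
  have hQtop : (Q : Subgroup P).map π = ⊤ := by
    have h1 : ((Q.mapSurjective hπ : Sylow p A) : Subgroup A) = ⊤ := by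
      have h2 := (Q.mapSurjective hπ).is_maximal' (Q := ⊤)
        (hAp.to_subgroup ⊤) le_top
      exact h2.symm
    rw [← h1, Sylow.coe_mapSurjective]
  refine goal_of_fun_pgroup (P := Q) (A := A) (π.comp (Q : Subgroup P).subtype) hp Q.2 hA ?_
    (fun g => ψ g) ?_
  · intro a
    have : a ∈ (Q : Subgroup P).map π := by
      rw [hQtop]
      trivial
    obtain ⟨g, hg, rfl⟩ := this
    exact ⟨⟨g, hg⟩, rfl⟩
  · intro u g hg
    have := h u g hg
    simpa using this

end functions

end Pool.Agent.Work.MP_bde882_al.Red
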