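import Pool.Agent.Work.MP_bde882_al_red.DerChk
import Pool.Agent.Work.MP_bde882_al_h64.TabStep

/-!
The tables of the letters are the matrices of the letters of the full model.
-/

set_option autoImplicit false

namespace Pool.Agent.Work.MP_bde882_al.Fin8

open Finset
open Pool.Agent.Work.MP_bde882_al.Pk
open Pool.Agent.Work.MP_bde882_al.Pg62 (Tr Op Blk find tmask mdl frc frc_eq trO)
open Pool.Agent.Work.MP_bde882_al.H87

/-- entries as natural numbers -/
theorem ent_eq_mB (b : Blk) (r t : ℕ) : ent b r t = ((TS64.mB b r t : ℕ) : ZMod 7) := by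
  cases b with
  | no => simp [ent_no, TS64.mB]
  | mk K N off ch =>
    rw [ent_mk, TS64.mB_mk]
    push_cast
    rfl

/-- test for the middle level: the block `bt` (`r` rows, `n` columns) is the transpose of the product
of `bg` (`n` rows, `d` columns) and `bx` (`d` rows, `r` columns) -/
noncomputable def midB (bt bg bx : Blk) (n d r : ℕ) : Bool :=
  Bool.and (Bool.and (gdB bt n r) (Bool.and (gdB bg d n) (gdB bx r d)))
    (Blk.rec (motive := fun _ => Bool) (Nat.beq (Nat.mul n r) 0)
      (fun K N off ch => ttest 18 K N r n 6 (fun m => scol 18 (Blk.mk K N off ch) m)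
        (fun s => mulB 18 bg n (colB 18 bx d s))) bt)

theorem midB_spec (bt bg bx : Blk) (n d r : ℕ) (h : midB bt bg bx n d r = true) :
    ∀ t < n, ∀ ρ < r, ent bt ρ t = ∑ l ∈ range d, ent bg t l * ent bx l ρ := by
  unfold midB at h
  rw [Bool.and_eq_true, Bool.and_eq_true, Bool.and_eq_true] at h
  obtain ⟨⟨h1, h2, h3⟩, h4⟩ := h
  have g1 := gdB_spec _ _ _ h1
  have g2 := gdB_spec _ _ _ h2
  have g3 := gdB_spec _ _ _ h3
  intro t ht ρ hρ
  cases bt with
  | no =>
    have h5 : Nat.beq (Nat.mul n r) 0 = true := h4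
    have h6 : n * r = 0 := Nat.eq_of_beq_eq_true h5
    rcases Nat.mul_eq_zero.1 h6 with h7 | h7 <;> omega
  | mk K N off ch =>
    have h5 : ttest 18 K N r n 6 (fun m => scol 18 (Blk.mk K N off ch) m)
        (fun s => mulB 18 bg n (colB 18 bx d s)) = true := h4
    have g1' := g1
    obtain ⟨q1, q2, q3, q4, q5⟩ := g1'
    have key := transp (W := 18) (K := K) (N := N) (r := r) (n := n) (c := 6) (c1 := 7)
      (c2 := 21070)
      (a := fun m i => ent (Blk.mk K N off ch) (slot K N i) m)
      (b := fun s i => ∑ l ∈ range d, ent bg i l * ent bx l s)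
      (by norm_num) q1 q2
      (fun m hm => scol_spec (by norm_num) g1 hm (by
        have : n * 7 ≤ 430 * 7 := Nat.mul_le_mul_right _ q5
        norm_num
        omega))
      (fun s hs => mulB_spec' g2 (colB_spec' g3 hs))
      (by norm_num) h5
    obtain ⟨i, hi, hs⟩ := slot_surj q4 ρ (by omega)
    have h6 := key i hi (by rw [hs]; exact hρ) t ht
    rw [hs] at h6
    exact six_eq _ _ h6

/-- the test for the letter with table `tx` and shift `s` on the block `β` -/
noncomputable def letQ (tx : Tr) (s : ℕ) (β : ℕ) : Bool :=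
  gt (Nat.ble (Nat.succ (dgN s β)) 6) (gt (Nat.ble 9 (dBN β))
    (frcB (fun γ => Bool.rec (motive := fun _ => Bool)
      (gramB (find γ tx) (find β tx) (dm (Nat.add β s)) (dm β))
      (midB (find β tx) (find (Nat.sub 342 β) Tab.TG) (find γ tx) (dm β) (dm (Nat.sub 342 β))
        (dm (Nat.add β s)))
      (Nat.beq (dBN β) 9)) (Nat.sub (Nat.sub 342 β) s)))

/-- **The table of a letter.** -/
theorem letQ_spec (hg : GramSymm HH) (a : Fin 3)
    (h : ∀ β < 343, letQ (trO (tX a)) (sh a) β = true) :
    ∀ β < 343, dg a β < 6 → ∀ t < dm β, ∀ r < dm (β + sh a),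
      xh HH a β r t = ent (find β (trO (tX a))) r t := by
  intro β hβ ha t ht r hr
  have hup := dg_up β hβ a ha
  have hc := dg_compl β hβ a
  have hγ : dg a (342 - β) = 6 - dg a β := by omega
  obtain ⟨hle, -⟩ := dg_facts (342 - β) (by omega) a (by omega)
  have hs : 342 - β - sh a < 343 := by omega
  unfold xh
  by_cases h1 : dB β < 9
  · rw [if_pos h1]
    rfl
  rw [if_neg h1]
  have h2 := h β hβ
  unfold letQ at h2
  have h3 := gt_spec h2 ((ble_iff _ _).2 ha)
  have h4 := gt_spec h3 ((ble_iff _ _).2 (by rw [dBN_eq]; omega))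
  rw [frcB_eq] at h4
  have e2 : 342 - (β + sh a) = 342 - β - sh a := by omega
  have ed1 : dm (342 - β) = dm β := dm_symm β hβ
  by_cases h5 : dB β = 9
  · rw [if_pos h5]
    have h6 : Nat.beq (dBN β) 9 = true := by
      rw [dBN_eq, h5]
      rfl
    rw [h6] at h4
    have h7 : midB (find β (trO (tX a))) (find (342 - β) Tab.TG) (find (342 - β - sh a) (trO (tX a)))
        (dm β) (dm (342 - β)) (dm (β + sh a)) = true := h4
    rw [midB_spec _ _ _ _ _ _ h7 t ht r hr]
    change ∑ l ∈ range (dm (342 - β)), HH.x a (342 - β - sh a) l r * HH.g β l t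
      = ∑ l ∈ range (dm (342 - β)), HH.g (342 - β) t l * HH.x a (342 - β - sh a) l r
    refine sum_congr rfl (fun l hl => ?_)
    rw [hg β hβ h5 l (mem_range.1 hl) t ht, mul_comm]
  · rw [if_neg h5]
    have h6 : Nat.beq (dBN β) 9 = false := by
      cases h7 : Nat.beq (dBN β) 9 with
      | false => rfl
      | true => exact absurd (Nat.eq_of_beq_eq_true h7) h5
    rw [h6] at h4
    have h7 : gramB (find (342 - β - sh a) (trO (tX a))) (find β (trO (tX a))) (dm (β + sh a))
        (dm β) = true := h4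
    exact (gramB_spec _ _ _ _ h7 r hr t ht).symm

/-- the form with natural numbers -/
theorem letQ_mB (hg : GramSymm HH) (a : Fin 3)
    (h : ∀ β < 343, letQ (trO (tX a)) (sh a) β = true) :
    ∀ β < 343, dg a β < 6 → ∀ t < dm β, ∀ r < dm (β + sh a),
      xh HH a β r t = ((TS64.mB (find β (trO (tX a))) r t : ℕ) : ZMod 7) := by
  intro β hβ ha t ht r hr
  rw [letQ_spec hg a h β hβ ha t ht r hr, ent_eq_mB]

end Pool.Agent.Work.MP_bde882_al.Fin8
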