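import Pool.Agent.Work.MP_bde882_al_red.Bch

/-!
Symmetrised products and spans of Lie elements.
-/

set_option autoImplicit false

namespace Pool.Agent.Work.MP_bde882_al.Red

open Finset

section sym

variable {ι A W : Type*} [Ring A] [AddCommGroup W] [Module A W]

/-- sum over all ways to select one entry of a list -/
def sel {R : Type*} [AddCommMonoid R] : List ι → (ι → List ι → R) → R
  | [], _ => 0
  | a :: l, F => F a l + sel l (fun x l' => F x (a :: l'))

/-- the symmetrised product of the first `n` selected operators of the list, applied to `w` -/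
def syn (b : ι → A) (w : W) : ℕ → List ι → W
  | 0, _ => w
  | n + 1, l => sel l (fun x l' => b x • syn b w n l')

theorem sel_congr {R : Type*} [AddCommMonoid R] (l : List ι) (F G : ι → List ι → R)
    (h : ∀ x l', F x l' = G x l') : sel l F = sel l G := by
  have : F = G := by
    funext x l'
    exact h x l'
  rw [this]

theorem sel_perm {R : Type*} [AddCommMonoid R] {l l' : List ι} (h : l.Perm l')
    (F : ι → List ι → R) (hF : ∀ x m m', m.Perm m' → F x m = F x m') : sel l F = sel l' F := by
  induction h generalizing F with
  | nil => rfl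
  | cons a h ih =>
    simp only [sel]
    rw [hF a _ _ h, ih (fun x l' => F x (a :: l'))]
    intro x m m' hm
    exact hF x _ _ (hm.cons a)
  | swap a b l =>
    simp only [sel]
    rw [← add_assoc, ← add_assoc, add_comm (F b (a :: l))]
    congr 1
    refine sel_congr _ _ _ ?_
    intro x m
    exact hF x _ _ (List.Perm.swap a b m)
  | trans _ _ ih1 ih2 => rw [ih1 F hF, ih2 F hF]

theorem syn_perm (b : ι → A) (w : W) (n : ℕ) {l l' : List ι} (h : l.Perm l') :
    syn b w n l = syn b w n l' := by
  induction n generalizing l l' with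
  | zero => rfl
  | succ n ih =>
    simp only [syn]
    refine sel_perm h _ ?_
    intro x m m' hm
    rw [ih hm]

/-- sum over all lists of length `n` over a finite type -/
def sumL [Fintype ι] {R : Type*} [AddCommMonoid R] : ℕ → (List ι → R) → R
  | 0, F => F []
  | n + 1, F => ∑ i, sumL n (fun l => F (i :: l))

theorem sumL_zero [Fintype ι] {R : Type*} [AddCommMonoid R] (n : ℕ) (F : List ι → R)
    (h : ∀ l, l.length = n → F l = 0) : sumL n F = 0 := by
  induction n generalizing F with
  | zero => exact h [] rfl
  | succ n ih =>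
    simp only [sumL]
    refine sum_eq_zero ?_
    intro i _
    refine ih _ ?_
    intro l hl
    exact h _ (by rw [List.length_cons, hl])

theorem sumL_congr [Fintype ι] {R : Type*} [AddCommMonoid R] (n : ℕ) (F G : List ι → R)
    (h : ∀ l, l.length = n → F l = G l) : sumL n F = sumL n G := by
  induction n generalizing F G with
  | zero => exact h [] rfl
  | succ n ih =>
    simp only [sumL]
    refine sum_congr rfl ?_
    intro i _
    refine ih _ _ ?_
    intro l hl
    exact h _ (by rw [List.length_cons, hl])

theorem sumL_add [Fintype ι] {R : Type*} [AddCommMonoid R] (n : ℕ) (F G : List ι → R) :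
    sumL n (fun l => F l + G l) = sumL n F + sumL n G := by
  induction n generalizing F G with
  | zero => rfl
  | succ n ih => simp only [sumL, ih, sum_add_distrib]

theorem sumL_hom [Fintype ι] {R R' : Type*} [AddCommMonoid R] [AddCommMonoid R'] (φ : R →+ R')
    (n : ℕ) (F : List ι → R) : φ (sumL n F) = sumL n (fun l => φ (F l)) := by
  induction n generalizing F with
  | zero => rfl
  | succ n ih => simp only [sumL, map_sum, ih]

theorem sumL_comm [Fintype ι] {R : Type*} [AddCommMonoid R] {κ : Type*} (s : Finset κ) (n : ℕ)
    (F : κ → List ι → R) : sumL n (fun l => ∑ k ∈ s, F k l) = ∑ k ∈ s, sumL n (F k) := by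
  induction n generalizing F with
  | zero => rfl
  | succ n ih =>
    simp only [sumL, ih]
    rw [sum_comm]

/-- selecting one entry of all lists of length `n + 1` -/
theorem sumL_sel [Fintype ι] {R : Type*} [AddCommMonoid R] (n : ℕ) (F : ι → List ι → R) :
    sumL (n + 1) (fun l => sel l F) = (n + 1) • ∑ i, sumL n (F i) := by
  induction n generalizing F with
  | zero => simp [sumL, sel]
  | succ n ih =>
    have h1 : sumL (n + 1 + 1) (fun l => sel l F)
        = ∑ i, (sumL (n + 1) (fun l => F i l) + sumL (n + 1) (fun l => sel l (fun x l' => F x (i :: l')))) := by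
      simp only [sumL, sel, sum_add_distrib, sumL_add]
    rw [h1, sum_add_distrib]
    have h2 : ∑ i, sumL (n + 1) (fun l => sel l (fun x l' => F x (i :: l')))
        = (n + 1) • ∑ i, sumL (n + 1) (F i) := by
      have h3 : ∀ i, sumL (n + 1) (fun l => sel l (fun x l' => F x (i :: l')))
          = (n + 1) • ∑ x, sumL n (fun l' => F x (i :: l')) := fun i => ih _
      rw [sum_congr rfl (fun i _ => h3 i), ← smul_sum, sum_comm]
      rfl
    rw [h2, ← succ_nsmul', add_comm]

variable {p : ℕ} [Algebra (ZMod p) A] [Module (ZMod p) W] [IsScalarTower (ZMod p) A W]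

theorem smul_sel {S R : Type*} [AddCommMonoid R] [DistribSMul S R] (l : List ι)
    (H : ι → List ι → R) (r : S) : r • sel l H = sel l (fun x l' => r • H x l') := by
  induction l generalizing H with
  | nil => simp [sel]
  | cons y l ih3 => simp only [sel, smul_add, ih3]

theorem prod_smul_sel {S R : Type*} [CommSemiring S] [AddCommMonoid R] [Module S R] (c : ι → S)
    (l : List ι) (G : ι → List ι → R) :
    (l.map c).prod • sel l G = sel l (fun x l' => ((l'.map c).prod * c x) • G x l') := by
  induction l generalizing G with
  | nil => simp [sel]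
  | cons a l ih2 =>
    simp only [sel, List.map_cons, List.prod_cons]
    rw [smul_add, mul_comm (c a)]
    congr 1
    rw [mul_comm, mul_smul, ih2, smul_sel]
    refine sel_congr _ _ _ ?_
    intro x l'
    rw [smul_smul]
    congr 1
    ring

theorem sumL_syn [Fintype ι] (b : ι → A) (w : W) (c : ι → ZMod p) (n : ℕ) :
    sumL n (fun l => (l.map c).prod • syn b w n l) = (n.factorial : ZMod p) • (∑ i, c i • b i) ^ n • w := by
  induction n with
  | zero => simp [sumL, syn]
  | succ n ih =>
    have h1 : ∀ l : List ι, (l.map c).prod • syn b w (n + 1) l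
        = sel l (fun x l' => ((l'.map c).prod * c x) • b x • syn b w n l') :=
      fun l => prod_smul_sel c l _
    rw [sumL_congr _ _ _ (fun l _ => h1 l), sumL_sel]
    have h2 : ∀ i, sumL n (fun l' => ((l'.map c).prod * c i) • b i • syn b w n l')
        = (c i • b i) • sumL n (fun l' => (l'.map c).prod • syn b w n l') := by
      intro i
      have h5 : ∀ x : W, (c i • b i) • x = (DistribSMul.toAddMonoidHom W (c i • b i)) x := fun x => rfl
      rw [h5, sumL_hom]
      refine sumL_congr _ _ _ ?_
      intro l' _
      rw [← h5, smul_assoc, mul_comm, mul_smul]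
      congr 1
      rw [smul_comm]
    rw [sum_congr rfl (fun i _ => h2 i), ← sum_smul, ih, Nat.factorial_succ, pow_succ', mul_smul,
      smul_comm (∑ i, c i • b i), ← Nat.cast_smul_eq_nsmul (ZMod p), smul_smul]
    push_cast
    rfl

/-- the `(p-1)`-st powers of all elements of the span kill `w` as soon as the symmetrised products
of sorted lists of generators do -/
theorem pow_smul_eq_zero [Fact p.Prime] [Fintype ι] [LinearOrder ι] (b : ι → A) (w : W)
    (hs : ∀ l : List ι, l.length = p - 1 → l.Pairwise (· ≤ ·) → syn b w (p - 1) l = 0) :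
    ∀ z ∈ Submodule.span (ZMod p) (Set.range b), z ^ (p - 1) • w = 0 := by
  intro z hz
  obtain ⟨c, rfl⟩ := (Submodule.mem_span_range_iff_exists_fun (ZMod p)).1 hz
  have h1 := sumL_syn (p := p) b w c (p - 1)
  have h2 : sumL (p - 1) (fun l => (l.map c).prod • syn b w (p - 1) l) = 0 := by
    refine sumL_zero _ _ ?_
    intro l hl
    have h3 : syn b w (p - 1) l = 0 := by
      rw [← syn_perm b w (p - 1) (List.perm_insertionSort (· ≤ ·) l)]
      refine hs _ ?_ (List.pairwise_insertionSort _ l)
      rw [(List.perm_insertionSort (· ≤ ·) l).length_eq, hl]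
    rw [h3, smul_zero]
  rw [h2] at h1
  have h4 : (((p - 1).factorial : ℕ) : ZMod p) ≠ 0 :=
    fi_ne (Nat.sub_lt (Fact.out : p.Prime).pos one_pos)
  exact (smul_eq_zero_iff_right h4).1 h1.symm

theorem span_le_closure [NeZero p] (S : Set A) (x : A) (hx : x ∈ Submodule.span (ZMod p) S) :
    x ∈ AddSubgroup.closure S := by
  induction hx using Submodule.span_induction with
  | mem x h => exact AddSubgroup.subset_closure h
  | zero => exact AddSubgroup.zero_mem _
  | add x y _ _ h1 h2 => exact AddSubgroup.add_mem _ h1 h2
  | smul c x _ h =>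
    have : c • x = c.val • x := by
      conv_lhs => rw [← ZMod.natCast_zmod_val c]
      rw [Nat.cast_smul_eq_nsmul]
    rw [this]
    exact AddSubgroup.nsmul_mem _ h _

/-- the adjoint map -/
def adL (p : ℕ) {A : Type*} [Ring A] [Algebra (ZMod p) A] (x : A) : A →ₗ[ZMod p] A :=
  LinearMap.mulLeft (ZMod p) x - LinearMap.mulRight (ZMod p) x

theorem adL_apply (x z : A) : adL p x z = x * z - z * x := rfl

/-- **Closure.**  A span of iterated brackets of letters that is stable under the brackets with the
letters is closed under brackets. -/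
theorem bracket_mem {κ : Type*} (X : κ → A) (b : ℕ → A) (n : ℕ) (M : Submodule (ZMod p) A)
    (hM : M ≤ Submodule.span (ZMod p) (b '' {k | k < n}))
    (hgen : ∀ k < n, (∃ i, b k = X i) ∨ ∃ i, ∃ m < k, b k = X i * b m - b m * X i)
    (hX : ∀ i, ∀ k < n, X i * b k - b k * X i ∈ M) :
    ∀ k < n, ∀ j < n, b k * b j - b j * b k ∈ M := by
  have hext : ∀ x : A, (∀ j < n, x * b j - b j * x ∈ M) → ∀ z ∈ M, x * z - z * x ∈ M := by
    intro x hx z hz
    have h1 : Submodule.span (ZMod p) (b '' {k | k < n}) ≤ M.comap (adL p x) := by
      rw [Submodule.span_le]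
      rintro _ ⟨j, hj, rfl⟩
      exact hx j hj
    exact h1 (hM hz)
  intro k
  induction k using Nat.strong_induction_on with
  | _ k ih =>
    intro hk j hj
    rcases hgen k hk with ⟨i, hi⟩ | ⟨i, m, hm, hi⟩
    · rw [hi]
      exact hX i j hj
    · have h1 : X i * (b m * b j - b j * b m) - (b m * b j - b j * b m) * X i ∈ M :=
        hext _ (hX i) _ (ih m hm (hm.trans hk) j hj)
      have h2 : b m * (X i * b j - b j * X i) - (X i * b j - b j * X i) * b m ∈ M :=
        hext _ (ih m hm (hm.trans hk)) _ (hX i j hj)
      have e : b k * b j - b j * b k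
          = (X i * (b m * b j - b j * b m) - (b m * b j - b j * b m) * X i)
            - (b m * (X i * b j - b j * X i) - (X i * b j - b j * X i) * b m) := by
        rw [hi]
        noncomm_ring
      rw [e]
      exact M.sub_mem h1 h2

/-- **Assembly.**  Criterion for the multilinear parts of `(g - 1) ^ (p - 1)` on all lists of
letters. -/
theorem cop_letters [Fact p.Prime] {κ : Type*} (n : ℕ) (X : κ → A) (b : Fin n → A) (w : W)
    (good : Set (Fin n)) (let_ : κ → Fin n) (hlet : ∀ i, b (let_ i) = X i)
    (hbr : ∀ i j, b i * b j - b j * b i ∈ Submodule.span (ZMod p) (b '' good))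
    (hsym : ∀ l : List (Fin n), l.length = p - 1 → l.Pairwise (· ≤ ·) → syn b w (p - 1) l = 0)
    (E : List (Fin n) → W) (hE : ∀ l l' : List (Fin n), l.Perm l' → E l = E l')
    (hEgood : ∀ l₁ l₂ k, k ∈ good → E (l₁ ++ k :: l₂) = 0)
    (hElen : ∀ l : List (Fin n), l.length < 2 * (p - 1) → E l = 0)
    (hlong : ∀ l : List (Fin n), 2 * (p - 1) ≤ l.length → l.Pairwise (· ≤ ·) →
      cop p w (l.map b) = E l) (v : List κ) :
    cop p w (v.map X) = E (v.map let_) := by
  have hL : ∀ x ∈ Submodule.span (ZMod p) (Set.range b), ∀ y ∈ Submodule.span (ZMod p) (Set.range b),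
      x * y - y * x ∈ Submodule.span (ZMod p) (Set.range b) := by
    intro x hx y hy
    have h1 : Submodule.span (ZMod p) (Set.range b)
        ≤ (Submodule.span (ZMod p) (Set.range b)).comap (adL p x) := by
      rw [Submodule.span_le]
      rintro _ ⟨j, rfl⟩
      change x * b j - b j * x ∈ Submodule.span (ZMod p) (Set.range b)
      have h2 : Submodule.span (ZMod p) (Set.range b)
          ≤ (Submodule.span (ZMod p) (Set.range b)).comap (adL p (b j)) := by
        rw [Submodule.span_le]
        rintro _ ⟨i, rfl⟩
        exact Submodule.span_mono (Set.image_subset_range _ _) (hbr j i)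
      have h3 : b j * x - x * b j ∈ Submodule.span (ZMod p) (Set.range b) := h2 hx
      have h4 := Submodule.neg_mem _ h3
      rwa [neg_sub] at h4
    exact h1 hy
  have hp := (Fact.out : p.Prime).two_le
  have hpow := pow_smul_eq_zero b w hsym
  have h := cop_of_sorted p w b (· ∈ good) E hE hEgood
    (fun i j => span_le_closure (p := p) _ _ (hbr i j)) ?_ (v.map let_)
  · rw [← h, List.map_map]
    congr 1
    refine List.map_congr_left ?_
    intro i _
    exact (hlet i).symm
  · intro l hl
    by_cases hlen : l.length < 2 * (p - 1)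
    · rw [hElen l hlen]
      refine cop_eq_zero_of_pow w _ hL hpow _ ?_ (by rw [List.length_map]; exact hlen)
      intro z hz
      rw [List.mem_map] at hz
      obtain ⟨k, _, rfl⟩ := hz
      exact Submodule.subset_span ⟨k, rfl⟩
    · exact hlong l (not_lt.1 hlen) hl

end sym

end Pool.Agent.Work.MP_bde882_al.Red
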