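import Pool.Agent.Work.MP_bde882_al_red.Sur

/-!
Rearrangement sums of products of operators: reduction from lists of letters to sorted lists of
Lie elements.
-/

set_option autoImplicit false

namespace Pool.Agent.Work.MP_bde882_al.Red

open Finset

section ops

variable {A W : Type*} [Ring A] [AddCommGroup W] [Module A W]

/-- block-wise recursion with prefixes -/
def arrB (w : W) : List A → List A → W
  | [], [] => w
  | [], _ :: _ => 0
  | a :: as, zs => splitS zs (fun s t => (a * s.prod) • arrB w as t)

/-- multiply one of the entries of the list by `z` on the right and sum -/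
def sumUpd : List A → A → (List A → W) → W
  | [], _, _ => 0
  | a :: as, z, F => F ((a * z) :: as) + sumUpd as z (fun as' => F (a :: as'))

theorem arr_eq_arrB (w : W) (m : ℕ) (zs : List A) :
    arr m zs (fun r => r.prod • w) = arrB w (List.replicate m 1) zs := by
  induction m generalizing zs with
  | zero =>
    cases zs with
    | nil => simp [arr, arrB]
    | cons a zs => simp [arr, arrB]
  | succ m ih =>
    rw [List.replicate_succ]
    simp only [arr, arrB]
    refine splitS_congr' _ _ _ ?_
    intro s t
    have h1 : (fun r : List A => (s ++ r).prod • w) = fun r => s.prod • (r.prod • w) := by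
      funext r
      rw [List.prod_append, mul_smul]
    rw [h1, arr_smul, ih, one_mul]

theorem sumUpd_sub (as : List A) (z : A) (F G : List A → W) :
    sumUpd as z (fun l => F l - G l) = sumUpd as z F - sumUpd as z G := by
  induction as generalizing F G with
  | nil => simp [sumUpd]
  | cons a as ih =>
    simp only [sumUpd, ih]
    abel

theorem sumUpd_add (as : List A) (z : A) (F G : List A → W) :
    sumUpd as z (fun l => F l + G l) = sumUpd as z F + sumUpd as z G := by
  induction as generalizing F G with
  | nil => simp [sumUpd]
  | cons a as ih =>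
    simp only [sumUpd, ih]
    abel

theorem arrB_cons (w : W) (as : List A) (z : A) (zs : List A) :
    arrB w as (z :: zs) = sumUpd as z (fun as' => arrB w as' zs) := by
  induction as generalizing z zs with
  | nil => rfl
  | cons a as ih =>
    simp only [arrB, splitS, sumUpd, List.prod_cons]
    congr 1
    · refine splitS_congr' _ _ _ ?_
      intro s t
      rw [mul_assoc]
    · have h1 : ∀ s t : List A, (a * s.prod) • arrB w as (z :: t)
          = sumUpd as z (fun as' => (a * s.prod) • arrB w as' t) := by
        intro s t
        rw [ih]
        have h2 : ∀ (as : List A) (F : List A → W) (c : A),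
            c • sumUpd as z F = sumUpd as z (fun l => c • F l) := by
          intro as
          induction as with
          | nil => intro F c; simp [sumUpd]
          | cons b as ih2 =>
            intro F c
            simp only [sumUpd, smul_add, ih2]
        rw [h2]
      rw [splitS_congr' _ _ _ h1]
      have h3 : ∀ (as : List A) (zs : List A) (F : List A → List A → List A → W),
          splitS zs (fun s t => sumUpd as z (fun as' => F as' s t))
            = sumUpd as z (fun as' => splitS zs (fun s t => F as' s t)) := by
        intro as
        induction as with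
        | nil => intro zs F; simp [sumUpd, splitS_zero]
        | cons b as ih3 =>
          intro zs F
          simp only [sumUpd, splitS_add]
          rw [ih3 zs (fun as' => F (b :: as'))]
      rw [h3]

/-- additivity in every entry -/
def MA (F : List A → W) : Prop :=
  ∀ (l₁ l₂ : List A) (b c : A), F (l₁ ++ (b - c) :: l₂) = F (l₁ ++ b :: l₂) - F (l₁ ++ c :: l₂)

theorem MA_cons {F : List A → W} (h : MA F) (a : A) : MA (fun l => F (a :: l)) := by
  intro l₁ l₂ b c
  exact h (a :: l₁) l₂ b c

theorem splitS_sub' {R : Type*} [AddCommGroup R] {I : Type*} (L : List I)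
    (G H : List I → List I → R) :
    splitS L (fun s t => G s t - H s t) = splitS L G - splitS L H := by
  induction L generalizing G H with
  | nil => rfl
  | cons a L ih =>
    simp only [splitS, ih]
    abel

theorem arrB_MA (w : W) (zs : List A) : MA (fun as => arrB w as zs) := by
  intro l₁
  induction l₁ generalizing zs with
  | nil =>
    intro l₂ b c
    simp only [List.nil_append, arrB]
    rw [← splitS_sub']
    refine splitS_congr' _ _ _ ?_
    intro s t
    rw [sub_mul, sub_smul]
  | cons a l₁ ih =>
    intro l₂ b c
    simp only [List.cons_append, arrB]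
    rw [← splitS_sub']
    refine splitS_congr' _ _ _ ?_
    intro s t
    have := ih t l₂ b c
    simp only at this
    rw [this, smul_sub]

theorem sumUpd_swap (as : List A) (x y : A) (F : List A → W) (hF : MA F) :
    sumUpd as x (fun as' => sumUpd as' y F)
      = sumUpd as y (fun as' => sumUpd as' x F) + sumUpd as (x * y - y * x) F := by
  induction as generalizing F with
  | nil => simp [sumUpd]
  | cons a as ih =>
    simp only [sumUpd, sumUpd_add]
    rw [ih _ (MA_cons hF a)]
    have h1 := hF [] as (a * (x * y)) (a * (y * x))
    simp only [List.nil_append] at h1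
    have h2 : a * (x * y - y * x) = a * (x * y) - a * (y * x) := mul_sub _ _ _
    rw [h2, h1, ← mul_assoc a x y, ← mul_assoc a y x]
    abel

theorem arrB_swap (w : W) (as l₁ l₂ : List A) (x y : A) :
    arrB w as (l₁ ++ x :: y :: l₂)
      = arrB w as (l₁ ++ y :: x :: l₂) + arrB w as (l₁ ++ (x * y - y * x) :: l₂) := by
  induction l₁ generalizing as with
  | nil =>
    simp only [List.nil_append]
    rw [arrB_cons, arrB_cons w as y, arrB_cons w as (x * y - y * x)]
    have h1 : (fun as' => arrB w as' (y :: l₂)) = fun as' => sumUpd as' y (fun as'' => arrB w as'' l₂) := by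
      funext as'
      rw [arrB_cons]
    have h2 : (fun as' => arrB w as' (x :: l₂)) = fun as' => sumUpd as' x (fun as'' => arrB w as'' l₂) := by
      funext as'
      rw [arrB_cons]
    rw [h1, h2]
    exact sumUpd_swap as x y _ (arrB_MA w l₂)
  | cons z l₁ ih =>
    simp only [List.cons_append]
    rw [arrB_cons, arrB_cons w as z (l₁ ++ y :: x :: l₂), arrB_cons w as z (l₁ ++ (x * y - y * x) :: l₂),
      ← sumUpd_add]
    congr 1
    funext as'
    exact ih as'

theorem sumUpd_arg_add (as : List A) (x y : A) (F : List A → W) (hF : MA F) :
    sumUpd as (x - y) F = sumUpd as x F - sumUpd as y F := by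
  induction as generalizing F with
  | nil => simp [sumUpd]
  | cons a as ih =>
    simp only [sumUpd]
    rw [ih _ (MA_cons hF a)]
    have h1 := hF [] as (a * x) (a * y)
    simp only [List.nil_append] at h1
    rw [mul_sub, h1]
    abel

theorem arrB_sub (w : W) (as l₁ l₂ : List A) (x y : A) :
    arrB w as (l₁ ++ (x - y) :: l₂)
      = arrB w as (l₁ ++ x :: l₂) - arrB w as (l₁ ++ y :: l₂) := by
  induction l₁ generalizing as with
  | nil =>
    simp only [List.nil_append]
    rw [arrB_cons, arrB_cons w as x, arrB_cons w as y]
    exact sumUpd_arg_add as x y _ (arrB_MA w l₂)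
  | cons z l₁ ih =>
    simp only [List.cons_append]
    rw [arrB_cons, arrB_cons w as z (l₁ ++ x :: l₂), arrB_cons w as z (l₁ ++ y :: l₂), ← sumUpd_sub]
    congr 1
    funext as'
    exact ih as'

/-- the multilinear part of `(g - 1) ^ (p - 1)` for a list of operators, applied to `w` -/
def cop (p : ℕ) (w : W) (zs : List A) : W := csum p zs (fun r => r.prod • w)

theorem cop_eq (p : ℕ) (w : W) (zs : List A) :
    cop p w zs = ∑ m ∈ range p, arrB w (List.replicate m 1) zs := by
  unfold cop csum
  refine sum_congr rfl ?_
  intro m _
  rw [arr_eq_arrB]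

theorem cop_swap (p : ℕ) (w : W) (l₁ l₂ : List A) (x y : A) :
    cop p w (l₁ ++ x :: y :: l₂)
      = cop p w (l₁ ++ y :: x :: l₂) + cop p w (l₁ ++ (x * y - y * x) :: l₂) := by
  simp only [cop_eq, ← sum_add_distrib]
  refine sum_congr rfl ?_
  intro m _
  exact arrB_swap _ _ _ _ _ _

theorem cop_sub (p : ℕ) (w : W) (l₁ l₂ : List A) (x y : A) :
    cop p w (l₁ ++ (x - y) :: l₂) = cop p w (l₁ ++ x :: l₂) - cop p w (l₁ ++ y :: l₂) := by
  simp only [cop_eq, ← sum_sub_distrib]
  refine sum_congr rfl ?_
  intro m _
  exact arrB_sub _ _ _ _ _ _

/-- `cop` as an additive map in one entry -/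
def copHom (p : ℕ) (w : W) (l₁ l₂ : List A) : A →+ W :=
  AddMonoidHom.ofMapSub (fun x => cop p w (l₁ ++ x :: l₂)) (fun x y => cop_sub p w l₁ l₂ x y)

theorem copHom_apply (p : ℕ) (w : W) (l₁ l₂ : List A) (x : A) :
    copHom p w l₁ l₂ x = cop p w (l₁ ++ x :: l₂) := rfl

/-- **Sorting.**  If the rearrangement sum is known for sorted lists of basis elements of a Lie
ring of operators, it is known for all lists. -/
theorem cop_of_sorted {ι : Type*} [LinearOrder ι] (p : ℕ) (w : W) (b : ι → A) (good : ι → Prop)
    (E : List ι → W) (hE : ∀ l l' : List ι, l.Perm l' → E l = E l')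
    (hgood : ∀ l₁ l₂ k, good k → E (l₁ ++ k :: l₂) = 0)
    (hbr : ∀ i j, b i * b j - b j * b i ∈ AddSubgroup.closure (b '' {k | good k}))
    (hsort : ∀ l : List ι, l.Pairwise (· ≤ ·) → cop p w (l.map b) = E l) :
    ∀ l : List ι, cop p w (l.map b) = E l := by
  intro l
  induction hn : l.length using Nat.strong_induction_on generalizing l with
  | _ n ih =>
    -- zero on shorter lists with a bracket entry
    have hzero : ∀ (l₁ l₂ : List ι) (x : A), x ∈ AddSubgroup.closure (b '' {k | good k}) →
        l₁.length + l₂.length + 1 < n → cop p w (l₁.map b ++ x :: l₂.map b) = 0 := by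
      intro l₁ l₂ x hx hlen
      have hle : AddSubgroup.closure (b '' {k | good k})
          ≤ (copHom p w (l₁.map b) (l₂.map b)).ker := by
        rw [AddSubgroup.closure_le]
        rintro _ ⟨k, hk, rfl⟩
        change copHom p w (l₁.map b) (l₂.map b) (b k) = 0
        rw [copHom_apply]
        have h1 := ih (l₁ ++ k :: l₂).length (by
          rw [List.length_append, List.length_cons]; omega) (l₁ ++ k :: l₂) rfl
        rw [List.map_append, List.map_cons] at h1
        rw [h1, hgood _ _ _ hk]
      exact hle hx
    have hswap : ∀ (l₁ l₂ : List ι) (i j : ι), (l₁ ++ i :: j :: l₂).length = n →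
        cop p w ((l₁ ++ i :: j :: l₂).map b) = cop p w ((l₁ ++ j :: i :: l₂).map b) := by
      intro l₁ l₂ i j hlen
      rw [List.map_append, List.map_cons, List.map_cons, List.map_append, List.map_cons,
        List.map_cons, cop_swap, hzero l₁ l₂ _ (hbr i j) ?_, add_zero]
      rw [List.length_append, List.length_cons, List.length_cons] at hlen
      omega
    have hperm : ∀ l l' : List ι, l.Perm l' → ∀ pre : List ι, (pre ++ l).length = n →
        cop p w ((pre ++ l).map b) = cop p w ((pre ++ l').map b) := by
      intro l l' hll'
      induction hll' with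
      | nil => intro pre _; rfl
      | cons x _ ih2 =>
        intro pre hlen
        have := ih2 (pre ++ [x]) (by simpa using hlen)
        simpa using this
      | swap x y l => intro pre hlen; exact hswap pre l y x hlen
      | trans h1 _ ih2 ih3 =>
        intro pre hlen
        rw [ih2 pre hlen, ih3 pre (by
          rw [← hlen, List.length_append, List.length_append, h1.length_eq])]
    have h1 := hperm l (l.insertionSort (· ≤ ·)) (List.perm_insertionSort _ l).symm [] (by
      simpa using hn)
    simp only [List.nil_append] at h1
    rw [h1, hsort _ (List.pairwise_insertionSort _ l)]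
    exact hE _ _ (List.perm_insertionSort _ l)

end ops

end Pool.Agent.Work.MP_bde882_al.Red
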