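import Pool.Agent.Work.MP_bde882_al_red.Crit

/-!
Rearrangements with non-empty blocks, the module form of the criterion, and lists of operators.
-/

set_option autoImplicit false

namespace Pool.Agent.Work.MP_bde882_al.Red

open Finset

section sur

variable {I R : Type*} [AddCommMonoid R]

/-- Sum of `Φ` over all `m`-fold rearrangements with `m` non-empty blocks. -/
def sur : ℕ → List I → (List I → R) → R
  | 0, [], Φ => Φ []
  | 0, _ :: _, _ => 0
  | m + 1, t, Φ => splitS t (fun s t' => match s with
      | [] => 0
      | a :: s => sur m t' (fun r => Φ (a :: s ++ r)))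

theorem splitS_nil_left (t : List I) (G : List I → List I → R) :
    splitS t G = G [] t + splitS t (fun s t' => match s with
      | [] => 0
      | a :: s => G (a :: s) t') := by
  induction t generalizing G with
  | nil => simp [splitS]
  | cons a t ih =>
    simp only [splitS]
    rw [ih (fun s t' => G s (a :: t'))]
    abel

theorem splitS_sum {ι : Type*} (T : Finset ι) (L : List I) (G : ι → List I → List I → R) :
    splitS L (fun s t => ∑ i ∈ T, G i s t) = ∑ i ∈ T, splitS L (G i) := by
  classical
  induction T using Finset.induction_on with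
  | empty => simp [splitS_zero]
  | insert i T hi ih => simp only [Finset.sum_insert hi, splitS_add, ih]

theorem splitS_congr' (L : List I) (G H : List I → List I → R)
    (h : ∀ s t, G s t = H s t) : splitS L G = splitS L H :=
  splitS_congr L G H (fun s t _ => h s t)

theorem arr_eq_sur (m : ℕ) (t : List I) (Φ : List I → R) :
    arr m t Φ = ∑ r ∈ range (m + 1), m.choose r • sur r t Φ := by
  induction m generalizing t Φ with
  | zero =>
    cases t with
    | nil => simp [arr, sur]
    | cons a t => simp [arr, sur]
  | succ m ih =>
    simp only [arr]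
    rw [splitS_nil_left]
    have h1 : splitS t (fun s t' => match s with
        | [] => (0 : R)
        | a :: s => arr m t' (fun r => Φ (a :: s ++ r)))
        = ∑ r ∈ range (m + 1), m.choose r • sur (r + 1) t Φ := by
      have h2 : ∀ s t' : List I, (match s with
        | [] => (0 : R)
        | a :: s => arr m t' (fun r => Φ (a :: s ++ r)))
        = ∑ r ∈ range (m + 1), m.choose r • (match s with
        | [] => (0 : R)
        | a :: s => sur r t' (fun r => Φ (a :: s ++ r))) := by
        intro s t'
        cases s with
        | nil => simp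
        | cons a s => exact ih t' (fun r => Φ (a :: s ++ r))
      rw [splitS_congr' t _ _ h2, splitS_sum]
      refine sum_congr rfl ?_
      intro r _
      rw [splitS_smul]
      rfl
    rw [h1]
    simp only [List.nil_append]
    rw [ih t Φ, sum_range_succ' (fun r => (m + 1).choose r • sur r t Φ) (m + 1)]
    simp only [Nat.choose_succ_succ, Nat.choose_zero_right, add_smul, sum_add_distrib, one_smul]
    rw [sum_range_succ (fun x => m.choose (x + 1) • sur (x + 1) t Φ) m,
      Nat.choose_succ_self, zero_smul, add_zero,
      sum_range_succ' (fun r => m.choose r • sur r t Φ) m, Nat.choose_zero_right, one_smul]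
    abel

theorem sum_choose (n r : ℕ) : ∑ m ∈ range n, m.choose r = n.choose (r + 1) := by
  induction n with
  | zero => simp
  | succ n ih => rw [sum_range_succ, ih, Nat.choose_succ_succ, add_comm]

theorem csum_eq_sur {p : ℕ} (hp : p.Prime) (hR : ∀ x : R, p • x = 0) (t : List I)
    (Φ : List I → R) : csum p t Φ = sur (p - 1) t Φ := by
  unfold csum
  have h1 : ∀ m ∈ range p, arr m t Φ = ∑ r ∈ range p, m.choose r • sur r t Φ := by
    intro m hm
    rw [arr_eq_sur]
    refine sum_subset ?_ ?_
    · intro r hr
      rw [mem_range] at hr hm ⊢
      omega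
    · intro r _ hr2
      rw [mem_range, not_lt] at hr2
      rw [Nat.choose_eq_zero_of_lt (by omega), zero_smul]
  rw [sum_congr rfl h1, sum_comm]
  have h2 : ∀ r ∈ range p, ∑ m ∈ range p, m.choose r • sur r t Φ
      = p.choose (r + 1) • sur r t Φ := by
    intro r _
    rw [← sum_smul, sum_choose]
  rw [sum_congr rfl h2]
  obtain ⟨n, rfl⟩ : ∃ n, p = n + 1 := ⟨p - 1, by have := hp.pos; omega⟩
  rw [sum_range_succ, Nat.choose_self, one_smul, Nat.add_sub_cancel]
  rw [sum_eq_zero, zero_add]
  intro r hr
  rw [mem_range] at hr
  obtain ⟨k, hk⟩ := hp.dvd_choose_self (k := r + 1) (by omega) (by omega)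
  rw [hk, mul_smul, hR]

end sur

end Pool.Agent.Work.MP_bde882_al.Red
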