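import Pool.Agent.Work.MP_bde882_al_h87.Model

/-!
Packed products with blocks of the tables, and comparison of a matrix with a transposed matrix.
-/

set_option autoImplicit false

namespace Pool.Agent.Work.MP_bde882_al.Fin8

open Finset
open Pool.Agent.Work.MP_bde882_al.Pk
open Pool.Agent.Work.MP_bde882_al.Pg62 (Tr Op Blk find tmask mdl frc frc_eq)
open Pool.Agent.Work.MP_bde882_al.H87 (wcut wcut_spec dig dig_lt shl_eq shr_eq land_eq ent ent_mk
  ent_slot)

/-! ### masks -/

theorem geo_div (t n : ℕ) (ht : 0 < t) : (2 ^ (t * n) - 1) / (2 ^ t - 1) = lanes t (fun _ => 1) n := by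
  have h1 := lanes_const_eq t 1 n
  rw [one_mul] at h1
  have h2 : 0 < 2 ^ t - 1 := by
    have : 1 < 2 ^ t := Nat.one_lt_two_pow (by omega)
    omega
  rw [← h1, Nat.mul_div_cancel _ h2]

theorem tmask_eq (W K N : ℕ) (hW : 0 < W) (hK : 1 ≤ K) : tmask W K N = topMask W K N := by
  have h0 : tmask W K N = (2 ^ W - 1) * ((2 ^ (W * (K * N)) - 1) / (2 ^ (W * K) - 1))
      * 2 ^ (W * (K - 1)) := by
    unfold tmask
    rw [shl_eq]
    rfl
  have h1 : W * (K * N) = W * K * N := by ring
  rw [h0, h1, geo_div _ _ (Nat.mul_pos hW hK)]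
  unfold topMask
  rw [show (2 ^ W - 1) * lanes (W * K) (fun _ => 1) N * 2 ^ (W * (K - 1))
    = ((2 ^ W - 1) * 2 ^ (W * (K - 1))) * lanes (W * K) (fun _ => 1) N by ring, lanes_const_mul]
  refine lanes_congr _ (fun i _ => ?_)
  rw [mul_one, Nat.sub_mul, one_mul, ← pow_add]
  congr 2
  obtain ⟨q, rfl⟩ : ∃ q, K = q + 1 := ⟨K - 1, by omega⟩
  simp only [Nat.add_sub_cancel]
  ring

theorem mdl_eq (W N : ℕ) : mdl W N = 2 ^ (W * N) - 1 := rfl

/-- mask of the high three bits of `n` lanes -/
def hmW (W n : ℕ) : ℕ :=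
  Nat.mul (Nat.sub (Nat.pow 2 W) (Nat.pow 2 (Nat.sub W 3)))
    (Nat.div (Nat.sub (Nat.pow 2 (Nat.mul W n)) 1) (Nat.sub (Nat.pow 2 W) 1))

theorem hmW_eq (W n : ℕ) (hW : 0 < W) : hmW W n = lanes W (fun _ => 2 ^ W - 2 ^ (W - 3)) n := by
  have h0 : hmW W n = (2 ^ W - 2 ^ (W - 3)) * ((2 ^ (W * n) - 1) / (2 ^ W - 1)) := rfl
  rw [h0, geo_div _ _ hW, lanes_const_mul]
  exact lanes_congr _ (fun _ _ => mul_one _)

/-- zero test on `n` lanes -/
def ztW (W n y : ℕ) : Bool :=
  Nat.rec (motive := fun _ => Bool) true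
    (fun y' _ => Bool.rec (motive := fun _ => Bool) false
      (Nat.beq (Nat.land (Nat.div (Nat.succ y') 7) (hmW W n)) 0)
      (Nat.beq (Nat.mod (Nat.succ y') 7) 0)) y

theorem ztW_spec {W n b y : ℕ} {v : ℕ → ZMod 7} (hy : Rep W n b y v) (hW : 3 ≤ W)
    (hb : b < 2 ^ W) (h : ztW W n y = true) : ∀ t < n, v t = 0 := by
  refine hy.eq_zero hW hb ?_
  rw [← hmW_eq W n (by omega)]
  unfold ztest
  cases y with
  | zero =>
    rw [Bool.and_eq_true]
    refine ⟨rfl, ?_⟩
    have : Nat.land (Nat.div 0 7) (hmW W n) = 0 := by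
      change (0 / 7) &&& _ = 0
      simp
    rw [this]
    rfl
  | succ y' =>
    have h' : Bool.rec (motive := fun _ => Bool) false
      (Nat.beq (Nat.land (Nat.div (Nat.succ y') 7) (hmW W n)) 0)
      (Nat.beq (Nat.mod (Nat.succ y') 7) 0) = true := h
    rw [Bool.and_eq_true]
    cases h1 : Nat.beq (Nat.mod (Nat.succ y') 7) 0 with
    | false =>
      rw [h1] at h'
      exact absurd h' (by simp)
    | true =>
      rw [h1] at h'
      exact ⟨rfl, h'⟩

/-! ### blocks -/

/-- conditions on a block with `k` columns and `r` rows -/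
def Good (b : Blk) (k r : ℕ) : Prop :=
  match b with
  | Blk.no => True
  | Blk.mk K N _ _ => 1 ≤ K ∧ k ≤ K ∧ r ≤ N ∧ Nat.Coprime K N ∧ k ≤ 430

/-- the conditions as a test -/
noncomputable def gdB (b : Blk) (k r : ℕ) : Bool :=
  Blk.rec (motive := fun _ => Bool) true
    (fun K N _ _ => Bool.and (Nat.ble 1 K) (Bool.and (Nat.ble k K) (Bool.and (Nat.ble r N)
      (Bool.and (Nat.beq (Nat.gcd K N) 1) (Nat.ble k 430))))) b

theorem gdB_spec (b : Blk) (k r : ℕ) (h : gdB b k r = true) : Good b k r := by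
  cases b with
  | no => trivial
  | mk K N off ch =>
    have h' : Bool.and (Nat.ble 1 K) (Bool.and (Nat.ble k K) (Bool.and (Nat.ble r N)
      (Bool.and (Nat.beq (Nat.gcd K N) 1) (Nat.ble k 430)))) = true := h
    simp only [Bool.and_eq_true] at h'
    obtain ⟨h1, h2, h3, h4, h5⟩ := h'
    exact ⟨Nat.le_of_ble_eq_true h1, Nat.le_of_ble_eq_true h2, Nat.le_of_ble_eq_true h3,
      Nat.eq_of_beq_eq_true h4, Nat.le_of_ble_eq_true h5⟩

theorem prep_block (W K N k off : ℕ) (ch : List ℕ) (hW : 3 ≤ W) (hc : Nat.Coprime K N) :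
    PRep W K N k 7 (wcut W ch off (K * N)) (ent (Blk.mk K N off ch)) := by
  refine ⟨fun p => dig ch (off + p), wcut_spec W hW ch off (K * N), ?_, ?_⟩
  · intro l _
    have := dig_lt ch (off + l)
    show dig ch (off + l) ≤ 7
    omega
  · intro i hi t _
    rw [ent_slot K N off ch hc i hi t]

/-- cutting off lanes -/
def cutW (W r y : ℕ) : ℕ := Nat.land y (Nat.sub (Nat.pow 2 (Nat.mul W r)) 1)

theorem Rep_cut {W N r b y : ℕ} {v : ℕ → ZMod 7} (h : Rep W N b y v) (hr : r ≤ N)
    (hb : b < 2 ^ W) : Rep W r b (cutW W r y) v := by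
  obtain ⟨a, e, ha⟩ := h
  refine ⟨a, ?_, fun t ht => ha t (by omega)⟩
  unfold cutW
  rw [land_eq]
  obtain ⟨s, rfl⟩ : ∃ s, N = r + s := ⟨N - r, by omega⟩
  change y % 2 ^ (W * r) = _
  rw [e, lanes_split, Nat.add_mul_mod_self_left, Nat.mod_eq_of_lt]
  exact lanes_lt _ _ _ (fun i hi => lt_of_le_of_lt (ha i (by omega)).1 hb)

/-- product of a block and a vector, `r` rows -/
noncomputable def mulB (W : ℕ) (b : Blk) (r y : ℕ) : ℕ :=
  Blk.rec (motive := fun _ => ℕ) 0
    (fun K N off ch => cutW W r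
      (Nat.mod (Nat.land (Nat.mul (wcut W ch off (Nat.mul K N)) y) (tmask W K N)) (mdl W N))) b

/-- column `m` of a block, `r` rows -/
noncomputable def colB (W : ℕ) (b : Blk) (r m : ℕ) : ℕ :=
  Blk.rec (motive := fun _ => ℕ) 0
    (fun K N off ch => cutW W r
      (Nat.mod (Nat.land (Nat.shiftLeft (wcut W ch off (Nat.mul K N)) (Nat.mul W m))
        (tmask W K N)) (mdl W N))) b

theorem colB_eq (W : ℕ) (b : Blk) (r m : ℕ) : colB W b r m = mulB W b r (2 ^ (W * m)) := by
  cases b with
  | no => rfl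
  | mk K N off ch =>
    change cutW W r (Nat.mod (Nat.land (Nat.shiftLeft _ _) _) _) = _
    rw [shl_eq]
    rfl

theorem Rep_unit (W k m : ℕ) (hm : m < k) :
    Rep W k 1 (2 ^ (W * m)) (fun t => if t = m then 1 else 0) := by
  refine ⟨fun t => if t = m then 1 else 0, ?_, fun t _ => ⟨?_, ?_⟩⟩
  · unfold lanes
    rw [Finset.sum_eq_single_of_mem m (mem_range.2 hm)]
    · beta_reduce
      rw [if_pos rfl, one_mul]
    · intro j _ hj
      beta_reduce
      rw [if_neg hj, zero_mul]
  · dsimp only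
    split_ifs <;> omega
  · dsimp only
    split_ifs <;> simp

/-- **Soundness of the product.** -/
theorem mulB_spec {W : ℕ} {b : Blk} {k r β y : ℕ} {v : ℕ → ZMod 7} (hW : 3 ≤ W)
    (hg : Good b k r) (hy : Rep W k β y v) (hb : k * (7 * β) + 1 < 2 ^ W) :
    Rep W r (k * (7 * β)) (mulB W b r y) (fun i => ∑ t ∈ range k, ent b i t * v t) := by
  cases b with
  | no =>
    refine (Rep.zero W r _ (fun t _ => ?_)).mono (Nat.zero_le _)
    exact Finset.sum_eq_zero (fun s _ => zero_mul _)
  | mk K N off ch =>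
    obtain ⟨h1, h2, h3, h4, -⟩ := hg
    have h5 := Rep.mv2 (prep_block W K N k off ch hW h4) hy h1 h2 h4 hb
    have h6 := Rep_cut h5 h3 (by omega)
    change Rep W r _ (cutW W r (Nat.mod (Nat.land (Nat.mul (wcut W ch off (Nat.mul K N)) y)
      (tmask W K N)) (mdl W N))) _
    rw [tmask_eq W K N (by omega) h1]
    exact h6

theorem Good.mono {b : Blk} {k k' r r' : ℕ} (h : Good b k r) (hk : k' ≤ k) (hr : r' ≤ r) :
    Good b k' r' := by
  cases b with
  | no => trivial
  | mk K N off ch =>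
    obtain ⟨h1, h2, h3, h4, h5⟩ := h
    exact ⟨h1, by omega, by omega, h4, by omega⟩

/-- soundness of the column -/
theorem colB_spec {W : ℕ} {b : Blk} {k r m : ℕ} (hW : 3 ≤ W) (hg : Good b k r) (hm : m < k)
    (hb : k * 7 + 1 < 2 ^ W) : Rep W r 7 (colB W b r m) (fun i => ent b i m) := by
  rw [colB_eq]
  cases b with
  | no =>
    refine (Rep.zero W r _ (fun t _ => rfl)).mono (Nat.zero_le _)
  | mk K N off ch =>
    obtain ⟨h1, h2, h3, h4, -⟩ := hg
    have hlt : ∀ i < N, ∀ t < k, K * i + (K - 1) - t < K * N := by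
      intro i hi t ht
      have h1 : K * (i + 1) ≤ K * N := Nat.mul_le_mul_left _ hi
      rw [Nat.mul_succ] at h1
      omega
    -- the lanes are single digits: go through `mv_spec2` with the unit vector
    have hinv : ∀ j, ∃ i, j < N → (i < N ∧ slot K N i = j) := by
      intro j
      by_cases hj : j < N
      · have : j ∈ (range N).image (slot K N) := by
          rw [slot_image h4]
          exact mem_range.2 hj
        obtain ⟨i, hi, e⟩ := mem_image.1 this
        exact ⟨i, fun _ => ⟨mem_range.1 hi, e⟩⟩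
      · exact ⟨0, fun h => absurd h hj⟩
    choose g hgv using hinv
    have hgs : ∀ i < N, g (slot K N i) = i := by
      intro i hi
      have h1 := hgv (slot K N i) (slot_lt (by omega))
      exact slot_inj h4 (by simpa using h1.1) (by simpa using hi) h1.2
    have hspec := mv_spec2 W K N k 7 1 (fun p => dig ch (off + p))
      (fun t => if t = m then 1 else 0) (fun j t => dig ch (off + (K * g j + (K - 1) - t)))
      h1 h2 h4 (fun l _ => by
        have := dig_lt ch (off + l)
        show dig ch (off + l) ≤ 7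
        omega) (fun t _ => by split_ifs <;> omega) (by omega)
      (fun i hi t _ => by rw [hgs i hi])
    have hu : lanes W (fun t => if t = m then 1 else 0) k = 2 ^ (W * m) := by
      unfold lanes
      rw [Finset.sum_eq_single_of_mem m (mem_range.2 hm)]
      · beta_reduce
        rw [if_pos rfl, one_mul]
      · intro j _ hj
        beta_reduce
        rw [if_neg hj, zero_mul]
    rw [hu, ← wcut_spec W hW ch off (K * N)] at hspec
    have hR : Rep W N 7 (Nat.mod (Nat.land (Nat.mul (wcut W ch off (K * N)) (2 ^ (W * m)))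
        (topMask W K N)) (2 ^ (W * N) - 1)) (fun i => ent (Blk.mk K N off ch) i m) := by
      refine ⟨fun j => dig ch (off + (K * g j + (K - 1) - m)), ?_, ?_⟩
      · refine hspec.trans (lanes_congr _ (fun j _ => ?_))
        rw [Finset.sum_eq_single_of_mem m (mem_range.2 hm)]
        · rw [if_pos rfl, mul_one]
        · intro t _ ht
          rw [if_neg ht, mul_zero]
      · intro j hj
        obtain ⟨q1, q2⟩ := hgv j hj
        have hd := dig_lt ch (off + (K * g j + (K - 1) - m))
        have := ent_slot K N off ch h4 (g j) q1 m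
        rw [q2] at this
        exact ⟨Nat.le_of_lt_succ hd, this.symm⟩
    have h6 := Rep_cut hR h3 (by omega)
    change Rep W r _ (cutW W r (Nat.mod (Nat.land (Nat.mul (wcut W ch off (Nat.mul K N)) _)
      (tmask W K N)) (mdl W N))) _
    rw [tmask_eq W K N (by omega) h1]
    exact h6

/-! ### products at the stride of the table, and transposition -/

/-- product of a block and a vector, not gathered -/
noncomputable def sprod (W : ℕ) (b : Blk) (y : ℕ) : ℕ :=
  Blk.rec (motive := fun _ => ℕ) 0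
    (fun K N off ch => Nat.land (Nat.mul (wcut W ch off (Nat.mul K N)) y) (tmask W K N)) b

/-- column of a block, not gathered -/
noncomputable def scol (W : ℕ) (b : Blk) (m : ℕ) : ℕ :=
  Blk.rec (motive := fun _ => ℕ) 0
    (fun K N off ch => Nat.land (Nat.shiftLeft (wcut W ch off (Nat.mul K N)) (Nat.mul W m))
      (tmask W K N)) b

/-- `x` holds the values `u i` in the top lane of each group of `K` lanes -/
def SRep (W K N c x : ℕ) (u : ℕ → ZMod 7) : Prop :=
  ∃ A : ℕ → ℕ, x = lanes (W * K) (fun i => 2 ^ (W * (K - 1)) * A i) N ∧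
    ∀ i < N, A i ≤ c ∧ ((A i : ℕ) : ZMod 7) = u i

theorem row_mul (W K N k a0 y0 : ℕ) (a v : ℕ → ℕ) (hK : 1 ≤ K) (hk : k ≤ K)
    (ha : ∀ l < K * N, a l ≤ a0) (hv : ∀ t < k, v t ≤ y0) (hb : k * (a0 * y0) + 1 < 2 ^ W) :
    (lanes W a (K * N) * lanes W v k) &&& topMask W K N
      = lanes (W * K) (fun i => 2 ^ (W * (K - 1))
        * ∑ t ∈ range k, a (K * i + (K - 1) - t) * v t) N := by
  have hbd : ∀ l, (∑ t ∈ range k, if t ≤ l ∧ l - t < K * N then a (l - t) * v t else 0)
      ≤ k * (a0 * y0) := by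
    intro l
    have h1 : (∑ t ∈ range k, if t ≤ l ∧ l - t < K * N then a (l - t) * v t else 0)
        ≤ ∑ _t ∈ range k, a0 * y0 := by
      refine sum_le_sum ?_
      intro t ht
      split_ifs with h
      · exact Nat.mul_le_mul (ha _ h.2) (hv t (mem_range.1 ht))
      · exact Nat.zero_le _
    simpa using h1
  rw [lanes_mul_lanes', land_topMask _ _ _ _ _ hK (fun l _ => by
    have := hbd l
    omega)]
  refine lanes_congr _ (fun i hi => ?_)
  congr 1
  refine sum_congr rfl (fun t ht => ?_)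
  have ht := mem_range.1 ht
  have h1 : K * (i + 1) ≤ K * N := Nat.mul_le_mul_left _ hi
  rw [Nat.mul_succ] at h1
  rw [if_pos ⟨by omega, by omega⟩]

/-- soundness of the product at stride -/
theorem sprod_spec {W K N off : ℕ} {ch : List ℕ} {k r β y : ℕ} {v : ℕ → ZMod 7} (hW : 3 ≤ W)
    (hg : Good (Blk.mk K N off ch) k r) (hy : Rep W k β y v) (hb : k * (7 * β) + 1 < 2 ^ W) :
    SRep W K N (k * (7 * β)) (sprod W (Blk.mk K N off ch) y)
      (fun i => ∑ t ∈ range k, ent (Blk.mk K N off ch) (slot K N i) t * v t) := by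
  obtain ⟨h1, h2, h3, h4, -⟩ := hg
  obtain ⟨u, eu, hu⟩ := hy
  refine ⟨fun i => ∑ t ∈ range k, dig ch (off + (K * i + (K - 1) - t)) * u t, ?_, ?_⟩
  · have h5 := row_mul W K N k 7 β (fun p => dig ch (off + p)) u h1 h2 (fun l _ => by
      have := dig_lt ch (off + l)
      show dig ch (off + l) ≤ 7
      omega) (fun t ht => (hu t ht).1) hb
    rw [← wcut_spec W hW ch off (K * N), ← eu, ← tmask_eq W K N (by omega) h1] at h5
    exact h5
  · intro i hi
    constructor
    · calc ∑ t ∈ range k, dig ch (off + (K * i + (K - 1) - t)) * u t ≤ ∑ _t ∈ range k, 7 * β := by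
            refine sum_le_sum ?_
            intro t ht
            have ht := mem_range.1 ht
            exact Nat.mul_le_mul (Nat.le_of_lt_succ (dig_lt _ _)) (hu t ht).1
        _ = k * (7 * β) := by simp
    · push_cast
      refine sum_congr rfl (fun t ht => ?_)
      rw [ent_slot K N off ch h4 i hi t, (hu t (mem_range.1 ht)).2]

/-- soundness of the column at stride -/
theorem scol_spec {W K N off : ℕ} {ch : List ℕ} {k r m : ℕ} (hW : 3 ≤ W)
    (hg : Good (Blk.mk K N off ch) k r) (hm : m < k) (hb : k * 7 + 1 < 2 ^ W) :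
    SRep W K N 7 (scol W (Blk.mk K N off ch) m)
      (fun i => ent (Blk.mk K N off ch) (slot K N i) m) := by
  obtain ⟨h1, h2, h3, h4, -⟩ := hg
  have hu : lanes W (fun t => if t = m then 1 else 0) k = 2 ^ (W * m) := by
    unfold lanes
    rw [Finset.sum_eq_single_of_mem m (mem_range.2 hm)]
    · beta_reduce
      rw [if_pos rfl, one_mul]
    · intro j _ hj
      beta_reduce
      rw [if_neg hj, zero_mul]
  refine ⟨fun i => dig ch (off + (K * i + (K - 1) - m)), ?_, ?_⟩
  · have h5 := row_mul W K N k 7 1 (fun p => dig ch (off + p)) (fun t => if t = m then 1 else 0)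
      h1 h2 (fun l _ => by
      have := dig_lt ch (off + l)
      show dig ch (off + l) ≤ 7
      omega) (fun t _ => by split_ifs <;> omega) (by omega)
    rw [← wcut_spec W hW ch off (K * N), hu, ← tmask_eq W K N (by omega) h1] at h5
    have h6 : scol W (Blk.mk K N off ch) m
        = wcut W ch off (K * N) * 2 ^ (W * m) &&& tmask W K N := by
      change Nat.land (Nat.shiftLeft _ _) _ = _
      rw [shl_eq]
      rfl
    rw [h6, h5]
    refine lanes_congr _ (fun i _ => ?_)
    congr 1
    rw [Finset.sum_eq_single_of_mem m (mem_range.2 hm)]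
    · rw [if_pos rfl, mul_one]
    · intro t _ ht
      rw [if_neg ht, mul_zero]
  · intro i hi
    exact ⟨Nat.le_of_lt_succ (dig_lt _ _), (ent_slot K N off ch h4 i hi m).symm⟩

/-- sum of shifted terms -/
def zsum (W : ℕ) (f : ℕ → ℕ) (n : ℕ) : ℕ :=
  Nat.rec (motive := fun _ => ℕ) 0
    (fun m ih => Nat.add (Nat.shiftLeft (f m) (Nat.mul W m)) ih) n

theorem zsum_eq (W : ℕ) (f : ℕ → ℕ) (n : ℕ) : zsum W f n = ∑ m ∈ range n, f m * 2 ^ (W * m) := by
  induction n with
  | zero => rfl
  | succ n ih =>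
    rw [sum_range_succ, ← ih, add_comm (zsum W f n)]
    change Nat.add (Nat.shiftLeft (f n) (Nat.mul W n)) (zsum W f n) = _
    rw [shl_eq]
    rfl

/-- sum over the slots of the columns -/
noncomputable def csum (W K N r : ℕ) (g : ℕ → ℕ) (n : ℕ) : ℕ :=
  Nat.rec (motive := fun _ => ℕ) 0
    (fun i ih => Nat.add (frc (fun s => Bool.rec (motive := fun _ => ℕ) 0
      (Nat.shiftLeft (g s) (Nat.mul W (Nat.add (Nat.mul K i) (Nat.sub K 1))))
      (Nat.ble (Nat.succ s) r)) (Nat.mod (Nat.add (Nat.mul K i) (Nat.sub K 1)) N)) ih) n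

theorem csum_eq (W K N r : ℕ) (g : ℕ → ℕ) (n : ℕ) : csum W K N r g n
    = ∑ i ∈ range n, (if slot K N i < r then g (slot K N i) else 0) * 2 ^ (W * (K * i + (K - 1))) := by
  induction n with
  | zero => rfl
  | succ n ih =>
    rw [sum_range_succ, ← ih, add_comm (csum W K N r g n)]
    change Nat.add (frc (fun s => Bool.rec (motive := fun _ => ℕ) 0
      (Nat.shiftLeft (g s) (W * (K * n + (K - 1)))) (Nat.ble (Nat.succ s) r)) (slot K N n))
      (csum W K N r g n) = _
    rw [frc_eq]
    congr 1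
    by_cases h : slot K N n < r
    · rw [if_pos h]
      have h1 : Nat.ble (Nat.succ (slot K N n)) r = true := Nat.ble_eq_true_of_le h
      rw [h1]
      change Nat.shiftLeft _ _ = _
      rw [shl_eq]
    · rw [if_neg h, zero_mul]
      have h1 : Nat.ble (Nat.succ (slot K N n)) r = false := by
        cases h2 : Nat.ble (Nat.succ (slot K N n)) r with
        | false => rfl
        | true => exact absurd (Nat.le_of_ble_eq_true h2) h
      rw [h1]

/-- the test -/
noncomputable def ttest (W K N r n c : ℕ) (f g : ℕ → ℕ) : Bool :=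
  ztW W (Nat.mul K N) (Nat.shiftRight (Nat.add (zsum W f n) (Nat.mul c (csum W K N r g N)))
    (Nat.mul W (Nat.sub K 1)))

/-- **Comparison of a matrix (by columns at stride) with a transposed matrix (by columns).** -/
theorem transp {W K N r n c c1 c2 : ℕ} {f g : ℕ → ℕ} {a b : ℕ → ℕ → ZMod 7} (hW : 3 ≤ W)
    (hK : 1 ≤ K) (hn : n ≤ K) (hf : ∀ m < n, SRep W K N c1 (f m) (a m))
    (hg : ∀ s < r, Rep W n c2 (g s) (b s)) (hb : c1 + c * c2 < 2 ^ W)
    (h : ttest W K N r n c f g = true) :
    ∀ i < N, slot K N i < r → ∀ m < n, a m i + (c : ZMod 7) * b (slot K N i) m = 0 := by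
  have hA : ∀ m, ∃ A : ℕ → ℕ, m < n → (f m = lanes (W * K) (fun i => 2 ^ (W * (K - 1)) * A i) N ∧
      ∀ i < N, A i ≤ c1 ∧ ((A i : ℕ) : ZMod 7) = a m i) := by
    intro m
    by_cases hm : m < n
    · obtain ⟨A, hA⟩ := hf m hm
      exact ⟨A, fun _ => hA⟩
    · exact ⟨fun _ => 0, fun h => absurd h hm⟩
  choose A hA using hA
  have hB : ∀ s, ∃ B : ℕ → ℕ, s < r → (g s = lanes W B n ∧
      ∀ t < n, B t ≤ c2 ∧ ((B t : ℕ) : ZMod 7) = b s t) := by
    intro s
    by_cases hs : s < r
    · obtain ⟨B, hB⟩ := hg s hs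
      exact ⟨B, fun _ => hB⟩
    · exact ⟨fun _ => 0, fun h => absurd h hs⟩
  choose B hB using hB
  set G : ℕ → ℕ → ℕ := fun s t => if s < r then B s t else 0 with hG
  set hh : ℕ → ℕ → ℕ := fun i m => if m < n then A m i + c * G (slot K N i) m else 0 with hhh
  -- the two sums
  have e1 : zsum W f n = 2 ^ (W * (K - 1)) * ∑ i ∈ range N, ∑ m ∈ range n,
      A m i * 2 ^ (W * m) * 2 ^ (W * K * i) := by
    rw [zsum_eq, Finset.sum_comm, mul_sum]
    refine sum_congr rfl (fun m hm => ?_)
    rw [(hA m (mem_range.1 hm)).1]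
    unfold lanes
    rw [sum_mul, mul_sum]
    refine sum_congr rfl (fun i _ => ?_)
    ring
  have e2 : csum W K N r g N = 2 ^ (W * (K - 1)) * ∑ i ∈ range N, ∑ m ∈ range n,
      G (slot K N i) m * 2 ^ (W * m) * 2 ^ (W * K * i) := by
    rw [csum_eq, mul_sum]
    refine sum_congr rfl (fun i _ => ?_)
    have e3 : (if slot K N i < r then g (slot K N i) else 0)
        = ∑ m ∈ range n, G (slot K N i) m * 2 ^ (W * m) := by
      by_cases hs : slot K N i < r
      · rw [if_pos hs, (hB _ hs).1]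
        unfold lanes
        refine sum_congr rfl (fun m _ => ?_)
        simp only [hG]
        rw [if_pos hs]
      · rw [if_neg hs]
        symm
        refine sum_eq_zero (fun m _ => ?_)
        simp only [hG]
        rw [if_neg hs, zero_mul]
    rw [e3, sum_mul, mul_sum]
    refine sum_congr rfl (fun m _ => ?_)
    have e4 : 2 ^ (W * (K * i + (K - 1))) = 2 ^ (W * (K - 1)) * 2 ^ (W * K * i) := by
      rw [← pow_add]
      congr 1
      ring
    rw [e4]
    ring
  have e5 : zsum W f n + c * csum W K N r g N = 2 ^ (W * (K - 1))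
      * lanes (W * K) (fun i => lanes W (hh i) K) N := by
    rw [e1, e2]
    unfold lanes
    rw [mul_left_comm, ← mul_add, mul_sum, ← sum_add_distrib]
    congr 1
    refine sum_congr rfl (fun i _ => ?_)
    rw [mul_sum, ← sum_add_distrib, sum_mul]
    obtain ⟨q, rfl⟩ : ∃ q, K = n + q := ⟨K - n, by omega⟩
    rw [sum_range_add]
    have e6 : ∑ x ∈ range q, hh i (n + x) * 2 ^ (W * (n + x)) * 2 ^ (W * (n + q) * i) = 0 := by
      refine sum_eq_zero (fun x _ => ?_)
      simp only [hhh]
      rw [if_neg (by omega), zero_mul, zero_mul]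
    rw [e6, add_zero]
    refine sum_congr rfl (fun m hm => ?_)
    simp only [hhh]
    rw [if_pos (mem_range.1 hm)]
    ring
  have e7 : Nat.shiftRight (Nat.add (zsum W f n) (Nat.mul c (csum W K N r g N)))
      (Nat.mul W (Nat.sub K 1)) = lanes W (fun l => hh (l / K) (l % K)) (K * N) := by
    rw [shr_eq]
    change (zsum W f n + c * csum W K N r g N) / 2 ^ (W * (K - 1)) = _
    rw [e5, Nat.mul_div_cancel_left _ (by positivity), lanes_blocks]
    refine lanes_congr _ (fun i _ => lanes_congr _ (fun s hs => ?_))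
    have h1 : (K * i + s) / K = i := by
      rw [Nat.mul_add_div (by omega), Nat.div_eq_of_lt hs, add_zero]
    have h2 : (K * i + s) % K = s := by
      rw [Nat.mul_add_mod, Nat.mod_eq_of_lt hs]
    rw [h1, h2]
  have hbound : ∀ i < N, ∀ m, hh i m ≤ c1 + c * c2 := by
    intro i hi m
    simp only [hhh]
    by_cases hm : m < n
    · rw [if_pos hm]
      refine Nat.add_le_add ((hA m hm).2 i hi).1 (Nat.mul_le_mul_left _ ?_)
      simp only [hG]
      by_cases hs : slot K N i < r
      · rw [if_pos hs]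
        exact ((hB _ hs).2 m hm).1
      · rw [if_neg hs]
        exact Nat.zero_le _
    · rw [if_neg hm]
      exact Nat.zero_le _
  have hRep : Rep W (K * N) (c1 + c * c2)
      (Nat.shiftRight (Nat.add (zsum W f n) (Nat.mul c (csum W K N r g N)))
      (Nat.mul W (Nat.sub K 1))) (fun l => ((hh (l / K) (l % K) : ℕ) : ZMod 7)) := by
    refine ⟨fun l => hh (l / K) (l % K), e7, fun l hl => ⟨?_, rfl⟩⟩
    refine hbound _ ?_ _
    rw [Nat.div_lt_iff_lt_mul (by omega), mul_comm]
    exact hl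
  have hz := ztW_spec hRep hW hb h
  intro i hi hs m hm
  have hmK : m < K := by omega
  have h3 : K * i + m < K * N := by
    have h4 : K * (i + 1) ≤ K * N := Nat.mul_le_mul_left _ hi
    rw [Nat.mul_succ] at h4
    omega
  have h5 := hz (K * i + m) h3
  have h6 : (K * i + m) / K = i := by
    rw [Nat.mul_add_div (by omega), Nat.div_eq_of_lt hmK, add_zero]
  have h7 : (K * i + m) % K = m := by
    rw [Nat.mul_add_mod, Nat.mod_eq_of_lt hmK]
  beta_reduce at h5
  rw [h6, h7] at h5
  simp only [hhh, hG] at h5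
  rw [if_pos hm, if_pos hs] at h5
  push_cast at h5
  rw [((hA m hm).2 i hi).2, ((hB _ hs).2 m hm).2] at h5
  exact h5

end Pool.Agent.Work.MP_bde882_al.Fin8
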